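import Pool.Agent.Helper45.N9S.SD
import Pool.Agent.Helper17.N9.N9A

/-!
Row K9 of MP_c75db0 (plan W), kernel S, row D: determinants modulo `2 ^ 40 + 1` (`i = 2 ^ 20`).
-/

set_option autoImplicit false
set_option exponentiation.threshold 60000
noncomputable section
namespace Pool.Agent.Helper45.N9S

open Pool.Agent.Helper86.C75 (Z)
open Pool.Agent.Helper86.CX (Cx andB)
open Pool.Agent.Helper90.KMO (zv zv_add zv_sub zv_mul zv_br zv_p zv_m)
open Pool.Agent.Helper17.N9

namespace RD

/-- the ring of integers modulo `2 ^ 40 + 1` -/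
abbrev RM : Type := ZMod 1099511627777

theorem m0 : ((1099511627777 : ℕ) : RM) = 0 := ZMod.natCast_self _

theorem j2 : (1048576 : RM) * 1048576 = -1 := by
  have h := m0
  push_cast at h
  linear_combination h

/-- the value of a Gaussian integer, `i` sent to `2 ^ 20` -/
def ph (x : Cx) : RM := ((zv x.re : ℤ) : RM) + 1048576 * ((zv x.im : ℤ) : RM)

theorem ph_xml (a b : Cx) : ph (xml a b) = ph a * ph b := by
  simp only [ph, xml, zv_add, zv_sub, zv_mul, Int.cast_add, Int.cast_sub, Int.cast_mul]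
  linear_combination (-((zv a.im : ℤ) : RM) * ((zv b.im : ℤ) : RM)) * j2

theorem ph_xsb (a b : Cx) : ph (xsb a b) = ph a - ph b := by
  simp only [ph, xsb, zv_sub, Int.cast_sub]
  ring

theorem ph_xad (a b : Cx) : ph (xad a b) = ph a + ph b := by
  simp only [ph, xad, zv_add, Int.cast_add]
  ring

theorem ph_det1 (a b c d e f g h i : Cx) : ph (det1 a b c d e f g h i) =
    ph a * (ph e * ph i - ph f * ph h) + (ph b * (ph f * ph g - ph d * ph i) + ph c * (ph d * ph h - ph e * ph g)) := by
  simp only [det1, ph_xad, ph_xml, ph_xsb]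

theorem zv_sub' (a b : ℕ) : zv (Z.sub' a b) = (a : ℤ) - b := zv_br a b

theorem ph_ae (T k k' : ℕ) : ph (ae T k k') = (u20 T k : RM) + 1048576 * (u20 T k' : RM) - 549756338176 := by
  simp only [ph, ae, zv_sub', Int.cast_sub, Int.cast_natCast]
  have : ((H19 : ℕ) : RM) = 524288 := by
    show ((524288 : ℕ) : RM) = 524288
    norm_cast
  rw [this]
  ring

theorem ea_eq (T k : ℕ) : ea T k = u20 T k + 1048576 * u20 T (k + 20) + 549755289601 := by
  show (T >>> k) % 1099511627776 + 549755289601 = (T >>> k) % 1048576 + 1048576 * ((T >>> (k + 20)) % 1048576) + 549755289601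
  have h : T >>> (k + 20) = (T >>> k) / 1048576 := by
    rw [Nat.shiftRight_add, Nat.shiftRight_eq_div_pow (T >>> k) 20]
  rw [h]
  omega

theorem ea_lt (T k : ℕ) : ea T k < 2199023255552 := by
  show (T >>> k) % 1099511627776 + 549755289601 < 2199023255552
  omega

theorem ea_cast (T k k' : ℕ) (h : k' = k + 20) : ((ea T k : ℕ) : RM) = ph (ae T k k') := by
  subst h
  have hm := m0
  push_cast at hm
  rw [ph_ae, ea_eq]
  push_cast
  linear_combination hm

theorem dm2_cast {x y z w : ℕ} (hz : z < 2199023255552) (hw : w < 2199023255552) :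
    ((dm2 x y z w : ℕ) : RM) = (x : RM) * y - (z : RM) * w := by
  have h1 : z * w ≤ x * y + 19342813113851658981343232 := by
    have : z * w ≤ 2199023255552 * 2199023255552 := Nat.mul_le_mul hz.le hw.le
    omega
  show ((x * y + 19342813113851658981343232 - z * w : ℕ) : RM) = (x : RM) * y - (z : RM) * w
  rw [Nat.cast_sub h1]
  have hm := m0
  push_cast at hm ⊢
  linear_combination 17592186044416 * hm

theorem dm3_cast {a b c d e f g h i : ℕ} (hd : d < 2199023255552)
    (he : e < 2199023255552) (hf : f < 2199023255552) (hg : g < 2199023255552) (hh : h < 2199023255552) (hi : i < 2199023255552) :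
    ((dm3 a b c d e f g h i : ℕ) : RM) = (a : RM) * (e * i - f * h) + (b * (f * g - d * i) + c * (d * h - e * g)) := by
  show (((a * dm2 e i f h + (b * dm2 f g d i + c * dm2 d h e g)) % 1099511627777 : ℕ) : RM) = _
  rw [ZMod.natCast_mod]
  simp only [Nat.cast_add, Nat.cast_mul]
  rw [dm2_cast hf hh, dm2_cast hd hi, dm2_cast he hg]

theorem nzZ_false {x : Z} (h : nzZ x = false) : zv x = 0 := by
  cases x with
  | p n =>
    have h1 : Nat.ble 1 n = false := h
    have h2 : ¬ 1 ≤ n := fun hn => by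
      rw [Nat.ble_eq_true_of_le hn] at h1
      exact Bool.noConfusion h1
    have h3 : n = 0 := by omega
    rw [zv_p, h3]
    rfl
  | m n =>
    have h1 : Nat.ble 1 n = false := h
    have h2 : ¬ 1 ≤ n := fun hn => by
      rw [Nat.ble_eq_true_of_le hn] at h1
      exact Bool.noConfusion h1
    have h3 : n = 0 := by omega
    rw [zv_m, h3]
    rfl

theorem ph_nz {x : Cx} (h : ph x ≠ 0) : nz x = true := by
  by_contra hc
  have h1 : nz x = false := by simpa using hc
  have h2 : orB (nzZ x.re) (nzZ x.im) = false := h1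
  cases h3 : nzZ x.re with
  | true =>
    rw [h3] at h2
    exact Bool.noConfusion h2
  | false =>
    rw [h3] at h2
    have h4 : nzZ x.im = false := h2
    apply h
    rw [ph, nzZ_false h3, nzZ_false h4]
    simp

end RD

open RD in
theorem nzd_ok {T : ℕ} (h : nzd T = true) : nz (det T) = true := by
  have h1 := Nat.le_of_ble_eq_true h
  apply ph_nz
  have e : ph (det T) = ((dm3 (ea T 0) (ea T 40) (ea T 80) (ea T 120) (ea T 160) (ea T 200) (ea T 240) (ea T 280) (ea T 320) : ℕ) : RM) := by
    rw [dm3_cast (ea_lt _ _) (ea_lt _ _) (ea_lt _ _) (ea_lt _ _) (ea_lt _ _) (ea_lt _ _)]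
    rw [ea_cast T 0 20 rfl, ea_cast T 40 60 rfl, ea_cast T 80 100 rfl, ea_cast T 120 140 rfl, ea_cast T 160 180 rfl,
      ea_cast T 200 220 rfl, ea_cast T 240 260 rfl, ea_cast T 280 300 rfl, ea_cast T 320 340 rfl]
    exact ph_det1 _ _ _ _ _ _ _ _ _
  rw [e]
  intro h0
  rw [ZMod.natCast_eq_zero_iff] at h0
  have h2 : dm3 (ea T 0) (ea T 40) (ea T 80) (ea T 120) (ea T 160) (ea T 200) (ea T 240) (ea T 280) (ea T 320) < 1099511627777 :=
    Nat.mod_lt _ (by norm_num)
  have h3 := Nat.eq_zero_of_dvd_of_lt h0 h2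
  rw [h3] at h1
  exact absurd h1 (by norm_num)

end Pool.Agent.Helper45.N9S
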