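import Pool.Agent.Helper45.N9S.SD
import Pool.Agent.Helper17.N9.N9R

/-!
Row K9 of MP_c75db0 (plan W), kernel S, row R: packed rows and radii.
-/

set_option autoImplicit false
set_option exponentiation.threshold 60000
noncomputable section
namespace Pool.Agent.Helper45.N9S

open Pool.Agent.Helper86.CX (andB)
open Pool.Agent.Helper90.K9 (pk pz)
open Pool.Agent.Helper90.C9 (RdC)
open Pool.Agent.Helper17.N9
open Finset

/-! ### frames -/

theorem mkMa_bd (T : ℕ) : ∀ K < 9, (mkMa T).at K ≤ 2 ^ 21 := by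
  have hu : ∀ k, u20 T k < 2 ^ 20 := fun k => by
    have h : u20 T k = T / 2 ^ k % 1048576 := by
      rw [← Nat.shiftRight_eq_div_pow]
      rfl
    rw [h]
    exact Nat.mod_lt _ (by norm_num)
  have ha : ∀ k, adf (u20 T k) ≤ 2 ^ 19 := fun k => by
    have h : adf (u20 T k) = (u20 T k - 524288) + (524288 - u20 T k) := rfl
    have := hu k
    rw [h]
    omega
  have hm : ∀ k k', ma T k k' ≤ 2 ^ 21 := fun k k' => by
    have h : ma T k k' = mx2 (adf (u20 T k) + (adf (u20 T k')) >>> 1)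
        (adf (u20 T k') + (adf (u20 T k)) >>> 1) + 2 := rfl
    have h2 : ∀ x y, mx2 x y ≤ x + y := fun x y => by
      show x + (y - x) ≤ x + y
      omega
    have a1 := ha k
    have a2 := ha k'
    rw [h]
    have := h2 (adf (u20 T k) + (adf (u20 T k')) >>> 1) (adf (u20 T k') + (adf (u20 T k)) >>> 1)
    rw [Nat.shiftRight_eq_div_pow, Nat.shiftRight_eq_div_pow] at this
    rw [Nat.shiftRight_eq_div_pow, Nat.shiftRight_eq_div_pow]
    omega
  intro K hK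
  interval_cases K <;> exact hm _ _

namespace RR

open Pool.Agent.Helper90.K9 (pk_zero pk_succ pk_congr pk_add pk_smul pk_last pk_split pk_nest pk_lt
  pk_inj land_split shl_pk land_pk)
open Pool.Agent.Helper90.DG (land0 mul_rep kron pk_extend)

/-! ### literals -/

theorem ML9_eq : ML9 = pk (2 ^ 384) 9 (fun _ => 2 ^ 128 - 1) := by decide +kernel
theorem F284_eq : F284 = pk (2 ^ 384) 9 (fun _ => 2 ^ 284 - 1) := by decide +kernel
theorem H36_eq : H36 = pk (2 ^ 384) 9 (fun _ => 0 + 2 ^ 36 * (2 ^ 248 - 1)) := by decide +kernel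
theorem FB9_eq : FB9 = pk (2 ^ 384) 9 (fun _ => 2 ^ 300 - 1) := by decide +kernel
theorem O9_eq : O9 = pk (2 ^ 384) 9 (fun _ => 1) := by decide +kernel
theorem CMR_eq : CMR = pk ((2 ^ 384) ^ 10) 9 (fun _ => 1) := by decide +kernel
theorem MR33_eq : MR33 = pk (2 ^ 384) 99 (fun k => if k % 11 = 0 then 2 ^ 64 - 1 else 0) := by
  decide +kernel
theorem S9_def (y : ℕ) : S9 y = y % (2 ^ 384 - 1) := rfl

/-! ### digits -/

theorem pk_dig (b : ℕ) : ∀ (n Y : ℕ), Y = pk b n (fun k => Y / b ^ k % b) + b ^ n * (Y / b ^ n)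
  | 0, Y => by
    rw [pk_zero, pow_zero, Nat.div_one, Nat.zero_add, Nat.one_mul]
  | n + 1, Y => by
    have h := pk_dig b n (Y / b)
    have e : pk b (n + 1) (fun k => Y / b ^ k % b) =
        Y % b + b * pk b n (fun k => Y / b / b ^ k % b) := by
      rw [pk_succ, pow_zero, Nat.div_one]
      congr 2
      refine pk_congr _ _ _ _ fun k _ => ?_
      rw [Nat.div_div_eq_div_mul, pow_succ, Nat.mul_comm (b ^ k)]
    have e2 : Y / b ^ (n + 1) = Y / b / b ^ n := by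
      rw [Nat.div_div_eq_div_mul, pow_succ, Nat.mul_comm (b ^ n)]
    have h3 := Nat.mod_add_div Y b
    calc Y = Y % b + b * (Y / b) := h3.symm
      _ = Y % b + b * (pk b n (fun k => Y / b / b ^ k % b) + b ^ n * (Y / b / b ^ n)) := by
          rw [← h]
      _ = _ := by
          rw [e, e2, pow_succ]
          ring

theorem dgt_def (x o : ℕ) : dgt x o = x / 2 ^ o % 2 ^ 128 := by
  rw [← Nat.shiftRight_eq_div_pow]
  rfl

theorem dgt_lt (x o : ℕ) : dgt x o < 2 ^ 128 := by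
  rw [dgt_def]
  exact Nat.mod_lt _ (by positivity)

theorem land_ML9 (x : ℕ) : Nat.land x ML9 = pk (2 ^ 384) 9 (fun K => dgt x (384 * K)) := by
  have h : Nat.land x ML9 = x &&& ML9 := rfl
  rw [h, ML9_eq]
  conv_lhs => rw [pk_dig (2 ^ 384) 9 x]
  rw [land_pk 9 _ _ _ (fun i _ => Nat.mod_lt _ (by positivity))
    (fun i _ => lt_of_lt_of_le (Nat.sub_lt (by positivity) one_pos)
      (Nat.pow_le_pow_right (by norm_num) (by norm_num)))]
  refine pk_congr _ _ _ _ fun K _ => ?_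
  rw [Nat.and_two_pow_sub_one_eq_mod, dgt_def, ← pow_mul,
    Nat.mod_mod_of_dvd _ (pow_dvd_pow 2 (by norm_num))]

theorem dgt_shift (x a o : ℕ) : dgt (Nat.shiftRight x a) o = dgt x (o + a) := by
  have h : Nat.shiftRight x a = x >>> a := rfl
  rw [dgt_def, dgt_def, h, Nat.shiftRight_eq_div_pow, Nat.div_div_eq_div_mul, ← pow_add,
    Nat.add_comm a o]

theorem land_ML9s (x a : ℕ) : Nat.land (Nat.shiftRight x a) ML9 =
    pk (2 ^ 384) 9 (fun K => dgt x (384 * K + a)) := by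
  rw [land_ML9]
  exact pk_congr _ _ _ _ fun K _ => dgt_shift x a _

/-! ### sum of the fields -/

theorem pk_modEq (b : ℕ) (hb : 0 < b) : ∀ (n : ℕ) (f : ℕ → ℕ),
    pk b n f ≡ ∑ i ∈ range n, f i [MOD (b - 1)]
  | 0, f => by
    rw [pk_zero, Finset.sum_range_zero]
  | n + 1, f => by
    rw [pk_succ, Finset.sum_range_succ', Nat.add_comm]
    have h := pk_modEq b hb n (fun i => f (i + 1))
    have h1 : b ≡ 1 [MOD (b - 1)] := (Nat.modEq_iff_dvd' hb).2 dvd_rfl |>.symm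
    have h2 := (h1.mul h)
    rw [Nat.one_mul] at h2
    exact h2.add_right _

theorem S9_pk (f : ℕ → ℕ) (h : ∑ i ∈ range 9, f i < 2 ^ 384 - 1) :
    S9 (pk (2 ^ 384) 9 f) = ∑ i ∈ range 9, f i := by
  rw [S9_def]
  have := pk_modEq (2 ^ 384) (by positivity) 9 f
  rw [Nat.ModEq] at this
  rw [this, Nat.mod_eq_of_lt h]

/-- bounded digits -/
theorem S9_pk' (f : ℕ → ℕ) (h : ∀ i < 9, f i ≤ 2 ^ 380) :
    S9 (pk (2 ^ 384) 9 f) = ∑ i ∈ range 9, f i := by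
  refine S9_pk f ?_
  have h1 : ∑ i ∈ range 9, f i ≤ ∑ _i ∈ range 9, 2 ^ 380 :=
    Finset.sum_le_sum fun i hi => h i (Finset.mem_range.1 hi)
  rw [Finset.sum_const, Finset.card_range, smul_eq_mul] at h1
  refine lt_of_le_of_lt h1 ?_
  norm_num

/-! ### moduli of the differences -/

def fa (x K : ℕ) : ℕ := dgt x (384 * K)
def fb (x K : ℕ) : ℕ := dgt x (384 * (K + 9))
def fc (x K : ℕ) : ℕ := dgt x (384 * K + 6912)
def fd (x K : ℕ) : ℕ := dgt x (384 * (K + 9) + 6912)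
/-- sum of nine -/
def s9 (f : ℕ → ℕ) : ℕ := ∑ i ∈ range 9, f i

theorem fa_eq (x : ℕ) : Nat.land x ML9 = pk (2 ^ 384) 9 (fa x) := land_ML9 x
theorem fb_eq (x : ℕ) : Nat.land (Nat.shiftRight x (nat_lit 3456)) ML9 = pk (2 ^ 384) 9 (fb x) := by
  have h : Nat.land (Nat.shiftRight x (nat_lit 3456)) ML9 = Nat.land (Nat.shiftRight x 3456) ML9 :=
    rfl
  rw [h, land_ML9s]
  refine pk_congr _ _ _ _ fun K _ => ?_
  have e : 384 * (K + 9) = 384 * K + 3456 := by ring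
  unfold fb
  rw [e]
theorem fc_eq (x : ℕ) : Nat.land (Nat.shiftRight x (nat_lit 6912)) ML9 = pk (2 ^ 384) 9 (fc x) := by
  have h : Nat.land (Nat.shiftRight x (nat_lit 6912)) ML9 = Nat.land (Nat.shiftRight x 6912) ML9 :=
    rfl
  rw [h, land_ML9s]
  rfl
theorem fd_eq (x : ℕ) :
    Nat.land (Nat.shiftRight x (nat_lit 10368)) ML9 = pk (2 ^ 384) 9 (fd x) := by
  have h : Nat.land (Nat.shiftRight x (nat_lit 10368)) ML9 =
      Nat.land (Nat.shiftRight x 10368) ML9 := rfl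
  rw [h, land_ML9s]
  refine pk_congr _ _ _ _ fun K _ => ?_
  have e : 384 * (K + 9) + 6912 = 384 * K + 10368 := by ring
  unfold fd
  rw [e]

theorem fa_lt (x K : ℕ) : fa x K < 2 ^ 128 := dgt_lt _ _
theorem fb_lt (x K : ℕ) : fb x K < 2 ^ 128 := dgt_lt _ _
theorem fc_lt (x K : ℕ) : fc x K < 2 ^ 128 := dgt_lt _ _
theorem fd_lt (x K : ℕ) : fd x K < 2 ^ 128 := dgt_lt _ _

theorem s9_le {f : ℕ → ℕ} {b : ℕ} (h : ∀ i < 9, f i ≤ b) : s9 f ≤ 9 * b := by
  have h1 : ∑ i ∈ range 9, f i ≤ ∑ _i ∈ range 9, b :=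
    Finset.sum_le_sum fun i hi => h i (Finset.mem_range.1 hi)
  rw [Finset.sum_const, Finset.card_range, smul_eq_mul] at h1
  exact h1

theorem S9_f {f : ℕ → ℕ} (h : ∀ i, f i < 2 ^ 128) : S9 (pk (2 ^ 384) 9 f) = s9 f :=
  S9_pk' f fun i _ => (h i).le.trans (Nat.pow_le_pow_right (by norm_num) (by norm_num))

/-- the error of one direction, weight `1` -/
def e1 (x K : ℕ) : ℕ :=
  793 * ((fa x K * s9 (fd x) + fc x K * s9 (fb x)) + (fb x K * s9 (fc x) + fd x K * s9 (fa x))) +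
    256 * (fc x K * s9 (fd x) + fd x K * s9 (fc x))

theorem rst_eq (w x : ℕ) (b c e : ℕ → ℕ) :
    rst w x ⟨pk (2 ^ 384) 9 b, pk (2 ^ 384) 9 c, pk (2 ^ 384) 9 e⟩ =
      ⟨pk (2 ^ 384) 9 (fun K => b K + (fa x K + fc x K)),
        pk (2 ^ 384) 9 (fun K => c K + (fb x K + fd x K)),
        pk (2 ^ 384) 9 (fun K => e K + w * e1 x K)⟩ := by
  unfold rst
  rw [fa_eq, fb_eq, fc_eq, fd_eq]
  have h : ∀ A B C D X Y Z : ℕ, rst1 w A B C D X Y Z = ⟨X + (A + C), Y + (B + D),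
      Z + w * (793 * ((A * S9 D + C * S9 B) + (B * S9 C + D * S9 A)) +
        256 * (C * S9 D + D * S9 C))⟩ := fun _ _ _ _ _ _ _ => rfl
  rw [h, S9_f (fa_lt x), S9_f (fb_lt x), S9_f (fc_lt x), S9_f (fd_lt x)]
  have hm : ∀ (f : ℕ → ℕ) (k : ℕ), pk (2 ^ 384) 9 f * k = pk (2 ^ 384) 9 (fun K => f K * k) :=
    fun f k => by
      rw [Nat.mul_comm, pk_smul]
      exact pk_congr _ _ _ _ fun K _ => Nat.mul_comm _ _
  rw [pk_add, pk_add, pk_add, pk_add, hm, hm, hm, hm, hm, hm, pk_add, pk_add, pk_add, pk_add,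
    pk_smul, pk_smul, pk_add, pk_smul, pk_add]
  rfl

/-- the error with weights -/
def eE : ℕ → List ℕ → ℕ → ℕ
  | _, [], _ => 0
  | w, x :: l, K => w * e1 x K + eE (w * 5 / 4) l K

/-- sums of the moduli -/
def sMl (l : List ℕ) (K : ℕ) : ℕ := smL (mdL (384 * K) (384 * K + 6912) l)
def sXl (l : List ℕ) (K : ℕ) : ℕ := smL (mdL (384 * (K + 9)) (384 * (K + 9) + 6912) l)

theorem sMl_cons (x : ℕ) (l : List ℕ) (K : ℕ) : sMl (x :: l) K = fa x K + fc x K + sMl l K := rfl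
theorem sXl_cons (x : ℕ) (l : List ℕ) (K : ℕ) : sXl (x :: l) K = fb x K + fd x K + sXl l K := rfl

theorem RA_congr {a b c a' b' c' : ℕ} (h1 : a = a') (h2 : b = b') (h3 : c = c') :
    RA.mk a b c = RA.mk a' b' c' := by
  subst h1 h2 h3
  rfl

theorem rsl_eq : ∀ (l : List ℕ) (w : ℕ) (b c e : ℕ → ℕ),
    rsl l w ⟨pk (2 ^ 384) 9 b, pk (2 ^ 384) 9 c, pk (2 ^ 384) 9 e⟩ =
      ⟨pk (2 ^ 384) 9 (fun K => b K + sMl l K), pk (2 ^ 384) 9 (fun K => c K + sXl l K),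
        pk (2 ^ 384) 9 (fun K => e K + eE w l K)⟩
  | [], w, b, c, e => rfl
  | x :: l, w, b, c, e => by
    have h : ∀ r, rsl (x :: l) w r = rsl l ((w * 5) >>> 2) (rst w x r) := fun _ => rfl
    rw [h, rst_eq, rsl_eq l, Nat.shiftRight_eq_div_pow]
    refine RA_congr ?_ ?_ ?_
    · refine pk_congr _ _ _ _ fun K _ => ?_
      rw [sMl_cons]
      ring
    · refine pk_congr _ _ _ _ fun K _ => ?_
      rw [sXl_cons]
      ring
    · refine pk_congr _ _ _ _ fun K _ => ?_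
      have h : eE w (x :: l) K = w * e1 x K + eE (w * 5 / 4) l K := rfl
      rw [h]
      norm_num
      ring

theorem rSa_eq (p0 : ℕ) (l : List ℕ) : rSa p0 l =
    ⟨pk (2 ^ 384) 9 (fun K => fa p0 K + sMl l K), pk (2 ^ 384) 9 (fun K => fb p0 K + sXl l K),
      pk (2 ^ 384) 9 (fun K => eE 64 l K)⟩ := by
  unfold rSa
  rw [fa_eq, fb_eq]
  have h0 : (nat_lit 0 : ℕ) = pk (2 ^ 384) 9 (fun _ => 0) := by decide +kernel
  have h := rsl_eq l 64 (fa p0) (fb p0) (fun _ => 0)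
  rw [← h0] at h
  refine h.trans ?_
  refine RA_congr rfl rfl ?_
  exact pk_congr _ _ _ _ fun K _ => Nat.zero_add _

/-! ### radii of the entries -/

theorem rP_eq (W U : M9) (R : R9) :
    rP W U R = pk (2 ^ 384) 9 (rW W (rU (toM R) U)).at := by
  have h3 : ∀ a b c : ℕ, pk3 a b c = a + (b * 2 ^ 384 + c * (2 ^ 384) ^ 2) := fun a b c => by
    have h : pk3 a b c = a + (b <<< 384 + c <<< 768) := rfl
    rw [h, Nat.shiftLeft_eq, Nat.shiftLeft_eq, ← pow_mul]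
  have h3' : ∀ a b c : ℕ, pk3' a b c = a + (b * (2 ^ 384) ^ 3 + c * (2 ^ 384) ^ 6) :=
    fun a b c => by
    have h : pk3' a b c = a + (b <<< 1152 + c <<< 2304) := rfl
    rw [h, Nat.shiftLeft_eq, Nat.shiftLeft_eq, ← pow_mul, ← pow_mul]
  have hl : ∀ a b c x y z : ℕ, l3 a b c x y z = a * x + (b * y + c * z) := fun _ _ _ _ _ _ => rfl
  have h : ∀ u0 u1 u2 w0 w1 w2 : ℕ, rp1 u0 u1 u2 w0 w1 w2 R =
      w0 * (R.a * u0 + (R.b * u1 + R.c * u2)) + (w1 * (R.d * u0 + (R.e * u1 + R.f * u2)) +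
        w2 * (R.g * u0 + (R.h * u1 + R.i * u2))) := fun _ _ _ _ _ _ => rfl
  unfold rP
  rw [h, Pool.Agent.Helper90.C9.pk_sum]
  simp only [h3, h3']
  generalize (2 ^ 384 : ℕ) = V
  simp only [Finset.sum_range_succ, Finset.sum_range_zero]
  show _ = 0 + (rW W (rU (toM R) U)).a * V ^ 0 + (rW W (rU (toM R) U)).b * V ^ 1
    + (rW W (rU (toM R) U)).c * V ^ 2 + (rW W (rU (toM R) U)).d * V ^ 3
    + (rW W (rU (toM R) U)).e * V ^ 4 + (rW W (rU (toM R) U)).f * V ^ 5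
    + (rW W (rU (toM R) U)).g * V ^ 6 + (rW W (rU (toM R) U)).h * V ^ 7
    + (rW W (rU (toM R) U)).i * V ^ 8
  simp only [rW, rU, toM, hl]
  ring

theorem l3_le {a b c x y z m : ℕ} (ha : a ≤ m) (hb : b ≤ m) (hc : c ≤ m) :
    l3 a b c x y z ≤ m * (x + y + z) := by
  have h : l3 a b c x y z = a * x + (b * y + c * z) := rfl
  have h1 := Nat.mul_le_mul_right x ha
  have h2 := Nat.mul_le_mul_right y hb
  have h3 := Nat.mul_le_mul_right z hc
  rw [h, Nat.mul_add, Nat.mul_add]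
  omega

theorem l3_le' {a b c x y z m : ℕ} (hx : x ≤ m) (hy : y ≤ m) (hz : z ≤ m) :
    l3 a b c x y z ≤ m * (a + b + c) := by
  have h : l3 a b c x y z = a * x + (b * y + c * z) := rfl
  have h1 := Nat.mul_le_mul_left a hx
  have h2 := Nat.mul_le_mul_left b hy
  have h3 := Nat.mul_le_mul_left c hz
  rw [h, Nat.mul_comm m, Nat.add_mul, Nat.add_mul]
  omega

theorem rW_le {W U : M9} {R : R9} (hW : ∀ K < 9, W.at K ≤ 2 ^ 21) (hU : ∀ K < 9, U.at K ≤ 2 ^ 21)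
    (o : okR9 R = true) (K : ℕ) : (rW W (rU (toM R) U)).at K ≤ 2 ^ 106 := by
  have w0 : W.a ≤ 2 ^ 21 := hW 0 (by norm_num)
  have w1 : W.b ≤ 2 ^ 21 := hW 1 (by norm_num)
  have w2 : W.c ≤ 2 ^ 21 := hW 2 (by norm_num)
  have w3 : W.d ≤ 2 ^ 21 := hW 3 (by norm_num)
  have w4 : W.e ≤ 2 ^ 21 := hW 4 (by norm_num)
  have w5 : W.f ≤ 2 ^ 21 := hW 5 (by norm_num)
  have w6 : W.g ≤ 2 ^ 21 := hW 6 (by norm_num)
  have w7 : W.h ≤ 2 ^ 21 := hW 7 (by norm_num)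
  have w8 : W.i ≤ 2 ^ 21 := hW 8 (by norm_num)
  have u0 : U.a ≤ 2 ^ 21 := hU 0 (by norm_num)
  have u1 : U.b ≤ 2 ^ 21 := hU 1 (by norm_num)
  have u2 : U.c ≤ 2 ^ 21 := hU 2 (by norm_num)
  have u3 : U.d ≤ 2 ^ 21 := hU 3 (by norm_num)
  have u4 : U.e ≤ 2 ^ 21 := hU 4 (by norm_num)
  have u5 : U.f ≤ 2 ^ 21 := hU 5 (by norm_num)
  have u6 : U.g ≤ 2 ^ 21 := hU 6 (by norm_num)
  have u7 : U.h ≤ 2 ^ 21 := hU 7 (by norm_num)
  have u8 : U.i ≤ 2 ^ 21 := hU 8 (by norm_num)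
  have hs : R.a + (R.b + (R.c + (R.d + (R.e + (R.f + (R.g + (R.h + R.i))))))) ≤
      18446744073709551616 := Nat.le_of_ble_eq_true o
  have key : ∀ {a b c x y z x' y' z' : ℕ}, a ≤ 2 ^ 21 → b ≤ 2 ^ 21 → c ≤ 2 ^ 21 → x ≤ 2 ^ 21 * x' →
      y ≤ 2 ^ 21 * y' → z ≤ 2 ^ 21 * z' → x' + y' + z' ≤ 18446744073709551616 →
      l3 a b c x y z ≤ 2 ^ 106 := fun {a b c x y z x' y' z'} ha hb hc hx hy hz h => by
    have h1 := l3_le (x := x) (y := y) (z := z) ha hb hc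
    have h2 : 2 ^ 21 * (x + y + z) ≤ 2 ^ 21 * (2 ^ 21 * (x' + y' + z')) :=
      Nat.mul_le_mul_left _ (by rw [Nat.mul_add, Nat.mul_add]; omega)
    have h3 : 2 ^ 21 * (2 ^ 21 * (x' + y' + z')) ≤ 2 ^ 21 * (2 ^ 21 * 18446744073709551616) :=
      Nat.mul_le_mul_left _ (Nat.mul_le_mul_left _ h)
    refine h1.trans (h2.trans (h3.trans ?_))
    norm_num
  have hs' : (R.a + R.b + R.c) + (R.d + R.e + R.f) + (R.g + R.h + R.i) ≤ 18446744073709551616 := by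
    omega
  have r1 : ∀ {a b c x y z : ℕ}, x ≤ 2 ^ 21 → y ≤ 2 ^ 21 → z ≤ 2 ^ 21 →
      l3 a b c x y z ≤ 2 ^ 21 * (a + b + c) := fun hx hy hz => l3_le' hx hy hz
  unfold M9.at
  split
  · exact key w0 w3 w6 (r1 u0 u3 u6) (r1 u0 u3 u6) (r1 u0 u3 u6) hs'
  · exact key w0 w3 w6 (r1 u1 u4 u7) (r1 u1 u4 u7) (r1 u1 u4 u7) hs'
  · exact key w0 w3 w6 (r1 u2 u5 u8) (r1 u2 u5 u8) (r1 u2 u5 u8) hs'
  · exact key w1 w4 w7 (r1 u0 u3 u6) (r1 u0 u3 u6) (r1 u0 u3 u6) hs'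
  · exact key w1 w4 w7 (r1 u1 u4 u7) (r1 u1 u4 u7) (r1 u1 u4 u7) hs'
  · exact key w1 w4 w7 (r1 u2 u5 u8) (r1 u2 u5 u8) (r1 u2 u5 u8) hs'
  · exact key w2 w5 w8 (r1 u0 u3 u6) (r1 u0 u3 u6) (r1 u0 u3 u6) hs'
  · exact key w2 w5 w8 (r1 u1 u4 u7) (r1 u1 u4 u7) (r1 u1 u4 u7) hs'
  · exact key w2 w5 w8 (r1 u2 u5 u8) (r1 u2 u5 u8) (r1 u2 u5 u8) hs'

/-! ### bounds -/

theorem sMl_le (K : ℕ) : ∀ l : List ℕ, sMl l K ≤ l.length * 2 ^ 129
  | [] => Nat.zero_le _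
  | x :: l => by
    have ih := sMl_le K l
    have h1 := fa_lt x K
    have h2 := fc_lt x K
    rw [sMl_cons, List.length_cons, Nat.add_mul, Nat.one_mul]
    omega

theorem sXl_le (K : ℕ) : ∀ l : List ℕ, sXl l K ≤ l.length * 2 ^ 129
  | [] => Nat.zero_le _
  | x :: l => by
    have ih := sXl_le K l
    have h1 := fb_lt x K
    have h2 := fd_lt x K
    rw [sXl_cons, List.length_cons, Nat.add_mul, Nat.one_mul]
    omega

theorem e1_le (x K : ℕ) : e1 x K ≤ 2 ^ 272 := by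
  have ha := s9_le fun i (_ : i < 9) => (fa_lt x i).le
  have hb := s9_le fun i (_ : i < 9) => (fb_lt x i).le
  have hc := s9_le fun i (_ : i < 9) => (fc_lt x i).le
  have hd := s9_le fun i (_ : i < 9) => (fd_lt x i).le
  have m1 := Nat.mul_le_mul (fa_lt x K).le hd
  have m2 := Nat.mul_le_mul (fc_lt x K).le hb
  have m3 := Nat.mul_le_mul (fb_lt x K).le hc
  have m4 := Nat.mul_le_mul (fd_lt x K).le ha
  have m5 := Nat.mul_le_mul (fc_lt x K).le hd
  have m6 := Nat.mul_le_mul (fd_lt x K).le hc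
  unfold e1
  generalize fa x K * s9 (fd x) = y1 at *
  generalize fc x K * s9 (fb x) = y2 at *
  generalize fb x K * s9 (fc x) = y3 at *
  generalize fd x K * s9 (fa x) = y4 at *
  generalize fc x K * s9 (fd x) = y5 at *
  generalize fd x K * s9 (fc x) = y6 at *
  omega

theorem eE_le (K : ℕ) : ∀ (l : List ℕ) (w : ℕ), w * 5 ^ l.length ≤ 40000 →
    eE w l K ≤ l.length * (40000 * 2 ^ 272)
  | [], _, _ => Nat.zero_le _
  | x :: l, w, h => by
    have ih := eE_le K l (w * 5 / 4) (by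
      rw [List.length_cons, pow_succ, Nat.mul_comm (5 ^ l.length), ← Nat.mul_assoc] at h
      exact (Nat.mul_le_mul_right _ (Nat.div_le_self _ _)).trans h)
    have h1 := e1_le x K
    have hw : w ≤ 40000 := le_trans (Nat.le_mul_of_pos_right _ (by positivity)) h
    have h2 := Nat.mul_le_mul hw h1
    have h3 : eE w (x :: l) K = w * e1 x K + eE (w * 5 / 4) l K := rfl
    rw [h3, List.length_cons, Nat.add_mul, Nat.one_mul]
    omega

/-! ### masks -/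

/-- full masks -/
theorem shl_mask {e k a n : ℕ} (hk : k + a ≤ e) {f : ℕ → ℕ} (hf : ∀ i < n, f i < 2 ^ e) :
    (pk (2 ^ e) n f >>> k) &&& pk (2 ^ e) n (fun _ => 2 ^ a - 1) =
      pk (2 ^ e) n (fun i => f i / 2 ^ k % 2 ^ a) := by
  have ha : 2 ^ a - 1 < 2 ^ (e - k) := lt_of_lt_of_le (Nat.sub_lt (Nat.two_pow_pos a) one_pos)
    (Nat.pow_le_pow_right (by norm_num) (by omega))
  have h := shl_pk (e := e) (k := k) (by omega) n f (fun _ => 2 ^ a - 1) 0 hf (fun _ _ => ha)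
  rw [Nat.mul_zero, Nat.add_zero] at h
  rw [h]
  refine pk_congr _ _ _ _ fun i _ => ?_
  rw [Nat.and_two_pow_sub_one_eq_mod, Nat.shiftRight_eq_div_pow]

theorem shr_F284 {k : ℕ} (hk : k ≤ 100) {f : ℕ → ℕ} (hf : ∀ i < 9, f i < 2 ^ 384)
    (h2 : ∀ i < 9, f i / 2 ^ k < 2 ^ 284) :
    Nat.land (Nat.shiftRight (pk (2 ^ 384) 9 f) k) F284 = pk (2 ^ 384) 9 (fun K => f K / 2 ^ k) := by
  have h : ∀ x y z : ℕ, Nat.land (Nat.shiftRight x y) z = (x >>> y) &&& z := fun _ _ _ => rfl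
  rw [h, F284_eq, shl_mask (by omega) hf]
  exact pk_congr _ _ _ _ fun K hK => Nat.mod_eq_of_lt (h2 K hK)

theorem pk_eq_zero {b : ℕ} (hb : 0 < b) {n : ℕ} {f : ℕ → ℕ} (h : pk b n f = 0) :
    ∀ i < n, f i = 0 := by
  rw [Pool.Agent.Helper90.C9.pk_sum, Finset.sum_eq_zero_iff] at h
  intro i hi
  have := h i (Finset.mem_range.2 hi)
  rcases Nat.mul_eq_zero.1 this with h1 | h1
  · exact h1
  · exact absurd h1 (pow_ne_zero _ hb.ne')

theorem shr_FB9 {k : ℕ} (hk : k ≤ 60) {f : ℕ → ℕ} (hf : ∀ i < 9, f i < 2 ^ 300)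
    (h : (pk (2 ^ 384) 9 f >>> k) &&& FB9 = 0) : ∀ i < 9, f i < 2 ^ k := by
  have lt : (2 : ℕ) ^ 300 < 2 ^ 384 := Nat.pow_lt_pow_right (by norm_num) (by norm_num)
  rw [FB9_eq, shl_mask (by omega) (fun i hi => (hf i hi).trans lt)] at h
  intro i hi
  have h1 : f i / 2 ^ k % 2 ^ 300 = 0 := pk_eq_zero (Nat.two_pow_pos 384) h i hi
  rw [Nat.mod_eq_of_lt (lt_of_le_of_lt (Nat.div_le_self _ _) (hf i hi))] at h1
  have := Nat.lt_mul_div_succ (f i) (Nat.two_pow_pos k)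
  rw [h1] at this
  omega

theorem land_H36 {f : ℕ → ℕ} (hf : ∀ i < 9, f i < 2 ^ 284)
    (h : pk (2 ^ 384) 9 f &&& H36 = 0) : ∀ i < 9, f i < 2 ^ 36 := by
  rw [H36_eq, land0 9 f _ (fun i hi => lt_of_lt_of_le (hf i hi)
    (Nat.pow_le_pow_right (by norm_num) (by norm_num))) (fun i _ => by norm_num)] at h
  intro i hi
  have h1 := pk_eq_zero (by positivity) h i hi
  have h2 := hf i hi
  have e : f i = f i % 2 ^ 36 + 2 ^ 36 * (f i / 2 ^ 36) := (Nat.mod_add_div _ _).symm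
  have h3 : f i &&& (0 + 2 ^ 36 * (2 ^ 248 - 1)) = 0 := h1
  rw [e, land_split 36 _ _ 0 _ (Nat.mod_lt _ (by positivity)) (by positivity), Nat.and_zero,
    Nat.zero_add, Nat.and_two_pow_sub_one_eq_mod] at h3
  have h4 : f i / 2 ^ 36 < 2 ^ 248 := by
    rw [Nat.div_lt_iff_lt_mul (by positivity), ← pow_add]
    exact h2
  rw [Nat.mod_eq_of_lt h4] at h3
  omega

/-- the radii at the digits `33 K` -/
theorem spR_eq {f : ℕ → ℕ} (hf : ∀ i < 9, f i < 2 ^ 64) : spR (pk (2 ^ 384) 9 f) = RdC f := by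
  have h : spR (pk (2 ^ 384) 9 f) = (pk (2 ^ 384) 9 f * CMR) &&& MR33 := rfl
  have h1 : pk (2 ^ 384) 9 f = pk (2 ^ 384) 10 (fun K => if K < 9 then f K else 0) := by
    rw [pk_extend (2 ^ 384) 9 1 _ (fun k h1 _ => if_neg (by omega))]
    exact pk_congr _ _ _ _ fun K hK => (if_pos hK).symm
  set f' : ℕ → ℕ := fun K => if K < 9 then f K else 0 with hf'
  have hb : ∀ k, f' k < 2 ^ 64 := fun k => by
    rw [hf']
    show (if k < 9 then f k else 0) < 2 ^ 64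
    split_ifs with h
    · exact hf k h
    · positivity
  have h2 : pk (2 ^ 384) 9 f * CMR =
      pk (2 ^ 384) 99 (fun k => if k < 90 then f' (k % 10) else 0) := by
    rw [h1, CMR_eq, mul_rep, pk_extend (2 ^ 384) 90 9 _ (fun k h1 _ => if_neg (by omega))]
    exact pk_congr _ _ _ _ fun K hK => (if_pos hK).symm
  have lt : (2 : ℕ) ^ 64 < 2 ^ 384 := Nat.pow_lt_pow_right (by norm_num) (by norm_num)
  rw [h, h2, MR33_eq, land0 99 _ _ (fun i _ => by
    show (if i < 90 then f' (i % 10) else 0) < 2 ^ 384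
    split_ifs
    · exact (hb _).trans lt
    · positivity) (fun i _ => by
    show (if i % 11 = 0 then 2 ^ 64 - 1 else 0) < 2 ^ 384
    split_ifs
    · exact (Nat.sub_lt (by positivity) one_pos).trans lt
    · positivity)]
  have h3 : (99 : ℕ) = 11 * 9 := rfl
  rw [h3, pk_nest]
  have h4 : ∀ i < 9, pk (2 ^ 384) 11 (fun j => (if 11 * i + j < 90 then f' ((11 * i + j) % 10)
      else 0) &&& (if (11 * i + j) % 11 = 0 then 2 ^ 64 - 1 else 0)) = f i := fun i hi => by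
    rw [pk_succ]
    have e1 : pk (2 ^ 384) 10 (fun k => (if 11 * i + (k + 1) < 90 then
        f' ((11 * i + (k + 1)) % 10) else 0) &&&
        (if (11 * i + (k + 1)) % 11 = 0 then 2 ^ 64 - 1 else 0)) = 0 :=
      Pool.Agent.Helper90.DG.pk_zeros' _ _ _ fun k hk => by
        rw [if_neg (by omega : ¬ (11 * i + (k + 1)) % 11 = 0), Nat.and_zero]
    rw [e1, Nat.mul_zero, Nat.add_zero, if_pos (by omega), if_pos (by omega),
      Nat.and_two_pow_sub_one_eq_mod, Nat.mod_eq_of_lt (hb _)]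
    have e2 : (11 * i + 0) % 10 = i := by omega
    rw [e2]
    exact if_pos hi
  rw [pk_congr _ _ _ f h4, Pool.Agent.Helper90.C9.pk_sum]
  unfold RdC
  refine Finset.sum_congr rfl fun K _ => ?_
  have e : 384 * (11 * K) = 128 * (33 * K) := by ring
  rw [← pow_mul, ← pow_mul, ← pow_mul, e]

/-! ### interpolation errors -/

def mM (l : List ℕ) (K : ℕ) : List (ℝ × ℝ) := rlD (mdL (384 * K) (384 * K + 6912) l)
def mX (l : List ℕ) (K : ℕ) : List (ℝ × ℝ) := rlD (mdL (384 * (K + 9)) (384 * (K + 9) + 6912) l)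
/-- the sum of the errors of a row -/
def ER (l : List ℕ) (K : ℕ) : ℝ :=
  ∑ L ∈ range 9, (ern (mM l K) (mX l L) + ern (mX l K) (mM l L))

theorem mM_cons (x : ℕ) (l : List ℕ) (K : ℕ) :
    mM (x :: l) K = ((fa x K : ℝ), (fc x K : ℝ) / 2) :: mM l K := rfl
theorem mX_cons (x : ℕ) (l : List ℕ) (K : ℕ) :
    mX (x :: l) K = ((fb x K : ℝ), (fd x K : ℝ) / 2) :: mX l K := rfl

theorem ER_nil (K : ℕ) : ER [] K = 0 := by
  unfold ER
  refine Finset.sum_eq_zero fun L _ => ?_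
  have h1 : ern (mM [] K) (mX [] L) = 0 := RowR.ern_nil _
  have h2 : ern (mX [] K) (mM [] L) = 0 := RowR.ern_nil _
  rw [h1, h2, add_zero]

theorem ER_cons (x : ℕ) (l : List ℕ) (K : ℕ) : ER (x :: l) K =
    3 / 62 * ((fa x K * s9 (fd x) + fc x K * s9 (fb x)) +
      (fb x K * s9 (fc x) + fd x K * s9 (fa x))) +
    1 / 64 * (fc x K * s9 (fd x) + fd x K * s9 (fc x)) + 5 / 4 * ER l K := by
  unfold ER s9
  simp only [mM_cons, mX_cons, RowR.ern_cons]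
  push_cast
  simp only [Finset.sum_range_succ, Finset.sum_range_zero]
  ring

theorem eE_ge (K : ℕ) : ∀ (l : List ℕ) (w : ℕ), 4 ^ l.length ∣ 4 * w →
    (w : ℝ) * 2 ^ 14 * ER l K ≤ (eE w l K : ℝ)
  | [], w, _ => by
    rw [ER_nil, mul_zero]
    exact Nat.cast_nonneg _
  | x :: l, w, h => by
    have h3 : eE w (x :: l) K = w * e1 x K + eE (w * 5 / 4) l K := rfl
    have h4 : (w : ℝ) * 2 ^ 14 * (5 / 4 * ER l K) ≤ (eE (w * 5 / 4) l K : ℝ) := by
      cases l with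
      | nil =>
        rw [ER_nil, mul_zero, mul_zero]
        exact Nat.cast_nonneg _
      | cons y l =>
        obtain ⟨m, hm⟩ : 4 ^ (y :: l).length ∣ w := by
          rw [List.length_cons, pow_succ, Nat.mul_comm] at h
          exact Nat.dvd_of_mul_dvd_mul_left (by norm_num) h
        have h5 : w * 5 / 4 = 4 ^ l.length * m * 5 := by
          rw [hm, List.length_cons, pow_succ]
          have : 4 ^ l.length * 4 * m * 5 = 4 * (4 ^ l.length * m * 5) := by ring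
          rw [this, Nat.mul_div_cancel_left _ (by norm_num)]
        have h6 : 4 * (w * 5 / 4) = 5 * w := by
          rw [h5, hm, List.length_cons, pow_succ]
          ring
        have ih := eE_ge K (y :: l) (w * 5 / 4) (by
          rw [h6, hm]
          exact Dvd.intro (5 * m) (by ring))
        have h7 : (4 : ℝ) * ((w * 5 / 4 : ℕ) : ℝ) = 5 * (w : ℝ) := by exact_mod_cast h6
        refine le_trans (le_of_eq ?_) ih
        have h8 : ((w * 5 / 4 : ℕ) : ℝ) = 5 / 4 * w := by linarith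
        rw [h8]
        ring
    have hw : (0 : ℝ) ≤ w := Nat.cast_nonneg _
    have p1 : (0 : ℝ) ≤ (fa x K * s9 (fd x) + fc x K * s9 (fb x)) +
      (fb x K * s9 (fc x) + fd x K * s9 (fa x)) := by positivity
    rw [ER_cons, h3]
    unfold e1
    push_cast
    generalize ((fa x K : ℝ) * s9 (fd x) + fc x K * s9 (fb x)) +
      (fb x K * s9 (fc x) + fd x K * s9 (fa x)) = P at *
    generalize ((fc x K : ℝ) * s9 (fd x) + fd x K * s9 (fc x)) = Q at *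
    have h9 : (w : ℝ) * 2 ^ 14 * (3 / 62 * P) ≤ w * (793 * P) := by
      have := mul_nonneg hw p1
      nlinarith
    nlinarith

/-! ### the radii -/

/-- the number of a row before the shift -/
def tK (e b c r q : ℕ → ℕ) (K : ℕ) : ℕ :=
  e K + (r K * (s9 c + s9 q) + s9 q * b K + (q K * (s9 b + s9 r) + s9 r * c K)) * 2 ^ 20

theorem tK_lt {e b c r q : ℕ → ℕ} (he : ∀ i < 9, e i ≤ 160000 * 2 ^ 272)
    (hb : ∀ i < 9, b i ≤ 2 ^ 132) (hc : ∀ i < 9, c i ≤ 2 ^ 132) (hr : ∀ i < 9, r i ≤ 2 ^ 110)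
    (hq : ∀ i < 9, q i ≤ 2 ^ 110) {K : ℕ} (hK : K < 9) : tK e b c r q K < 2 ^ 300 := by
  have sb := s9_le hb
  have sc := s9_le hc
  have sr := s9_le hr
  have sq := s9_le hq
  have m1 := Nat.mul_le_mul (hr K hK) (Nat.add_le_add sc sq)
  have m2 := Nat.mul_le_mul sq (hb K hK)
  have m3 := Nat.mul_le_mul (hq K hK) (Nat.add_le_add sb sr)
  have m4 := Nat.mul_le_mul sr (hc K hK)
  have m5 := he K hK
  unfold tK
  generalize r K * (s9 c + s9 q) = y1 at *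
  generalize s9 q * b K = y2 at *
  generalize q K * (s9 b + s9 r) = y3 at *
  generalize s9 r * c K = y4 at *
  omega

theorem rho_eq {s : ℕ} (hs : s ≤ 80) (hs' : 40 ≤ s) {e b c r q : ℕ → ℕ}
    (he : ∀ i < 9, e i ≤ 160000 * 2 ^ 272)
    (hb : ∀ i < 9, b i ≤ 2 ^ 132) (hc : ∀ i < 9, c i ≤ 2 ^ 132) (hr : ∀ i < 9, r i ≤ 2 ^ 110)
    (hq : ∀ i < 9, q i ≤ 2 ^ 110) :
    rho s (pk (2 ^ 384) 9 b) (pk (2 ^ 384) 9 c) (pk (2 ^ 384) 9 e) (pk (2 ^ 384) 9 r)
      (pk (2 ^ 384) 9 q) = pk (2 ^ 384) 9 (fun K => tK e b c r q K / 2 ^ (s + 20) + 1243) := by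
  have le1 : (2 : ℕ) ^ 132 ≤ 2 ^ 380 := Nat.pow_le_pow_right (by norm_num) (by norm_num)
  have le2 : (2 : ℕ) ^ 110 ≤ 2 ^ 380 := Nat.pow_le_pow_right (by norm_num) (by norm_num)
  have h : ∀ s B C E R Q : ℕ, rho s B C E R Q =
      Nat.land (Nat.shiftRight (E + ((R * (S9 C + S9 Q) + S9 Q * B) +
        (Q * (S9 B + S9 R) + S9 R * C)) <<< 20) (s + 20)) F284 + O9 * 1243 :=
    fun _ _ _ _ _ _ => rfl
  have lt : ∀ i < 9, tK e b c r q i < 2 ^ 300 := fun i hi => tK_lt he hb hc hr hq hi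
  have hm : ∀ (f : ℕ → ℕ) (k : ℕ), pk (2 ^ 384) 9 f * k = pk (2 ^ 384) 9 (fun K => f K * k) :=
    fun f k => by
      rw [Nat.mul_comm, pk_smul]
      exact pk_congr _ _ _ _ fun K _ => Nat.mul_comm _ _
  rw [h, S9_pk' b (fun i hi => (hb i hi).trans le1), S9_pk' c (fun i hi => (hc i hi).trans le1),
    S9_pk' r (fun i hi => (hr i hi).trans le2), S9_pk' q (fun i hi => (hq i hi).trans le2),
    Nat.shiftLeft_eq, hm r, hm q, pk_smul, pk_smul, pk_add, pk_add, pk_add, hm, pk_add, O9_eq, hm]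
  have e1' : pk (2 ^ 384) 9 (fun K => e K + (r K * (∑ i ∈ range 9, c i + ∑ i ∈ range 9, q i) +
      (∑ i ∈ range 9, q i) * b K + (q K * (∑ i ∈ range 9, b i + ∑ i ∈ range 9, r i) +
      (∑ i ∈ range 9, r i) * c K)) * 2 ^ 20) = pk (2 ^ 384) 9 (tK e b c r q) := rfl
  rw [e1', shr_F284 (by omega) (fun i hi => (lt i hi).trans
    (Nat.pow_lt_pow_right (by norm_num) (by norm_num))) (fun i hi => by
      rw [Nat.div_lt_iff_lt_mul (by positivity), ← pow_add]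
      exact lt_of_lt_of_le (lt i hi) (Nat.pow_le_pow_right (by norm_num) (by omega))), pk_add]

/-- the conditions -/
theorem okS_ok {D : ℕ} (hD : D ≤ 4) {b c R : ℕ → ℕ} (hb : ∀ i < 9, b i ≤ 2 ^ 132)
    (hc : ∀ i < 9, c i ≤ 2 ^ 132) (hR : ∀ i < 9, R i < 2 ^ 284)
    (h : okS D (pk (2 ^ 384) 9 b) (pk (2 ^ 384) 9 c) (pk (2 ^ 384) 9 R) = true) :
    (∀ i < 9, b i ≤ 2 ^ 54 * 2 ^ D) ∧ (∀ i < 9, c i ≤ 2 ^ 54 * 2 ^ D) ∧ ∀ i < 9, R i < 2 ^ 36 := by
  obtain ⟨h1, h2⟩ := RowR.andBt h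
  have h3 : ((pk (2 ^ 384) 9 b ||| pk (2 ^ 384) 9 c) >>> (54 + D)) &&& FB9 = 0 :=
    Nat.eq_of_beq_eq_true h1
  have h4 : pk (2 ^ 384) 9 R &&& H36 = 0 := Nat.eq_of_beq_eq_true h2
  rw [Nat.shiftRight_or_distrib, Nat.and_or_distrib_right] at h3
  have lt : (2 : ℕ) ^ 132 < 2 ^ 300 := Nat.pow_lt_pow_right (by norm_num) (by norm_num)
  have z : ∀ x y : ℕ, x ||| y = 0 → x = 0 ∧ y = 0 := fun x y h => by
    constructor
    · exact Nat.eq_zero_of_le_zero (h ▸ Nat.left_le_or)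
    · exact Nat.eq_zero_of_le_zero (h ▸ Nat.right_le_or)
  obtain ⟨h5, h6⟩ := z _ _ h3
  have h7 := shr_FB9 (by omega) (fun i hi => lt_of_le_of_lt (hb i hi) lt) h5
  have h8 := shr_FB9 (by omega) (fun i hi => lt_of_le_of_lt (hc i hi) lt) h6
  rw [pow_add] at h7 h8
  exact ⟨fun i hi => (h7 i hi).le, fun i hi => (h8 i hi).le, land_H36 hR h4⟩

/-- the sum of a row -/
theorem sum_rr {e b c r q : ℕ → ℕ} {l : List ℕ} (he : ∀ K, e K = eE 64 l K)
    (hl : l.length ≤ 4) {M X : ℕ → Rw} {K : ℕ} (hK : K < 9) (hMb : ∀ K < 9, (M K).B = b K)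
    (hMr : ∀ K < 9, (M K).r = r K) (hMl : ∀ K < 9, rlD (M K).l = mM l K)
    (hXb : ∀ K < 9, (X K).B = c K) (hXr : ∀ K < 9, (X K).r = q K)
    (hXl : ∀ K < 9, rlD (X K).l = mX l K) :
    2 ^ 20 * ∑ L ∈ range 9, (rrR (M K) (X L) + rrR (X K) (M L)) ≤ (tK e b c r q K : ℝ) := by
  have h1 : ∑ L ∈ range 9, (rrR (M K) (X L) + rrR (X K) (M L)) =
      ∑ L ∈ range 9, (((r K : ℝ) * c L + (q L : ℝ) * b K + (r K : ℝ) * q L +
        ((q K : ℝ) * b L + (r L : ℝ) * c K + (q K : ℝ) * r L)) +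
        (ern (mM l K) (mX l L) + ern (mX l K) (mM l L))) := by
    refine Finset.sum_congr rfl fun L hL => ?_
    have hL' := Finset.mem_range.1 hL
    unfold rrR
    rw [hMb K hK, hMr K hK, hMl K hK, hXb K hK, hXr K hK, hXl K hK, hMb L hL', hMr L hL',
      hMl L hL', hXb L hL', hXr L hL', hXl L hL']
    ring
  have h2 := eE_ge K l 64 (by
    have : (4 : ℕ) * 64 = 4 ^ 4 := by norm_num
    rw [this]
    exact pow_dvd_pow 4 hl)
  rw [h1, Finset.sum_add_distrib]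
  change 2 ^ 20 * (_ + ER l K) ≤ _
  unfold tK s9
  rw [he K]
  push_cast at h2 ⊢
  simp only [Finset.sum_range_succ, Finset.sum_range_zero]
  nlinarith

theorem fin_le {Y S T R : ℝ} (p : 0 < Y) (s1 : 2 ^ 20 * S ≤ T)
    (s5 : T + 1242 * (Y * 2 ^ 20) ≤ Y * 2 ^ 20 * R) : S ≤ Y * (R - 1241) := by
  have h : 2 ^ 20 * S ≤ 2 ^ 20 * (Y * (R - 1242)) := by
    have e : 2 ^ 20 * (Y * (R - 1242)) = Y * 2 ^ 20 * R - 1242 * (Y * 2 ^ 20) := by ring
    rw [e]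
    linarith
  have h2 := le_of_mul_le_mul_left h (by positivity)
  have e : Y * (R - 1241) = Y * (R - 1242) + Y := by ring
  rw [e]
  linarith

end RR
open RR

/-- THE ROWS; `p0`, `l`: any numbers -/
theorem rows_ok {D : ℕ} (hD : D ≤ 4) {p0 : ℕ} {l : List ℕ} (hl : l.length = D) {mW mU : M9}
    {RM RX : R9} (hW : ∀ K < 9, mW.at K ≤ 2 ^ 21) (hU : ∀ K < 9, mU.at K ≤ 2 ^ 21)
    (oM : okR9 RM = true) (oX : okR9 RX = true) {P : RA} (hP : P = rSa p0 l) {Rp : ℕ}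
    (hR : Rp = rho (72 + 2 * D) P.B P.C P.E (Nat.shiftLeft (rP mW mU RM) D)
      (Nat.shiftLeft (rP mW mU RX) D)) (h : okS D P.B P.C Rp = true) :
    ∃ R : ℕ → ℕ, spR Rp = RdC R ∧ (∀ K < 9, R K ≤ 2 ^ 36) ∧
      (∀ K < 9, ((mkWM D p0 l (rW mW (rU (toM RM) mU))).at K).B ≤ 2 ^ 54 * 2 ^ D) ∧
      (∀ K < 9, ((mkWX D p0 l (rW mW (rU (toM RX) mU))).at K).B ≤ 2 ^ 54 * 2 ^ D) ∧
      ∀ K < 9, ∑ L ∈ range 9, (rrR ((mkWM D p0 l (rW mW (rU (toM RM) mU))).at K)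
          ((mkWX D p0 l (rW mW (rU (toM RX) mU))).at L) +
        rrR ((mkWX D p0 l (rW mW (rU (toM RX) mU))).at K)
          ((mkWM D p0 l (rW mW (rU (toM RM) mU))).at L)) ≤
        2 ^ (72 + 2 * D) * ((R K : ℝ) - 1241) := by
  set xM : M9 := rW mW (rU (toM RM) mU) with hxM
  set xX : M9 := rW mW (rU (toM RX) mU) with hxX
  set b : ℕ → ℕ := fun K => fa p0 K + sMl l K with hb
  set c : ℕ → ℕ := fun K => fb p0 K + sXl l K with hc
  set e : ℕ → ℕ := fun K => eE 64 l K with he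
  set r : ℕ → ℕ := fun K => xM.at K * 2 ^ D with hr
  set q : ℕ → ℕ := fun K => xX.at K * 2 ^ D with hq
  have hl4 : l.length ≤ 4 := by omega
  -- bounds
  have b1 : ∀ i < 9, b i ≤ 2 ^ 132 := fun i _ => by
    have h1 := fa_lt p0 i
    have h2 := sMl_le i l
    have h3 : b i = fa p0 i + sMl l i := rfl
    rw [h3]
    omega
  have b2 : ∀ i < 9, c i ≤ 2 ^ 132 := fun i _ => by
    have h1 := fb_lt p0 i
    have h2 := sXl_le i l
    have h3 : c i = fb p0 i + sXl l i := rfl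
    rw [h3]
    omega
  have b3 : ∀ i < 9, e i ≤ 160000 * 2 ^ 272 := fun i _ => by
    have h1 := eE_le i l 64 (by
      have : 5 ^ l.length ≤ 5 ^ 4 := Nat.pow_le_pow_right (by norm_num) hl4
      omega)
    refine h1.trans ?_
    have := Nat.mul_le_mul_right (40000 * 2 ^ 272) hl4
    refine this.trans (le_of_eq ?_)
    rw [← Nat.mul_assoc]
  have hD16 : (2 : ℕ) ^ D ≤ 2 ^ 4 := Nat.pow_le_pow_right (by norm_num) hD
  have b4 : ∀ i < 9, r i ≤ 2 ^ 110 := fun i _ => by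
    have := Nat.mul_le_mul (rW_le hW hU oM i) hD16
    rw [← pow_add] at this
    exact this
  have b5 : ∀ i < 9, q i ≤ 2 ^ 110 := fun i _ => by
    have := Nat.mul_le_mul (rW_le hW hU oX i) hD16
    rw [← pow_add] at this
    exact this
  -- the packed numbers
  have sh : ∀ x : M9, Nat.shiftLeft (pk (2 ^ 384) 9 x.at) D =
      pk (2 ^ 384) 9 (fun K => x.at K * 2 ^ D) := fun x => by
    have h1 : Nat.shiftLeft (pk (2 ^ 384) 9 x.at) D = (pk (2 ^ 384) 9 x.at) <<< D := rfl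
    rw [h1, Nat.shiftLeft_eq, Nat.mul_comm, Pool.Agent.Helper90.K9.pk_smul]
    exact Pool.Agent.Helper90.K9.pk_congr _ _ _ _ fun K _ => Nat.mul_comm _ _
  have hP1 : P = ⟨pk (2 ^ 384) 9 b, pk (2 ^ 384) 9 c, pk (2 ^ 384) 9 e⟩ := hP.trans (rSa_eq p0 l)
  have hR1 : Rp = pk (2 ^ 384) 9 (fun K => tK e b c r q K / 2 ^ (72 + 2 * D + 20) + 1243) := by
    rw [hR, hP1, rP_eq, rP_eq, sh, sh]
    exact rho_eq (by omega) (by omega) b3 b1 b2 b4 b5
  set R : ℕ → ℕ := fun K => tK e b c r q K / 2 ^ (72 + 2 * D + 20) + 1243 with hRd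
  have b6 : ∀ i < 9, R i < 2 ^ 284 := fun i hi => by
    have h1 := tK_lt b3 b1 b2 b4 b5 hi
    have h2 : tK e b c r q i / 2 ^ (72 + 2 * D + 20) < 2 ^ 208 := by
      rw [Nat.div_lt_iff_lt_mul (by positivity), ← pow_add]
      exact lt_of_lt_of_le h1 (Nat.pow_le_pow_right (by norm_num) (by omega))
    have h3 : R i = tK e b c r q i / 2 ^ (72 + 2 * D + 20) + 1243 := rfl
    rw [h3]
    generalize tK e b c r q i / 2 ^ (72 + 2 * D + 20) = z at *
    omega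
  rw [hR1, hP1] at h
  obtain ⟨k1, k2, k3⟩ := okS_ok hD b1 b2 b6 h
  have mMB : ∀ K < 9, ((mkWM D p0 l xM).at K).B = b K := fun K hK => by
    rw [mkWM_at _ _ _ _ _ hK]
    rfl
  have mXB : ∀ K < 9, ((mkWX D p0 l xX).at K).B = c K := fun K hK => by
    rw [mkWX_at _ _ _ _ _ hK]
    rfl
  refine ⟨R, ?_, fun K hK => (k3 K hK).le, fun K hK => ?_, fun K hK => ?_, fun K hK => ?_⟩
  · rw [hR1]
    exact spR_eq fun i hi => (k3 i hi).trans (Nat.pow_lt_pow_right (by norm_num) (by norm_num))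
  · rw [mMB K hK]
    exact k1 K hK
  · rw [mXB K hK]
    exact k2 K hK
  · have s1 := sum_rr (e := e) (b := b) (c := c) (r := r) (q := q) (l := l) (fun _ => rfl) hl4
      (M := fun K => (mkWM D p0 l xM).at K) (X := fun K => (mkWX D p0 l xX).at K) hK mMB
      (fun K hK => by
        show ((mkWM D p0 l xM).at K).r = _
        rw [mkWM_at _ _ _ _ _ hK]
        rfl)
      (fun K hK => by
        show rlD ((mkWM D p0 l xM).at K).l = _
        rw [mkWM_at _ _ _ _ _ hK]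
        rfl) mXB
      (fun K hK => by
        show ((mkWX D p0 l xX).at K).r = _
        rw [mkWX_at _ _ _ _ _ hK]
        rfl)
      (fun K hK => by
        show rlD ((mkWX D p0 l xX).at K).l = _
        rw [mkWX_at _ _ _ _ _ hK]
        rfl)
    have s2 := Nat.lt_mul_div_succ (tK e b c r q K) (Nat.two_pow_pos (72 + 2 * D + 20))
    have s3 : R K = tK e b c r q K / 2 ^ (72 + 2 * D + 20) + 1243 := rfl
    have s4 : tK e b c r q K + 1242 * 2 ^ (72 + 2 * D + 20) ≤ 2 ^ (72 + 2 * D + 20) * R K := by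
      rw [s3]
      generalize tK e b c r q K / 2 ^ (72 + 2 * D + 20) = z at *
      have : 2 ^ (72 + 2 * D + 20) * (z + 1243) =
        2 ^ (72 + 2 * D + 20) * (z + 1) + 1242 * 2 ^ (72 + 2 * D + 20) := by ring
      omega
    have s5 : (tK e b c r q K : ℝ) + 1242 * 2 ^ (72 + 2 * D + 20) ≤
        2 ^ (72 + 2 * D + 20) * (R K : ℝ) := by exact_mod_cast s4
    rw [pow_add (2 : ℝ) (72 + 2 * D) 20] at s5
    exact fin_le (by positivity) s1 s5

end Pool.Agent.Helper45.N9S
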