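import Pool.Agent.Helper45.N9S.SD
import Pool.Agent.Helper17.N9.N9Q

/-!
Row K9 of MP_c75db0 (plan W), kernel S, row W: blocks with nine nodes per number.
-/

set_option autoImplicit false
set_option exponentiation.threshold 60000
noncomputable section
namespace Pool.Agent.Helper45.N9S

open Pool.Agent.Helper90.C75 (Vt)
open Pool.Agent.Helper90.K9 (pk pz pk_congr pk_nest pk_add pk_smul pk_split pk_lt pk_succ pk_cast
  pz_congr)
open Pool.Agent.Helper90.DG (land0 mask_full mul_rep pk_zeros' pk_extend)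
open Pool.Agent.Helper17.N9
open Pool.Agent.Helper91.FU (E9 trE)
open Finset

namespace WR

/-! ### selected digits of any number -/

/-- selecting digits of any number by full masks -/
theorem land_any {e : ℕ} (n u : ℕ) (p : ℕ → Bool) :
    u &&& pk (2 ^ e) n (fun k => if p k = true then 2 ^ e - 1 else 0) =
      pk (2 ^ e) n (fun k => if p k = true then u / (2 ^ e) ^ k % 2 ^ e else 0) := by
  have hb : 0 < 2 ^ e := by positivity
  conv_lhs => rw [Pool.Agent.Helper90.DG.pk_digits (2 ^ e) n u]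
  rw [Pool.Agent.Helper90.K9.land_pk n _ _ _ (fun i _ => Nat.mod_lt _ hb) (fun i _ => by
    split_ifs
    · omega
    · exact hb)]
  refine pk_congr _ _ _ _ fun k _ => ?_
  by_cases h : p k = true
  · rw [if_pos h, if_pos h, mask_full (Nat.mod_lt _ hb)]
  · rw [if_neg h, if_neg h, Nat.and_zero]

theorem land_sel' {e : ℕ} (n : ℕ) (f : ℕ → ℕ) (p : ℕ → Bool) (hf : ∀ i < n, f i < 2 ^ e) :
    pk (2 ^ e) n f &&& pk (2 ^ e) n (fun k => if p k = true then 2 ^ e - 1 else 0) =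
      pk (2 ^ e) n (fun k => if p k = true then f k else 0) := by
  have hb : 0 < 2 ^ e := by positivity
  rw [land0 n f _ hf (fun i _ => by
    split_ifs
    · omega
    · exact hb)]
  refine pk_congr _ _ _ _ fun k hk => ?_
  by_cases h : p k = true
  · rw [if_pos h, if_pos h, mask_full (hf k hk)]
  · rw [if_neg h, if_neg h, Nat.and_zero]

/-- the digits of an entry -/
def q4 (k : ℕ) : Bool := k == 0 || k == 1 || k == 4 || k == 5
def mN (k : ℕ) : Bool := decide (k < 105) && (decide (k % 35 < 30) && q4 (k % 35 % 10))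
def mA (k : ℕ) : Bool := decide (k % 324 < 30) && q4 (k % 324 % 10)
def mB (k : ℕ) : Bool := q4 (k % 108)

theorem MRN_eq : MRN = pk (2 ^ 32) 289 (fun k => if mN k = true then 2 ^ 32 - 1 else 0) := by
  decide +kernel
theorem MRA_eq : MRA = pk (2 ^ 32) 867 (fun k => if mA k = true then 2 ^ 32 - 1 else 0) := by
  decide +kernel
theorem MRB_eq : MRB = pk (2 ^ 32) 972 (fun k => if mB k = true then 2 ^ 32 - 1 else 0) := by
  decide +kernel
theorem MR2_eq : Pool.Agent.Helper17.N9.MR2 =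
    pk (2 ^ 32) 108 (fun k => if q4 k = true then 2 ^ 32 - 1 else 0) := by
  decide +kernel
theorem CB2_eq : CB2 = pk ((2 ^ 32) ^ 289) 3 (fun _ => 1) := by decide +kernel
theorem CB1_eq : CB1 = pk ((2 ^ 32) ^ 98) 3 (fun _ => 1) := by decide +kernel

/-- digit -/
def dg2 (u k : ℕ) : ℕ := u / (2 ^ 32) ^ k % 2 ^ 32

theorem dg2_lt (u k : ℕ) : dg2 u k < 2 ^ 32 := Nat.mod_lt _ (by positivity)

theorem dg2_shr (u s k : ℕ) : dg2 (u >>> (32 * s)) k = dg2 u (s + k) := by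
  unfold dg2
  rw [Nat.shiftRight_eq_div_pow, Nat.div_div_eq_div_mul, ← pow_mul, ← pow_mul, ← pow_add]
  congr 3
  ring

theorem q4_cases {k : ℕ} (h : q4 k = true) : k = 0 ∨ k = 1 ∨ k = 4 ∨ k = 5 := by
  unfold q4 at h
  simp only [Bool.or_eq_true, beq_iff_eq] at h
  tauto

/-- the digits after the first mask -/
def G1 (u k : ℕ) : ℕ := if mN k = true then dg2 u k else 0
def G3 (u k : ℕ) : ℕ := if mA k = true then G1 u (k % 289) else 0
def G4 (u i k : ℕ) : ℕ := if k < 294 then G3 u (324 * i + k % 98) else 0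

theorem G1_lt (u k : ℕ) : G1 u k < 2 ^ 32 := by
  unfold G1
  split_ifs
  · exact dg2_lt _ _
  · positivity
theorem G3_lt (u k : ℕ) : G3 u k < 2 ^ 32 := by
  unfold G3
  split_ifs
  · exact G1_lt _ _
  · positivity
theorem G4_lt (u i k : ℕ) : G4 u i k < 2 ^ 32 := by
  unfold G4
  split_ifs
  · exact G3_lt _ _
  · positivity

theorem G3_val (u i j : ℕ) (hi : i < 3) (hj : j < 30) (hq : q4 (j % 10) = true) :
    G3 u (324 * i + j) = dg2 u (35 * i + j) := by
  have h1 : (324 * i + j) % 324 = j := by omega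
  have h2 : (324 * i + j) % 289 = 35 * i + j := by omega
  have h3 : (35 * i + j) % 35 = j := by omega
  have a : mA (324 * i + j) = true := by
    unfold mA
    rw [h1, hq, decide_eq_true hj]
    rfl
  have b : mN (35 * i + j) = true := by
    unfold mN
    rw [h3, hq, decide_eq_true hj, decide_eq_true (by omega : 35 * i + j < 105)]
    rfl
  unfold G3
  rw [if_pos a, h2]
  unfold G1
  rw [if_pos b]

theorem G3_zero (u i j : ℕ) (hj : 30 ≤ j) (hj' : j < 324) : G3 u (324 * i + j) = 0 := by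
  have h1 : (324 * i + j) % 324 = j := by omega
  unfold G3
  rw [if_neg]
  unfold mA
  rw [h1, decide_eq_false (by omega : ¬ j < 30)]
  simp

theorem b324 : (2 ^ 32 : ℕ) ^ (324 * 3) = (2 ^ 32) ^ (324 * 3) := rfl

theorem st3 (u : ℕ) : (u &&& MRN) * CB2 &&& MRA =
    pk ((2 ^ 32) ^ 324) 3 (fun i => pk (2 ^ 32) 98 (fun j => G3 u (324 * i + j))) := by
  have h1 : u &&& MRN = pk (2 ^ 32) 289 (G1 u) := by
    rw [MRN_eq]
    exact land_any 289 u mN
  have h2 := mul_rep (2 ^ 32) 289 3 (G1 u)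
  rw [h1, CB2_eq, h2, MRA_eq, show 289 * 3 = 867 from rfl,
    land_sel' 867 (fun k => G1 u (k % 289)) mA (fun i _ => G1_lt _ _)]
  have h3 := pk_extend (2 ^ 32) 867 105 (G3 u) (fun k h1 h2 => by
    have e : k = 324 * 2 + (k - 648) := by omega
    rw [e]
    exact G3_zero u 2 (k - 648) (by omega) (by omega))
  have e3 : (pk (2 ^ 32) 867 fun k => if mA k = true then G1 u (k % 289) else 0) =
      pk (2 ^ 32) 867 (G3 u) := rfl
  rw [e3, ← h3, show 867 + 105 = 324 * 3 from rfl, pk_nest]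
  refine pk_congr _ _ _ _ fun i _ => ?_
  exact pk_extend (2 ^ 32) 98 226 (fun j => G3 u (324 * i + j))
    (fun k h1 h2 => G3_zero u i k (by omega) (by omega))

theorem st4 (u : ℕ) : ((u &&& MRN) * CB2 &&& MRA) * CB1 =
    pk (2 ^ 32) 972 (fun k => G4 u (k / 324) (k % 324)) := by
  rw [st3, CB1_eq, Nat.mul_comm, pk_smul, show 972 = 324 * 3 from rfl, pk_nest]
  refine pk_congr _ _ _ _ fun i _ => ?_
  rw [Nat.mul_comm, mul_rep]
  have h := pk_extend (2 ^ 32) 294 30 (G4 u i) (fun k h1 h2 => by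
    unfold G4
    rw [if_neg (by omega)])
  have e1 : pk (2 ^ 32) (98 * 3) (fun k => G3 u (324 * i + k % 98)) = pk (2 ^ 32) 294 (G4 u i) := by
    refine pk_congr _ _ _ _ fun k hk => ?_
    unfold G4
    rw [if_pos hk]
  rw [e1, ← h]
  refine pk_congr _ _ _ _ fun k hk => ?_
  rw [show (324 * i + k) / 324 = i by omega, show (324 * i + k) % 324 = k by omega]

theorem st5 (u : ℕ) : spU u = pk ((2 ^ 32) ^ 108) 9 (fun n => pk (2 ^ 32) 108
    (fun k => if q4 k = true then dg2 u (35 * (n / 3) + 10 * (n % 3) + k) else 0)) := by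
  have e : spU u = ((u &&& MRN) * CB2 &&& MRA) * CB1 &&& MRB := rfl
  rw [e, st4, MRB_eq, land_sel' 972 _ mB (fun i _ => G4_lt _ _ _), show 972 = 108 * 9 from rfl,
    pk_nest]
  refine pk_congr _ _ _ _ fun i hi => pk_congr _ _ _ _ fun j hj => ?_
  have hm : mB (108 * i + j) = q4 j := by
    unfold mB
    rw [show (108 * i + j) % 108 = j by omega]
  rw [hm]
  by_cases hq : q4 j = true
  · rw [if_pos hq, if_pos hq, show (108 * i + j) / 324 = i / 3 by omega,
      show (108 * i + j) % 324 = 108 * (i % 3) + j by omega]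
    have hj5 : j ≤ 5 := by
      rcases q4_cases hq with h | h | h | h <;> omega
    unfold G4
    rw [if_pos (by omega), show (108 * (i % 3) + j) % 98 = 10 * (i % 3) + j by omega,
      G3_val u (i / 3) (10 * (i % 3) + j) (by omega) (by omega) (by
        rw [show (10 * (i % 3) + j) % 10 = j by omega]
        exact hq)]
    congr 1
    ring
  · rw [if_neg hq, if_neg hq]

end WR

/-- from the fields `320 i1 + 1120 i2` to the fields `3456 (i1 + 3 i2)`; any number `u` -/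
theorem spU_eq (u : ℕ) : spU u = ∑ n ∈ range 9,
    Nat.land (Nat.shiftRight u (320 * (n % 3) + 1120 * (n / 3))) Pool.Agent.Helper17.N9.MR2 *
      2 ^ (3456 * n) := by
  rw [WR.st5, Pool.Agent.Helper90.C9.pk_sum]
  refine sum_congr rfl fun n _ => ?_
  have e1 : ((2 ^ 32 : ℕ) ^ 108) ^ n = 2 ^ (3456 * n) := by
    rw [← pow_mul, ← pow_mul]
    congr 1
    ring
  have e2 : Nat.land (Nat.shiftRight u (320 * (n % 3) + 1120 * (n / 3)))
      Pool.Agent.Helper17.N9.MR2 = pk (2 ^ 32) 108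
      (fun k => if WR.q4 k = true then WR.dg2 u (35 * (n / 3) + 10 * (n % 3) + k) else 0) := by
    rw [WR.MR2_eq]
    have h := WR.land_any (e := 32) 108 (u >>> (320 * (n % 3) + 1120 * (n / 3))) WR.q4
    refine Eq.trans h ?_
    refine pk_congr _ _ _ _ fun k _ => ?_
    by_cases hq : WR.q4 k = true
    · rw [if_pos hq, if_pos hq, ← WR.dg2_shr, show 32 * (35 * (n / 3) + 10 * (n % 3)) =
        320 * (n % 3) + 1120 * (n / 3) by ring]
      rfl
    · rw [if_neg hq, if_neg hq]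
  rw [e1, e2]

namespace WR

open RQ

/-! ### digits -/

theorem pk_sub (b : ℕ) (n : ℕ) (f g : ℕ → ℕ) (h : ∀ i < n, g i ≤ f i) :
    pk b n f - pk b n g = pk b n (fun i => f i - g i) := by
  have h1 : pk b n f = pk b n (fun i => f i - g i) + pk b n g := by
    rw [pk_add]
    refine pk_congr _ _ _ _ fun i hi => ?_
    have := h i hi
    omega
  rw [h1, Nat.add_sub_cancel]

theorem pk_digit {b : ℕ} (hb : 0 < b) : ∀ (n : ℕ) (f : ℕ → ℕ), (∀ i < n, f i < b) → ∀ k < n,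
    pk b n f / b ^ k % b = f k
  | 0, _, _, k, hk => absurd hk (Nat.not_lt_zero k)
  | n + 1, f, h, 0, _ => by
    rw [pk_succ, pow_zero, Nat.div_one, Nat.add_mul_mod_self_left, Nat.mod_eq_of_lt (h 0 (by omega))]
  | n + 1, f, h, k + 1, hk => by
    have ih := pk_digit hb n (fun i => f (i + 1)) (fun i hi => h (i + 1) (by omega)) k (by omega)
    rw [pk_succ, pow_succ, Nat.mul_comm (b ^ k) b, ← Nat.div_div_eq_div_mul,
      Nat.add_mul_div_left _ _ hb, Nat.div_eq_of_lt (h 0 (by omega)), Nat.zero_add]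
    exact ih

theorem pk_sum_mul (b n m : ℕ) (f : ℕ → ℕ → ℕ) (t : ℕ → ℕ) :
    ∑ k ∈ range m, pk b n (f k) * t k = pk b n (fun i => ∑ k ∈ range m, f k i * t k) := by
  simp only [Pool.Agent.Helper90.C9.pk_sum, sum_mul]
  rw [sum_comm]
  refine sum_congr rfl fun i _ => sum_congr rfl fun k _ => ?_
  ring

theorem M01w_eq : M01w = pk (2 ^ 128) 243 (fun k => if decide (k % 3 = 0) = true ∨
    decide (k % 3 = 1) = true then 2 ^ 128 - 1 else 0) := by decide +kernel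
theorem M0w_eq : M0w = pk (2 ^ 128) 243 (fun k => if decide (k % 3 = 0) = true then 2 ^ 128 - 1
    else 0) := by decide +kernel
theorem CQw_eq : CQw = pk (2 ^ 128) 243 (fun k => if k % 3 = 0 then 2 ^ 100 else 0) := by
  decide +kernel
theorem REP_eq : REP = pk ((2 ^ 128) ^ 27) 9 (fun _ => 1) := by decide +kernel
theorem L27_eq : L27 = 2 ^ 3456 - 1 := by decide +kernel

/-! ### one node -/

/-- the sum of products of a node -/
def An (C : TC) (x : NL) : ℕ := ∑ k ∈ range 9, x.at k * entT C k + C.k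

theorem q2_dec (C : TC) (x : NL) : q2 C x = dec M01q M0q CQ (An C x - x.v) := by
  unfold An
  rw [← ad9_sum (fun k => x.at k * entT C k)]
  rfl

/-- the digits before the last step -/
theorem dif {W U : Fr} {I J : VF} (hW : FrR 3 W I) (hU : FrR 1 U J)
    (bW : BF (2 ^ 19) I) (bU : BF (2 ^ 19) J) {x : NL} {n : ℕ → Fin 2 → ℤ}
    (hx : ∀ k < 9, ((x.at k : ℕ) : ℤ) = (n k 0 + n k 1 * BB) + CO2)
    (hv : x.v = TE * ∑ k ∈ range 9, x.at k) (hn : ∀ k < 9, ∀ e, |n k e| ≤ 2 ^ 39) :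
    x.v ≤ An (mkTC W U) x ∧ ∃ f : ℕ → ℕ, An (mkTC W U) x - x.v = pk (2 ^ 128) 27 f ∧
      ∀ k < 27, 2 ^ 100 ≤ f k + 2 ^ 99 ∧ f k ≤ 2 ^ 100 + 2 ^ 99 := by
  have h1 := entT_ok hW hU bW bU
  have h2 := tck_ok hW hU bW bU
  set F : ℕ → Fin 3 → ℤ := fun K e => ∑ k ∈ range 9, nT (n k) (tv I J k) K e with hF
  have hFb : ∀ K < 9, ∀ e, |F K e| ≤ 2 ^ 83 + 2 ^ 80 := by
    intro K hK e
    refine (abs_sum_le_sum_abs _ _).trans ?_
    have h3 : ∀ k ∈ range 9, |nT (n k) (tv I J k) K e| ≤ 2 * (2 ^ 39 * 2 ^ 40) :=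
      fun k hk => nT_bd (hn k (mem_range.1 hk)) K (tv_bd bW bU (mem_range.1 hk) hK) e
    refine (sum_le_sum h3).trans ?_
    rw [sum_const, card_range, nsmul_eq_mul]
    norm_num
  have hy : ((An (mkTC W U) x : ℕ) : ℤ) - x.v = (OR3 : ℤ) + Q3 F := by
    unfold An
    rw [Nat.cast_add, hv, Nat.cast_mul, Nat.cast_sum, Nat.cast_sum, h2, hF, Q3_sum,
      sum_congr rfl fun k hk => hx k (mem_range.1 hk)]
    have e3 : ∀ k ∈ range 9, ((x.at k * entT (mkTC W U) k : ℕ) : ℤ) =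
        Q3 (nT (n k) (tv I J k)) + (CO2 * QA (tv I J k) + TE * ((n k 0 + n k 1 * BB) + CO2)) := by
      intro k hk
      rw [Nat.cast_mul, hx k (mem_range.1 hk), h1 k (mem_range.1 hk), ← nT_ok]
      ring
    rw [sum_congr rfl e3, sum_add_distrib, sum_add_distrib, ← mul_sum, ← mul_sum]
    ring
  have hpos := OR3_nonneg (Y := F) fun K hK e => (hFb K hK e).trans (by norm_num)
  have hle : x.v ≤ An (mkTC W U) x := by
    have h5 : ((x.v : ℕ) : ℤ) ≤ (An (mkTC W U) x : ℕ) := by linarith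
    exact_mod_cast h5
  refine ⟨hle, fun k => ((2 : ℤ) ^ 100 + q3 F k).toNat, ?_, fun k hk => ?_⟩
  · have h6 : ((An (mkTC W U) x - x.v : ℕ) : ℤ) = ((pk (2 ^ 128) 27 (fun k =>
        ((2 : ℤ) ^ 100 + q3 F k).toNat) : ℕ) : ℤ) := by
      rw [Nat.cast_sub hle, hy, OR3_add, pk_cast, castB]
      refine pz_congr _ _ _ _ fun k hk => ?_
      have h7 := (abs_le.mp (hFb (k / 3) (by omega) (g3 (k % 3)))).1
      have h8 : (0 : ℤ) ≤ 2 ^ 100 + q3 F k := by
        show (0 : ℤ) ≤ 2 ^ 100 + F (k / 3) (g3 (k % 3))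
        linarith
      exact (Int.toNat_of_nonneg h8).symm
    exact Nat.cast_injective h6
  · have h7 := abs_le.mp (hFb (k / 3) (by omega) (g3 (k % 3)))
    have h8 : (2 : ℤ) ^ 100 ≤ 2 ^ 100 + q3 F k + 2 ^ 99 := by
      show (2 : ℤ) ^ 100 ≤ 2 ^ 100 + F (k / 3) (g3 (k % 3)) + 2 ^ 99
      linarith [h7.1]
    have h9 : 2 ^ 100 + q3 F k ≤ (2 : ℤ) ^ 100 + 2 ^ 99 := by
      show 2 ^ 100 + F (k / 3) (g3 (k % 3)) ≤ (2 : ℤ) ^ 100 + 2 ^ 99
      linarith [h7.2]
    have h10 : (((2 : ℤ) ^ 100 + q3 F k).toNat : ℤ) = 2 ^ 100 + q3 F k :=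
      Int.toNat_of_nonneg (by linarith)
    constructor
    · have h11 : (((2 ^ 100 : ℕ)) : ℤ) ≤ ((((2 : ℤ) ^ 100 + q3 F k).toNat + 2 ^ 99 : ℕ) : ℤ) := by
        rw [Nat.cast_add, h10]
        exact_mod_cast h8
      exact_mod_cast h11
    · have h11 : (((2 : ℤ) ^ 100 + q3 F k).toNat : ℤ) ≤ ((2 ^ 100 + 2 ^ 99 : ℕ) : ℤ) := by
        rw [h10]
        exact_mod_cast h9
      exact_mod_cast h11

/-- the digits after the last step -/
def hd (f : ℕ → ℕ) (k : ℕ) : ℕ :=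
  if decide (k % 3 = 0) = true then f k + (if k % 3 = 0 then 2 ^ 100 else 0) - f (k + 2)
  else if decide (k % 3 = 1) = true then f k + (if k % 3 = 0 then 2 ^ 100 else 0) else 0

theorem dec_dig {n : ℕ} {f : ℕ → ℕ} {y M01 M0 C : ℕ} (hn : n % 3 = 0)
    (hy : y = pk (2 ^ 128) n f)
    (hM01 : M01 = pk (2 ^ 128) n (fun k => if decide (k % 3 = 0) = true ∨
      decide (k % 3 = 1) = true then 2 ^ 128 - 1 else 0))
    (hM0 : M0 = pk (2 ^ 128) n (fun k => if decide (k % 3 = 0) = true then 2 ^ 128 - 1 else 0))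
    (hC : C = pk (2 ^ 128) n (fun k => if k % 3 = 0 then 2 ^ 100 else 0))
    (hf : ∀ k < n, 2 ^ 100 ≤ f k + 2 ^ 99 ∧ f k ≤ 2 ^ 100 + 2 ^ 99) :
    dec M01 M0 C y = pk (2 ^ 128) n (hd f) := by
  rw [dec_eq]
  exact Pool.Agent.Helper90.DG.decode (n := n) (f := f)
    (c := fun k => if k % 3 = 0 then 2 ^ 100 else 0) (e0 := fun k => decide (k % 3 = 0))
    (e1 := fun k => decide (k % 3 = 1)) hy hM01 hM0 hC
    (fun k _ hk => by
      show (if k % 3 = 0 then 2 ^ 100 else 0) = 0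
      rw [if_neg]
      intro h3
      exact hk (Or.inl (by simpa using h3)))
    (fun k hk => lt_of_le_of_lt (hf k hk).2 (by norm_num))
    (fun k hk h3 => by
      have h4 : k % 3 = 0 := by simpa using h3
      omega)
    (fun k hk h3 => by
      have h4 : k % 3 = 0 := by simpa using h3
      show f (k + 2) ≤ f k + (if k % 3 = 0 then 2 ^ 100 else 0)
      rw [if_pos h4]
      have h5 := (hf k hk).1
      have h6 := (hf (k + 2) (by omega)).2
      have h7 : (2 : ℕ) ^ 100 = 2 ^ 99 + 2 ^ 99 := by norm_num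
      omega)

theorem hd_lt {n : ℕ} {f : ℕ → ℕ} (hf : ∀ k < n, 2 ^ 100 ≤ f k + 2 ^ 99 ∧ f k ≤ 2 ^ 100 + 2 ^ 99)
    {k : ℕ} (hk : k < n) : hd f k < 2 ^ 128 := by
  have h1 := (hf k hk).2
  have h2 : (2 : ℕ) ^ 100 + 2 ^ 99 + 2 ^ 100 < 2 ^ 128 := by norm_num
  unfold hd
  split_ifs <;> omega

/-! ### nine nodes -/

/-- the nine numbers of a block -/
def P9.at (x : P9) (K : ℕ) : ℕ := match K with
  | 0 => x.a | 1 => x.b | 2 => x.c | 3 => x.d | 4 => x.e | 5 => x.f | 6 => x.g | 7 => x.h | _ => x.i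

theorem qWC_dec (C : TC) (x : P9) : qWC C x = dec M01w M0w CQw
    ((∑ k ∈ range 9, P9.at x k * entT C k + C.k * REP) - TE * ∑ k ∈ range 9, P9.at x k) := by
  rw [← ad9_sum (fun k => P9.at x k * entT C k), ← ad9_sum (fun k => P9.at x k)]
  rfl

/-- THE NINE NODES: `y n` the leaves -/
theorem nine {W U : Fr} {I J : VF} (hW : FrR 3 W I) (hU : FrR 1 U J)
    (bW : BF (2 ^ 19) I) (bU : BF (2 ^ 19) J) {x : P9} {y : ℕ → NL}
    (hxy : ∀ k < 9, P9.at x k = ∑ n ∈ range 9, (y n).at k * 2 ^ (3456 * n))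
    (hv : ∀ n < 9, (y n).v = TE * ∑ k ∈ range 9, (y n).at k)
    {m : ℕ → ℕ → Fin 2 → ℤ}
    (hm : ∀ n < 9, ∀ k < 9, (((y n).at k : ℕ) : ℤ) = (m n k 0 + m n k 1 * BB) + CO2)
    (hb : ∀ n < 9, ∀ k < 9, ∀ e, |m n k e| ≤ 2 ^ 39) :
    ∀ n < 9, nodY (qWC (mkTC W U) x) (3456 * n) = q2 (mkTC W U) (y n) := by
  have hd0 : ∀ n : ℕ, ∃ f : ℕ → ℕ, n < 9 → ((y n).v ≤ An (mkTC W U) (y n) ∧
      An (mkTC W U) (y n) - (y n).v = pk (2 ^ 128) 27 f ∧
      ∀ k < 27, 2 ^ 100 ≤ f k + 2 ^ 99 ∧ f k ≤ 2 ^ 100 + 2 ^ 99) := by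
    intro n
    by_cases hn : n < 9
    · obtain ⟨a, f, b, c⟩ := dif hW hU bW bU (hm n hn) (hv n hn) (hb n hn)
      exact ⟨f, fun _ => ⟨a, b, c⟩⟩
    · exact ⟨fun _ => 0, fun h => absurd h hn⟩
  choose f hf using hd0
  set C := mkTC W U with hC
  have pB : ((2 : ℕ) ^ 128) ^ 27 = 2 ^ 3456 := by rw [← pow_mul]
  have hxk : ∀ k < 9, P9.at x k = pk ((2 ^ 128) ^ 27) 9 (fun n => (y n).at k) := by
    intro k hk
    rw [hxy k hk, Pool.Agent.Helper90.C9.pk_sum]
    refine sum_congr rfl fun n _ => ?_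
    rw [pB, ← pow_mul]
  -- the argument
  have hS : (∑ k ∈ range 9, P9.at x k * entT C k + C.k * REP) - TE * ∑ k ∈ range 9, P9.at x k =
      pk ((2 ^ 128) ^ 27) 9 (fun n => An C (y n) - (y n).v) := by
    have e1 : ∑ k ∈ range 9, P9.at x k * entT C k =
        pk ((2 ^ 128) ^ 27) 9 (fun n => ∑ k ∈ range 9, (y n).at k * entT C k) := by
      rw [← pk_sum_mul]
      exact sum_congr rfl fun k hk => by rw [hxk k (mem_range.1 hk)]
    have e2 : C.k * REP = pk ((2 ^ 128) ^ 27) 9 (fun _ => C.k) := by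
      rw [REP_eq, pk_smul]
      exact pk_congr _ _ _ _ fun _ _ => Nat.mul_one _
    have e3 : TE * ∑ k ∈ range 9, P9.at x k = pk ((2 ^ 128) ^ 27) 9 (fun n => (y n).v) := by
      have h1 : ∑ k ∈ range 9, P9.at x k =
          pk ((2 ^ 128) ^ 27) 9 (fun n => ∑ k ∈ range 9, (y n).at k) := by
        have h2 := pk_sum_mul ((2 ^ 128) ^ 27) 9 9 (fun k n => (y n).at k) (fun _ => 1)
        simp only [Nat.mul_one] at h2
        rw [← h2]
        exact sum_congr rfl fun k hk => by rw [hxk k (mem_range.1 hk)]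
      rw [h1, pk_smul]
      exact pk_congr _ _ _ _ fun n hn => (hv n hn).symm
    rw [e1, e2, e3, pk_add]
    exact pk_sub _ _ _ _ fun n hn => (hf n hn).1
  have hS2 : pk ((2 ^ 128) ^ 27) 9 (fun n => An C (y n) - (y n).v) =
      pk (2 ^ 128) 243 (fun k => f (k / 27) (k % 27)) := by
    rw [show 243 = 27 * 9 from rfl, pk_nest]
    refine pk_congr _ _ _ _ fun n hn => ?_
    rw [(hf n hn).2.1]
    refine pk_congr _ _ _ _ fun j hj => ?_
    rw [show (27 * n + j) / 27 = n by omega, show (27 * n + j) % 27 = j by omega]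
  have hY : qWC C x = pk ((2 ^ 128) ^ 27) 9 (fun n => pk (2 ^ 128) 27 (hd (f n))) := by
    rw [qWC_dec, hS, dec_dig (n := 243) (by norm_num) hS2 M01w_eq M0w_eq CQw_eq (fun k hk =>
      (hf (k / 27) (by omega)).2.2 (k % 27) (by omega)), show 243 = 27 * 9 from rfl, pk_nest]
    refine pk_congr _ _ _ _ fun n hn => pk_congr _ _ _ _ fun j hj => ?_
    unfold hd
    beta_reduce
    rw [show (27 * n + j) % 3 = j % 3 by omega, show (27 * n + j) / 27 = n by omega,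
      show (27 * n + j) % 27 = j by omega]
    by_cases h0 : j % 3 = 0
    · rw [show (27 * n + j + 2) / 27 = n by omega, show (27 * n + j + 2) % 27 = j + 2 by omega]
    · have hc : ¬ (decide (j % 3 = 0) = true) := by simpa using h0
      rw [if_neg hc, if_neg hc]
  intro n hn
  have hq : q2 C (y n) = pk (2 ^ 128) 27 (hd (f n)) := by
    rw [q2_dec, dec_dig (n := 27) (by norm_num) (hf n hn).2.1 M01q_eq M0q_eq CQ_eq (hf n hn).2.2]
  have e : nodY (qWC C x) (3456 * n) = qWC C x / ((2 ^ 128) ^ 27) ^ n % (2 ^ 128) ^ 27 := by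
    show (qWC C x) >>> (3456 * n) &&& L27 = _
    rw [L27_eq, Nat.and_two_pow_sub_one_eq_mod, Nat.shiftRight_eq_div_pow, pB, ← pow_mul]
  rw [e, hY, pk_digit (by positivity) 9 _ (fun i hi => pk_lt (by positivity) 27 _ fun j hj =>
    hd_lt (hf i hi).2.2 hj) n hn, hq]

/-- nine values of a function -/
def mkP (f v : ℕ → ℕ) : P9 := ⟨f (v 0), f (v 1), f (v 2), f (v 3), f (v 4), f (v 5), f (v 6), f (v 7), f (v 8)⟩

theorem mkP_at (f v : ℕ → ℕ) : ∀ k < 9, P9.at (mkP f v) k = f (v k) := by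
  intro k hk
  interval_cases k <;> rfl

/-- the numbers of a component -/
def vE (g : Pool.Agent.Helper91.FU.U3 → ℕ) (E : E9) (k : ℕ) : ℕ := match k with
  | 0 => g E.a.u | 1 => g E.b.u | 2 => g E.c.u | 3 => g E.d.u | 4 => g E.e.u | 5 => g E.f.u
  | 6 => g E.g.u | 7 => g E.h.u | _ => g E.i.u

/-- nine numbers -/
def mkU (v : ℕ → ℕ) : Pool.Agent.Helper91.FU.U9 := ⟨v 0, v 1, v 2, v 3, v 4, v 5, v 6, v 7, v 8⟩

/-- a leaf -/
def lfE (v : ℕ → ℕ) (n : ℕ) : NL :=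
  Pool.Agent.Helper91.FU.lfU (mkU v) (320 * (n % 3) + 1120 * (n / 3))

theorem lfU_at (v : ℕ → ℕ) (p : ℕ) : ∀ k < 9, (Pool.Agent.Helper91.FU.lfU (mkU v) p).at k =
    Pool.Agent.Helper91.FU.gt (v k) p Pool.Agent.Helper17.N9.MR2 := by
  intro k hk
  interval_cases k <;> rfl

theorem lfU_v (v : ℕ → ℕ) (p : ℕ) : (Pool.Agent.Helper91.FU.lfU (mkU v) p).v =
    TE * ∑ k ∈ range 9, (Pool.Agent.Helper91.FU.lfU (mkU v) p).at k := by
  rw [← ad9_sum (fun k => (Pool.Agent.Helper91.FU.lfU (mkU v) p).at k)]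
  rfl

theorem nineE {W U : Fr} {I J : VF} (hW : FrR 3 W I) (hU : FrR 1 U J)
    (bW : BF (2 ^ 19) I) (bU : BF (2 ^ 19) J) (v : ℕ → ℕ)
    {m : ℕ → ℕ → Fin 2 → ℤ} (hm : ∀ n < 9, NLR (lfE v n) (m n)) :
    ∀ n < 9, nodY (qWC (mkTC W U) (mkP spU v)) (3456 * n) = q2 (mkTC W U) (lfE v n) := by
  refine nine hW hU bW bU (y := lfE v) (m := m) (fun k hk => ?_) (fun n hn => ?_)
    (fun n hn k hk => ?_) (fun n hn k hk e => (hm n hn).bd k hk e)
  · rw [mkP_at spU v k hk, spU_eq]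
    refine sum_congr rfl fun n _ => ?_
    have h : (lfE v n).at k = Pool.Agent.Helper91.FU.gt (v k) (320 * (n % 3) + 1120 * (n / 3))
      Pool.Agent.Helper17.N9.MR2 := lfU_at v _ k hk
    rw [h]
    rfl
  · exact lfU_v v _
  · rw [(hm n hn).dg k hk, CO2_cast]
    ring

/-! ### the trees -/

def pc3 {α : Type} (T : Tr α) (i : Fin 3) : α := (![T.a, T.c, T.b] : Fin 3 → α) i

theorem lv_zp (T0 T1 T2 : Tr (Tr ℕ)) (i a b : Fin 3) :
    Pool.Agent.Helper17.N9.lv3 (zp2 T0 T1 T2) ((((), i), a), b) =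
      pc3 (pc3 ((![T0, T1, T2] : Fin 3 → Tr (Tr ℕ)) i) b) a := by
  fin_cases i <;> fin_cases a <;> fin_cases b <;> rfl

theorem sp9_pc (Y : ℕ) (a b : Fin 3) : pc3 (pc3 (sp9 Y) b) a = nodY Y (3456 * (a + 3 * b)) := by
  fin_cases a <;> fin_cases b <;> rfl

theorem lm_tre (A C B : Pool.Agent.Helper91.FU.U9) (i a b : Fin 3) :
    lm3 (Pool.Agent.Helper91.FU.tre A C B) ((((), i), a), b) =
      Pool.Agent.Helper91.FU.lfU ((![A, C, B] : Fin 3 → Pool.Agent.Helper91.FU.U9) i)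
        (320 * a + 1120 * b) := by
  fin_cases i <;> fin_cases a <;> fin_cases b <;> rfl

/-- the components -/
def gg (i : Fin 3) : Pool.Agent.Helper91.FU.U3 → ℕ :=
  (![fun z => z.a, fun z => z.c, fun z => z.b] : Fin 3 → Pool.Agent.Helper91.FU.U3 → ℕ) i

theorem pE_mk (g : Pool.Agent.Helper91.FU.U3 → ℕ) (E : E9) : pE g E = mkP spU (vE g E) := rfl

theorem qW_pc (f : P9 → ℕ) (x : Tr P9) (i a b : Fin 3) :
    Pool.Agent.Helper17.N9.lv3 (qW3 f x) ((((), i), a), b) =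
      nodY (f (pc3 x i)) (3456 * (a + 3 * b)) := by
  have h := lv_zp (sp9 (f x.a)) (sp9 (f x.c)) (sp9 (f x.b)) i a b
  refine Eq.trans h ?_
  rw [← sp9_pc]
  fin_cases i <;> rfl

theorem pE3_pc (E : E9) (i : Fin 3) : pc3 (pE3 E) i = mkP spU (vE (gg i) E) := by
  rw [← pE_mk]
  fin_cases i <;> rfl

theorem trE_lf (E : E9) (i a b : Fin 3) :
    lm3 (trE E) ((((), i), a), b) = lfE (vE (gg i) E) (a + 3 * b) := by
  have h := lm_tre (mkU (vE (gg 0) E)) (mkU (vE (gg 1) E)) (mkU (vE (gg 2) E)) i a b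
  have e : (![mkU (vE (gg 0) E), mkU (vE (gg 1) E), mkU (vE (gg 2) E)] :
      Fin 3 → Pool.Agent.Helper91.FU.U9) i = mkU (vE (gg i) E) := by
    fin_cases i <;> rfl
  rw [e] at h
  refine Eq.trans h ?_
  unfold lfE
  have ha := a.isLt
  have hb := b.isLt
  rw [show ((a : ℕ) + 3 * b) % 3 = a by omega, show ((a : ℕ) + 3 * b) / 3 = b by omega]

end WR

/-- THE NINE NODES -/
theorem qW3_ok {W U : Fr} {I J : VF} (hW : FrR 3 W I) (hU : FrR 1 U J) (bW : BF (2 ^ 19) I)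
    (bU : BF (2 ^ 19) J) {E : E9} {n : Vt 3 → ℕ → Fin 2 → ℤ}
    (hn : ∀ u, NLR (lm3 (trE E) u) (n u)) (u : Vt 3) :
    Pool.Agent.Helper17.N9.lv3 (qW3 (qWC (mkTC W U)) (pE3 E)) u =
      q2 (mkTC W U) (lm3 (trE E) u) := by
  obtain ⟨⟨⟨⟨⟩, i⟩, a⟩, b⟩ := u
  have hk : ∀ k < 9, NLR (WR.lfE (WR.vE (WR.gg i) E) k)
      (n ((((), i), (⟨k % 3, Nat.mod_lt _ (by norm_num)⟩ : Fin 3)),
        (if k < 3 then 0 else if k < 6 then 1 else 2 : Fin 3))) := by
    intro k hk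
    have h2 : ((⟨k % 3, Nat.mod_lt _ (by norm_num)⟩ : Fin 3) : ℕ) +
        3 * ((if k < 3 then 0 else if k < 6 then 1 else 2 : Fin 3) : ℕ) = k := by
      interval_cases k <;> rfl
    have h1 := WR.trE_lf E i (⟨k % 3, Nat.mod_lt _ (by norm_num)⟩ : Fin 3)
      (if k < 3 then 0 else if k < 6 then 1 else 2 : Fin 3)
    rw [h2] at h1
    rw [← h1]
    exact hn _
  have h := WR.nineE hW hU bW bU (WR.vE (WR.gg i) E) (m := fun k => n ((((), i),
    (⟨k % 3, Nat.mod_lt _ (by norm_num)⟩ : Fin 3)),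
      (if k < 3 then 0 else if k < 6 then 1 else 2 : Fin 3))) hk (a + 3 * b) (by omega)
  have ht := WR.trE_lf E i a b
  have hp := WR.pE3_pc E i
  have hq := WR.qW_pc (qWC (mkTC W U)) (pE3 E) i a b
  rw [hp, h, ← ht] at hq
  exact hq

end Pool.Agent.Helper45.N9S
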