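import Pool.Agent.Helper45.N9S.TS
import Pool.Agent.Helper45.N9S.ST
import Pool.Agent.Helper91.FU.Q
import Pool.Agent.Helper17.FU.N4
import Pool.Agent.Helper17.N9.N9Y

/-!
Row K9 of MP_c75db0 (plan W), kernel S: THE LAWS OF THE TEST RECORD `TrS`.
-/

set_option autoImplicit false
set_option exponentiation.threshold 60000
noncomputable section
namespace Pool.Agent.Helper45.N9S

open Pool.Agent.Helper86.CX (andB)
open Pool.Agent.Helper90.C75 (Vt avg)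
open Pool.Agent.Helper90.KMT (PT)
open Pool.Agent.Helper17.N9
open Pool.Agent.Helper6.MONO.W2 (Mt NT)
open Pool.Agent.Helper91.BX (tu)
open Pool.Agent.Helper91.FU (RM nv3_ok nv4_ok TFL q3 e9W)
open Finset Matrix

/-- THREE PARAMETERS -/
theorem u3S_ok {c k : ℕ} (hc : c ≤ 16) {t : ℕ → ℝ} (hP : PT 3 t) {M A : Mt}
    {VM VA : Pool.Agent.Helper91.FU.W9} (hM : RM c t M VM) (hA : RM c t A VA) {k1 k2 : Kf} {g : Te}
    (h : u3S k1 k2 g k VM VA = true) : NT (KfM k1 t) (KfM k2 t) A M := by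
  have h' : andB (Nat.ble k 20) (tS Ms3 (nw3 VM k) (nw3 VA k) k1 k2 g) = true := h
  obtain ⟨h1, h2⟩ := andB2 h'
  exact tS_ok Ms3_ok (by norm_num) hP (fun _ => rfl) (NWL_3 (nv3_ok hc (ble_le h1) hP hM))
    (NWL_3 (nv3_ok hc (ble_le h1) hP hA)) h2

/-- FOUR PARAMETERS -/
theorem u4S_ok {c k : ℕ} (hc : c ≤ 16) {t : ℕ → ℝ} {u : ℝ} (hP : PT 4 (tu 3 t u))
    {M A m n p x y z : Mt} {VM VN VP VX VY VZ : Pool.Agent.Helper91.FU.W9}
    (h0 : RM c t m VM) (h1 : RM c t n VN) (h2 : RM c t p VP) (eM : M = q3 u m n p)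
    (g0 : RM c t x VX) (g1 : RM c t y VY) (g2 : RM c t z VZ) (eA : A = q3 u x y z)
    {k1 k2 : Kf} {g : Te} (h : u4S k1 k2 g k VM VN VP VX VY VZ = true) :
    NT (KfM k1 (tu 3 t u)) (KfM k2 (tu 3 t u)) A M := by
  have h' : andB (Nat.ble k 20) (tS Ms4 (nw4 VM VN VP k) (nw4 VX VY VZ k) k1 k2 g) = true := h
  obtain ⟨l1, l2⟩ := andB2 h'
  exact tS_ok Ms4_ok (le_refl 4) hP (fun G => ndw_k 3 (tu 3 t u) G)
    (NWL_4 (nv4_ok hc (ble_le l1) hP eM h0 h1 h2)) (NWL_4 (nv4_ok hc (ble_le l1) hP eA g0 g1 g2)) l2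

/-- **THE LAWS OF THE TESTS** -/
theorem TrS_ok : TFL KfM TrS where
  t3 h hP hM hX := u3S_ok (by norm_num) hP hM hX h
  t4 h _ hP h0 h1 h2 eM g0 g1 g2 eA := by
    have := u4S_ok (by norm_num) hP h0 h1 h2 eM g0 g1 g2 eA h
    rwa [Pool.Agent.Helper51.FR.KfM_tu, Pool.Agent.Helper51.FR.KfM_tu] at this

end Pool.Agent.Helper45.N9S
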