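import Pool.Agent.Helper45.N9S.SE
import Pool.Agent.Helper90.C9.DG

/-!
Row K9 of MP_c75db0 (plan W), kernel S, row A1: packed deviations of the controls.
-/

set_option autoImplicit false
set_option exponentiation.threshold 60000
noncomputable section
namespace Pool.Agent.Helper45.N9S

open Pool.Agent.Helper90.K9 (pk pz pk_cast pk_congr pk_add pk_smul pz_congr)
open Pool.Agent.Helper90.C9 (xor_pk xor_compl)
open Pool.Agent.Helper90.DG (ad le_ad land0 land_sel mask_full top_split lt128 off_lt shr127 mask_of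
  decode)
open Pool.Agent.Helper17.N9
open Finset

namespace RA

/-! ### masks of selected digits -/

section
variable {n : ℕ} {p : ℕ → Prop} [DecidablePred p] {f g : ℕ → ℕ}

theorem off_sub (hg : ∀ k < n, g k < 2 ^ 127) (zg : ∀ k < n, ¬ p k → g k = 0) :
    (pk (2 ^ 128) n f + pk (2 ^ 128) n (fun k => if p k then 2 ^ 127 else 0)) - pk (2 ^ 128) n g =
      pk (2 ^ 128) n (fun k => f k + (if p k then 2 ^ 127 else 0) - g k) := by
  have h : pk (2 ^ 128) n f + pk (2 ^ 128) n (fun k => if p k then 2 ^ 127 else 0) =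
      pk (2 ^ 128) n (fun k => f k + (if p k then 2 ^ 127 else 0) - g k) + pk (2 ^ 128) n g := by
    rw [pk_add, pk_add]
    refine pk_congr _ _ _ _ fun k hk => ?_
    have h1 := hg k hk
    have h2 := zg k hk
    show f k + (if p k then 2 ^ 127 else 0) = f k + (if p k then 2 ^ 127 else 0) - g k + g k
    by_cases h3 : p k
    · rw [if_pos h3]
      omega
    · have := h2 h3
      omega
  rw [h, Nat.add_sub_cancel]

theorem dg_lt (hf : ∀ k < n, f k < 2 ^ 127) : ∀ k < n,
    f k + (if p k then 2 ^ 127 else 0) - g k < 2 ^ 128 := fun k hk => by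
  have h1 := hf k hk
  have : (2 : ℕ) ^ 128 = 2 ^ 127 + 2 ^ 127 := by norm_num
  split_ifs <;> omega

theorem top_bits (hf : ∀ k < n, f k < 2 ^ 127) (hg : ∀ k < n, g k < 2 ^ 127)
    (zg : ∀ k < n, ¬ p k → g k = 0) :
    ((pk (2 ^ 128) n f + pk (2 ^ 128) n (fun k => if p k then 2 ^ 127 else 0)) - pk (2 ^ 128) n g) &&&
      pk (2 ^ 128) n (fun k => if p k then 2 ^ 127 else 0) =
      pk (2 ^ 128) n (fun k => if p k ∧ g k ≤ f k then 2 ^ 127 else 0) := by
  rw [off_sub hg zg, land0 n _ _ (dg_lt hf) (fun k _ => by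
    show (if p k then 2 ^ 127 else 0) < 2 ^ 128
    split_ifs <;> norm_num)]
  refine pk_congr _ _ _ _ fun k hk => ?_
  by_cases h : p k
  · rw [if_pos h, (top_split (hf k hk) (hg k hk)).1]
    by_cases h2 : g k ≤ f k
    · rw [if_pos h2, if_pos ⟨h, h2⟩]
    · rw [if_neg h2, if_neg (fun h3 => h2 h3.2)]
  · rw [if_neg h, if_neg (fun h3 => h h3.1), Nat.and_zero]

theorem low_bits (hf : ∀ k < n, f k < 2 ^ 127) (hg : ∀ k < n, g k < 2 ^ 127)
    (zg : ∀ k < n, ¬ p k → g k = 0) :
    ((pk (2 ^ 128) n f + pk (2 ^ 128) n (fun k => if p k then 2 ^ 127 else 0)) - pk (2 ^ 128) n g) &&&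
      pk (2 ^ 128) n (fun k => if p k then 2 ^ 127 - 1 else 0) =
      pk (2 ^ 128) n (fun k => if p k then (if g k ≤ f k then f k - g k else f k + 2 ^ 127 - g k)
        else 0) := by
  rw [off_sub hg zg, land0 n _ _ (dg_lt hf) (fun k _ => by
    show (if p k then 2 ^ 127 - 1 else 0) < 2 ^ 128
    split_ifs <;> norm_num)]
  refine pk_congr _ _ _ _ fun k hk => ?_
  by_cases h : p k
  · rw [if_pos h, if_pos h, if_pos h, (top_split (hf k hk) (hg k hk)).2]
  · rw [if_neg h, if_neg h, if_neg h, Nat.and_zero]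

theorem abs_sel {x y H L t s m a : ℕ}
    (hf : ∀ k < n, f k < 2 ^ 127) (hg : ∀ k < n, g k < 2 ^ 127)
    (zf : ∀ k < n, ¬ p k → f k = 0) (zg : ∀ k < n, ¬ p k → g k = 0)
    (hx : x = pk (2 ^ 128) n f) (hy : y = pk (2 ^ 128) n g)
    (hH : H = pk (2 ^ 128) n (fun k => if p k then 2 ^ 127 else 0))
    (hL : L = pk (2 ^ 128) n (fun k => if p k then 2 ^ 127 - 1 else 0))
    (ht : t = (x + H) - y) (hs : s = t &&& H) (hm : m = s - s >>> 127)
    (ha : a = (t &&& L) ^^^ (L - m)) :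
    a = pk (2 ^ 128) n (fun k => ad (f k) (g k)) := by
  have h1 : s = pk (2 ^ 128) n (fun k => if p k ∧ g k ≤ f k then 2 ^ 127 else 0) := by
    rw [hs, ht, hx, hy, hH]; exact top_bits hf hg zg
  have h2 : m = pk (2 ^ 128) n (fun k => if p k ∧ g k ≤ f k then 2 ^ 127 - 1 else 0) := by
    rw [hm, h1]; exact mask_of n _
  have h3 : t &&& L = pk (2 ^ 128) n (fun k => if p k then (if g k ≤ f k then f k - g k else
      f k + 2 ^ 127 - g k) else 0) := by
    rw [ht, hx, hy, hH, hL]; exact low_bits hf hg zg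
  have h4 : L - m = pk (2 ^ 128) n (fun k => if p k ∧ ¬ g k ≤ f k then 2 ^ 127 - 1 else 0) := by
    have : L = pk (2 ^ 128) n (fun k => if p k ∧ ¬ g k ≤ f k then 2 ^ 127 - 1 else 0) + m := by
      rw [hL, h2, pk_add]
      refine pk_congr _ _ _ _ fun k _ => ?_
      by_cases h : p k
      · by_cases h' : g k ≤ f k
        · rw [if_pos h, if_neg (fun h3 => h3.2 h'), if_pos ⟨h, h'⟩, Nat.zero_add]
        · rw [if_pos h, if_pos ⟨h, h'⟩, if_neg (fun h3 => h' h3.2), Nat.add_zero]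
      · rw [if_neg h, if_neg (fun h3 => h h3.1), if_neg (fun h3 => h h3.1)]
    rw [this, Nat.add_sub_cancel]
  have b1 : ∀ k < n, (if p k then (if g k ≤ f k then f k - g k else f k + 2 ^ 127 - g k) else 0) <
      2 ^ 127 := fun k hk => by
    have := hf k hk
    split_ifs <;> omega
  have b2 : ∀ k < n, (if p k ∧ ¬ g k ≤ f k then 2 ^ 127 - 1 else 0) < 2 ^ 127 := fun k _ => by
    split_ifs <;> norm_num
  rw [ha, h3, h4, xor_pk n _ _ (fun k hk => lt128 (b1 k hk)) (fun k hk => lt128 (b2 k hk))]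
  refine pk_congr _ _ _ _ fun k hk => ?_
  by_cases hp : p k
  · by_cases h : g k ≤ f k
    · rw [if_pos hp, if_pos h, if_neg (fun h3 => h3.2 h), Nat.xor_zero]
      unfold ad
      rw [if_pos h]
    · rw [if_pos hp, if_neg h, if_pos ⟨hp, h⟩]
      have h5 : f k + 2 ^ 127 - g k < 2 ^ 127 := by
        have := b1 k hk
        rw [if_pos hp, if_neg h] at this
        exact this
      rw [xor_compl h5]
      unfold ad
      rw [if_neg h]
      have := hg k hk
      omega
  · rw [if_neg hp, if_neg (fun h3 => hp h3.1), zf k hk hp, zg k hk hp]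
    rfl

theorem max_sel {a r H t s m : ℕ}
    (hf : ∀ k < n, f k < 2 ^ 127) (hg : ∀ k < n, g k < 2 ^ 127)
    (zf : ∀ k < n, ¬ p k → f k = 0) (zg : ∀ k < n, ¬ p k → g k = 0)
    (ha : a = pk (2 ^ 128) n f) (hr : r = pk (2 ^ 128) n g)
    (hH : H = pk (2 ^ 128) n (fun k => if p k then 2 ^ 127 else 0))
    (ht : t = (a + H) - r) (hs : s = t &&& H) (hm : m = s - s >>> 127) :
    r + (t &&& m) = pk (2 ^ 128) n (fun k => max (f k) (g k)) := by
  have h1 : s = pk (2 ^ 128) n (fun k => if p k ∧ g k ≤ f k then 2 ^ 127 else 0) := by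
    rw [hs, ht, ha, hr, hH]; exact top_bits hf hg zg
  have h2 : m = pk (2 ^ 128) n (fun k => if p k ∧ g k ≤ f k then 2 ^ 127 - 1 else 0) := by
    rw [hm, h1]; exact mask_of n _
  have h3 : t = pk (2 ^ 128) n (fun k => f k + (if p k then 2 ^ 127 else 0) - g k) := by
    rw [ht, ha, hr, hH]; exact off_sub hg zg
  rw [h3, h2, land0 n _ _ (dg_lt hf) (fun k _ => by
    show (if p k ∧ g k ≤ f k then 2 ^ 127 - 1 else 0) < 2 ^ 128
    split_ifs <;> norm_num), hr, pk_add]
  refine pk_congr _ _ _ _ fun k hk => ?_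
  by_cases hp : p k
  · by_cases h : g k ≤ f k
    · rw [if_pos hp, if_pos ⟨hp, h⟩, (top_split (hf k hk) (hg k hk)).2, if_pos h, max_eq_left h]
      omega
    · rw [if_neg (fun h3 : p k ∧ g k ≤ f k => h h3.2), Nat.and_zero, Nat.add_zero,
        max_eq_right (by omega)]
  · rw [if_neg (fun h3 : p k ∧ g k ≤ f k => hp h3.1), Nat.and_zero, Nat.add_zero, zf k hk hp,
      zg k hk hp]
    rfl

end

/-! ### literals -/

def e0 (k : ℕ) : Bool := decide (k % 30 < 27 ∧ k % 3 = 0)
def e1 (k : ℕ) : Bool := decide (k % 30 < 27 ∧ k % 3 = 1)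

theorem e0_iff (k : ℕ) : e0 k = true ↔ k % 30 < 27 ∧ k % 3 = 0 := decide_eq_true_iff
theorem e1_iff (k : ℕ) : e1 k = true ↔ k % 30 < 27 ∧ k % 3 = 1 := decide_eq_true_iff
theorem us_iff (k : ℕ) : us k ↔ (e0 k = true ∨ e1 k = true) := by
  rw [e0_iff, e1_iff]
  unfold us
  omega

theorem HVc_eq : HVc = pk (2 ^ 128) 270 (fun k => if us k then 2 ^ 127 else 0) := by decide +kernel
theorem LVc_eq : LVc = pk (2 ^ 128) 270 (fun k => if us k then 2 ^ 127 - 1 else 0) := by
  decide +kernel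
theorem MV01c_eq : MV01c = pk (2 ^ 128) 270 (fun k => if e0 k = true ∨ e1 k = true then
    2 ^ 128 - 1 else 0) := by decide +kernel
theorem MV0c_eq : MV0c = pk (2 ^ 128) 270 (fun k => if e0 k = true then 2 ^ 128 - 1 else 0) := by
  decide +kernel
theorem CV0_eq : CV0 = pk (2 ^ 128) 270 (fun k => if e0 k = true then 2 ^ 122 else 0) := by
  decide +kernel

/-! ### decoding -/

/-- the digits of a decoded control -/
def dA (N : VC) (k : ℕ) : ℤ :=
  if e0 k = true then 2 ^ 122 + (dg N k - dg N (k + 2)) else if e1 k = true then 2 ^ 122 + dg N k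
  else 0

theorem cA_lt : cA < 2 ^ 121 := by unfold cA; norm_num
theorem cA_nn : 0 ≤ cA := by unfold cA; norm_num

theorem bd' {N : VC} (b : Bc cA N) : ∀ k < 270, |dg N k| < 2 ^ 121 :=
  fun _ hk => lt_of_le_of_lt (dg_bd cA_nn b hk) cA_lt

/-- the digits of a control as natural numbers -/
def fN (N : VC) (k : ℕ) : ℕ := (2 ^ 122 + dg N k).toNat

theorem fN_z {N : VC} (b : Bc cA N) : ∀ k < 270, ((fN N k : ℕ) : ℤ) = 2 ^ 122 + dg N k := fun k hk => by
  have h1 := abs_lt.1 (bd' b k hk)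
  exact Int.toNat_of_nonneg (by linarith)

theorem fN_lt {N : VC} (b : Bc cA N) : ∀ k < 270, fN N k < 2 ^ 128 := fun k hk => by
  have h1 := abs_lt.1 (bd' b k hk)
  have h2 := fN_z b k hk
  have h3 : ((fN N k : ℕ) : ℤ) < ((2 ^ 128 : ℕ) : ℤ) := by
    rw [h2]
    push_cast
    linarith
  exact_mod_cast h3

theorem fN_pk {N : VC} {Y : ℕ} (h : DgA N Y) (b : Bc cA N) : Y = pk (2 ^ 128) 270 (fN N) := by
  have h1 : (Y : ℤ) = ((pk (2 ^ 128) 270 (fN N) : ℕ) : ℤ) := by
    rw [pk_cast, show (((2 ^ 128 : ℕ) : ℕ) : ℤ) = BB from rfl]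
    exact h.trans (pz_congr _ _ _ _ fun k hk => (fN_z b k hk).symm)
  exact_mod_cast h1

theorem e0_lt {k : ℕ} (hk : k < 270) (h : e0 k = true) : k + 2 < 270 := by
  rw [e0_iff] at h
  omega

def cN (k : ℕ) : ℕ := if e0 k = true then 2 ^ 122 else 0
theorem cN_z (k : ℕ) : ((cN k : ℕ) : ℤ) = if e0 k = true then 2 ^ 122 else 0 := by
  unfold cN
  split_ifs
  · norm_num
  · rfl

theorem fN_le {N : VC} (b : Bc cA N) : ∀ k < 270, e0 k = true →
    fN N (k + 2) ≤ fN N k + cN k := fun k hk h1 => by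
  have a1 := abs_lt.1 (bd' b k hk)
  have a2 := abs_lt.1 (bd' b (k + 2) (e0_lt hk h1))
  have b1 := fN_z b k hk
  have b2 := fN_z b (k + 2) (e0_lt hk h1)
  have b3 := cN_z k
  rw [if_pos h1] at b3
  have h3 : ((fN N (k + 2) : ℕ) : ℤ) ≤ ((fN N k : ℕ) : ℤ) + ((cN k : ℕ) : ℤ) := by
    rw [b1, b2, b3]
    linarith
  exact_mod_cast h3

/-- the digits of a decoded control as natural numbers -/
def fD (N : VC) (k : ℕ) : ℕ := if e0 k = true then fN N k + cN k - fN N (k + 2)
  else if e1 k = true then fN N k + cN k else 0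

theorem fD_pk {N : VC} {Y : ℕ} (h : DgA N Y) (b : Bc cA N) : dcA Y = pk (2 ^ 128) 270 (fD N) := by
  have e : dcA Y = ((Y &&& MV01c) + CV0) - ((Y >>> 256) &&& MV0c) := rfl
  rw [e]
  exact decode (fN_pk h b) MV01c_eq MV0c_eq CV0_eq
    (fun k _ h1 => if_neg (fun h2 => h1 (Or.inl h2))) (fN_lt b) (fun k => e0_lt) (fN_le b)

theorem fD_z {N : VC} (b : Bc cA N) : ∀ k < 270, ((fD N k : ℕ) : ℤ) = dA N k := fun k hk => by
  unfold fD dA
  by_cases h0 : e0 k = true
  · have h1 := fN_le b k hk h0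
    have b3 := cN_z k
    rw [if_pos h0] at b3
    rw [if_pos h0, if_pos h0, Nat.cast_sub h1, Nat.cast_add, b3, fN_z b k hk,
      fN_z b (k + 2) (e0_lt hk h0)]
    ring
  · by_cases h1 : e1 k = true
    · have b3 := cN_z k
      rw [if_neg h0] at b3
      rw [if_neg h0, if_pos h1, if_neg h0, if_pos h1, Nat.cast_add, b3, fN_z b k hk, add_zero]
    · rw [if_neg h0, if_neg h1, if_neg h0, if_neg h1]
      rfl

theorem fD_0 {N : VC} : ∀ k < 270, ¬ us k → fD N k = 0 := fun k _ h1 => by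
  rw [us_iff] at h1
  unfold fD
  rw [if_neg (fun h2 => h1 (Or.inl h2)), if_neg (fun h2 => h1 (Or.inr h2))]

theorem fD_lt {N : VC} (b : Bc cA N) : ∀ k < 270, fD N k < 2 ^ 123 := fun k hk => by
  have h1 : dA N k < 2 ^ 123 := by
    unfold dA
    by_cases h0 : e0 k = true
    · rw [if_pos h0]
      have a1 := abs_lt.1 (bd' b k hk)
      have a2 := abs_lt.1 (bd' b (k + 2) (e0_lt hk h0))
      linarith
    · by_cases h1 : e1 k = true
      · rw [if_neg h0, if_pos h1]
        have a1 := abs_lt.1 (bd' b k hk)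
        linarith
      · rw [if_neg h0, if_neg h1]
        norm_num
  rw [← fD_z b k hk] at h1
  exact_mod_cast h1

theorem ad_le' (a b : ℕ) : (ad a b : ℤ) ≤ |(a : ℤ) - (b : ℤ)| := by
  unfold ad
  split_ifs with h
  · rw [Nat.cast_sub h]
    exact le_abs_self _
  · have h1 : a + 1 ≤ b := by omega
    have h2 : ((b - a - 1 : ℕ) : ℤ) = (b : ℤ) - a - 1 := by
      rw [Nat.sub_sub, Nat.cast_sub h1]
      push_cast
      ring
    rw [h2]
    have h3 := neg_abs_le ((a : ℤ) - b)
    linarith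

theorem dg_re (N : VC) {K L : ℕ} (hL : L < 9) :
    dg N (30 * K + 3 * L) - dg N (30 * K + 3 * L + 2) = reC N K L := by
  have h0 := dg_at N (K := K) hL 0
  have h2 := dg_at N (K := K) hL 2
  rw [show ((0 : Fin 3) : ℕ) = 0 from rfl, Nat.add_zero] at h0
  rw [show ((2 : Fin 3) : ℕ) = 2 from rfl, ← Nat.add_assoc] at h2
  rw [h0, h2]
  rfl

theorem dg_im (N : VC) {K L : ℕ} (hL : L < 9) : dg N (30 * K + 3 * L + 1) = imC N K L := by
  have h1 := dg_at N (K := K) hL 1
  rw [show ((1 : Fin 3) : ℕ) = 1 from rfl, ← Nat.add_assoc] at h1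
  exact h1

theorem e0_at {K L : ℕ} (hL : L < 9) : e0 (30 * K + 3 * L) = true := (e0_iff _).2 (by omega)
theorem e1_at {K L : ℕ} (hL : L < 9) : e1 (30 * K + 3 * L + 1) = true := (e1_iff _).2 (by omega)
theorem e0_at1 {K L : ℕ} (_ : L < 9) : ¬ e0 (30 * K + 3 * L + 1) = true := by
  rw [e0_iff]
  omega

theorem dA_re (N : VC) {K L : ℕ} (hL : L < 9) : dA N (30 * K + 3 * L) = 2 ^ 122 + reC N K L := by
  unfold dA
  rw [if_pos (e0_at hL), dg_re N hL]

theorem dA_im (N : VC) {K L : ℕ} (hL : L < 9) : dA N (30 * K + 3 * L + 1) = 2 ^ 122 + imC N K L := by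
  unfold dA
  rw [if_neg (e0_at1 hL), if_pos (e1_at hL), dg_im N hL]

theorem re_bd {N : VC} (b : Bc cA N) {K L : ℕ} (hK : K < 9) (hL : L < 9) : |reC N K L| ≤ 2 * cA := by
  have h0 := abs_le.1 (b K L hK hL 0)
  have h2 := abs_le.1 (b K L hK hL 2)
  unfold reC
  rw [abs_le]
  constructor <;> linarith

end RA

open RA

theorem mxV_ok {g g' : ℕ → ℕ} (hg : DvB g) (hg' : DvB g') {x y : ℕ}
    (hx : x = pk (2 ^ 128) 270 g) (hy : y = pk (2 ^ 128) 270 g') :
    mxV x y = pk (2 ^ 128) 270 (fun k => max (g k) (g' k)) ∧ DvB (fun k => max (g k) (g' k)) := by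
  have hl : 10368 * 2 ^ 110 < 2 ^ 127 := by norm_num
  refine ⟨max_sel (fun k hk => lt_of_le_of_lt (hg.b k hk) hl)
    (fun k hk => lt_of_le_of_lt (hg'.b k hk) hl) hg.z hg'.z hx hy HVc_eq rfl rfl rfl, ?_, ?_⟩
  · intro k hk h
    show max (g k) (g' k) = 0
    rw [hg.z k hk h, hg'.z k hk h]
    rfl
  · intro k hk
    exact max_le (hg.b k hk) (hg'.b k hk)

theorem dv0_ok {A C B : VC} {a c b : ℕ} (ha : DgA A a) (hc : DgA C c) (hb : DgA B b)
    (bA : Bc cA A) (bC : Bc cA C) (bB : Bc cA B) :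
    ∃ g : ℕ → ℕ, dv0 a c b = pk (2 ^ 128) 270 g ∧ DvB g ∧ DvL g A C B := by
  have ea := fD_pk ha bA
  have ec := fD_pk hc bC
  have eb := fD_pk hb bB
  have va := fD_z bA
  have vc := fD_z bC
  have vb := fD_z bB
  have za := fD_0 (N := A)
  have zc := fD_0 (N := C)
  have zb := fD_0 (N := B)
  have la := fD_lt bA
  have lc := fD_lt bC
  have lb := fD_lt bB
  generalize fD A = fa at *
  generalize fD C = fc at *
  generalize fD B = fb at *
  have hx : Nat.shiftLeft (dcA c) (nat_lit 1) = pk (2 ^ 128) 270 (fun k => 2 * fc k) := by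
    show dcA c <<< 1 = _
    rw [ec, Nat.shiftLeft_eq, Nat.mul_comm, pow_one, pk_smul]
  have hy : Nat.add (dcA a) (dcA b) = pk (2 ^ 128) 270 (fun k => fa k + fb k) := by
    show dcA a + dcA b = _
    rw [ea, eb, pk_add]
  have l1 : (2 : ℕ) * 2 ^ 123 < 2 ^ 127 := by norm_num
  have hD : dv0 a c b = pk (2 ^ 128) 270 (fun k => ad (2 * fc k) (fa k + fb k)) := by
    have := abs_sel (n := 270) (p := us) (f := fun k => 2 * fc k) (g := fun k => fa k + fb k)
      (fun k hk => by
        have := lc k hk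
        show 2 * fc k < 2 ^ 127
        omega)
      (fun k hk => by
        have h1 := la k hk
        have h2 := lb k hk
        show fa k + fb k < 2 ^ 127
        omega)
      (fun k hk h => by
        show 2 * fc k = 0
        rw [zc k hk h])
      (fun k hk h => by
        show fa k + fb k = 0
        rw [za k hk h, zb k hk h]) hx hy HVc_eq LVc_eq rfl rfl rfl rfl
    exact this
  -- the deviation
  have hv : ∀ k < 270, ((2 * fc k : ℕ) : ℤ) - ((fa k + fb k : ℕ) : ℤ) =
      2 * dA C k - (dA A k + dA B k) := fun k hk => by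
    push_cast
    rw [va k hk, vb k hk, vc k hk]
  have hre : ∀ K L, L < 9 → 2 * dA C (30 * K + 3 * L) - (dA A (30 * K + 3 * L) + dA B (30 * K + 3 * L)) =
      2 * reC C K L - (reC A K L + reC B K L) := fun K L hL => by
    rw [dA_re C hL, dA_re A hL, dA_re B hL]
    ring
  have him : ∀ K L, L < 9 → 2 * dA C (30 * K + 3 * L + 1) -
      (dA A (30 * K + 3 * L + 1) + dA B (30 * K + 3 * L + 1)) =
      2 * imC C K L - (imC A K L + imC B K L) := fun K L hL => by
    rw [dA_im C hL, dA_im A hL, dA_im B hL]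
    ring
  refine ⟨_, hD, ⟨fun k hk h => ?_, fun k hk => ?_⟩, fun K hK L hL => ⟨?_, ?_⟩⟩
  · show ad (2 * fc k) (fa k + fb k) = 0
    rw [za k hk h, zb k hk h, zc k hk h]
    rfl
  · show ad (2 * fc k) (fa k + fb k) ≤ 10368 * 2 ^ 110
    have h1 := ad_le' (2 * fc k) (fa k + fb k)
    rw [hv k hk] at h1
    have h8 : (8 : ℤ) * cA = ((10368 * 2 ^ 110 : ℕ) : ℤ) := by unfold cA; norm_num
    have h2 : |2 * dA C k - (dA A k + dA B k)| ≤ 8 * cA := by
      by_cases hu : us k
      · obtain ⟨h3, h4⟩ := hu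
        have hK : k / 30 < 9 := by omega
        have hL : k % 30 / 3 < 9 := by omega
        rcases (show k % 3 = 0 ∨ k % 3 = 1 by omega) with h5 | h5
        · have e : k = 30 * (k / 30) + 3 * (k % 30 / 3) := by omega
          rw [e, hre _ _ hL]
          have a1 := abs_le.1 (re_bd bA hK hL)
          have a2 := abs_le.1 (re_bd bB hK hL)
          have a3 := abs_le.1 (re_bd bC hK hL)
          rw [abs_le]
          constructor <;> linarith
        · have e : k = 30 * (k / 30) + 3 * (k % 30 / 3) + 1 := by omega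
          rw [e, him _ _ hL]
          have a1 := abs_le.1 (bA _ _ hK hL 1)
          have a2 := abs_le.1 (bB _ _ hK hL 1)
          have a3 := abs_le.1 (bC _ _ hK hL 1)
          have hn := cA_nn
          unfold imC
          rw [abs_le]
          constructor <;> linarith
      · have e : ∀ N : VC, dA N k = 0 := fun N => by
          rw [us_iff] at hu
          unfold dA
          rw [if_neg (fun h2 => hu (Or.inl h2)), if_neg (fun h2 => hu (Or.inr h2))]
        rw [e, e, e]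
        have hn := cA_nn
        norm_num
        exact hn
    have h3 := h1.trans h2
    rw [h8] at h3
    exact_mod_cast h3
  · have h1 := le_ad (2 * fc (30 * K + 3 * L)) (fa (30 * K + 3 * L) + fb (30 * K + 3 * L))
    rw [hv _ (by omega), hre K L hL] at h1
    exact h1
  · have h1 := le_ad (2 * fc (30 * K + 3 * L + 1)) (fa (30 * K + 3 * L + 1) + fb (30 * K + 3 * L + 1))
    rw [hv _ (by omega), him K L hL] at h1
    exact h1

end Pool.Agent.Helper45.N9S
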