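import Pool.Agent.Helper45.N9S.SE
import Pool.Agent.Helper17.N9.N9L

/-!
Row K9 of MP_c75db0 (plan W), kernel S, row A2: the charge of an affine direction.
-/

set_option autoImplicit false
set_option exponentiation.threshold 60000
noncomputable section
namespace Pool.Agent.Helper45.N9S

open Pool.Agent.Helper90.K9 (pk pz pk_zero pk_succ pk_congr pk_add pk_smul pk_split pk_lt pk_nest
  pk_inj land_split)
open Pool.Agent.Helper90.C9 (RdC pk_sum)
open Pool.Agent.Helper90.DG
open Pool.Agent.Helper17.N9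
open Finset

namespace A2

/-! ### literals -/

/-- the digits `30 K + 3 L` -/
def p0 (k : ℕ) : Prop := k % 30 < 27 ∧ k % 3 = 0
instance (k : ℕ) : Decidable (p0 k) := by unfold p0; infer_instance

theorem HVc_eq : HVc = pk (2 ^ 128) 270 (fun k => if us k then 2 ^ 127 else 0) := by
  decide +kernel
theorem MV0c_eq : MV0c = pk (2 ^ 128) 270 (fun k => if p0 k then 2 ^ 128 - 1 else 0) := by
  decide +kernel
theorem C9c_eq : C9c = pk (2 ^ 384) 9 (fun _ => 1) := by decide +kernel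
theorem M30c_eq : M30c = pk (2 ^ 128) 270 (fun k => if k % 30 = 0 then 2 ^ 128 - 1 else 0) := by
  decide +kernel
theorem M33c_eq : M33c = pk (2 ^ 128) 294 (fun k => if k % 33 = 0 then 2 ^ 128 - 1 else 0) := by
  decide +kernel
theorem HRc_eq : HRc = pk (2 ^ 128) 294 (fun k => if k % 33 = 0 then 2 ^ 128 - 2 ^ 112 else 0) := by
  decide +kernel

/-! ### maximum at selected digits -/

theorem max_sel {n : ℕ} {f g : ℕ → ℕ} {p : ℕ → Prop} [DecidablePred p] {a r H t s m : ℕ}
    (hf : ∀ k < n, f k < 2 ^ 127) (hg : ∀ k < n, g k < 2 ^ 127)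
    (zf : ∀ k < n, ¬ p k → f k = 0) (zg : ∀ k < n, ¬ p k → g k = 0)
    (ha : a = pk (2 ^ 128) n f) (hr : r = pk (2 ^ 128) n g)
    (hH : H = pk (2 ^ 128) n (fun k => if p k then 2 ^ 127 else 0))
    (ht : t = (a + H) - r) (hs : s = t &&& H) (hm : m = s - s >>> 127) :
    r + (t &&& m) = pk (2 ^ 128) n (fun k => max (f k) (g k)) := by
  have h3 : t = pk (2 ^ 128) n (fun k => f k + (if p k then 2 ^ 127 else 0) - g k) := by
    have h : a + H = pk (2 ^ 128) n (fun k => f k + (if p k then 2 ^ 127 else 0) - g k) + r := by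
      rw [ha, hH, hr, pk_add, pk_add]
      refine pk_congr _ _ _ _ fun k hk => ?_
      have h1 := hg k hk
      show f k + (if p k then 2 ^ 127 else 0) = f k + (if p k then 2 ^ 127 else 0) - g k + g k
      by_cases h : p k
      · rw [if_pos h]; omega
      · rw [if_neg h, zg k hk h]; omega
    rw [ht, h, Nat.add_sub_cancel]
  have lt : ∀ k < n, f k + (if p k then 2 ^ 127 else 0) - g k < 2 ^ 128 := fun k hk => by
    have h1 := hf k hk
    have : (2 : ℕ) ^ 128 = 2 ^ 127 + 2 ^ 127 := by norm_num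
    split_ifs <;> omega
  have h1 : s = pk (2 ^ 128) n (fun k => if p k ∧ g k ≤ f k then 2 ^ 127 else 0) := by
    rw [hs, h3, hH, land0 n _ _ lt (fun k _ => by split_ifs <;> norm_num)]
    refine pk_congr _ _ _ _ fun k hk => ?_
    by_cases h : p k
    · rw [if_pos h, (top_split (hf k hk) (hg k hk)).1]
      by_cases h' : g k ≤ f k
      · rw [if_pos h', if_pos ⟨h, h'⟩]
      · rw [if_neg h', if_neg fun e => h' e.2]
    · rw [if_neg h, Nat.and_zero, if_neg fun e => h e.1]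
  have h2 : m = pk (2 ^ 128) n (fun k => if p k ∧ g k ≤ f k then 2 ^ 127 - 1 else 0) := by
    rw [hm, h1]
    exact mask_of n _
  rw [h3, h2, land0 n _ _ lt (fun k _ => by split_ifs <;> norm_num), hr, pk_add]
  refine pk_congr _ _ _ _ fun k hk => ?_
  by_cases h : p k
  · by_cases h' : g k ≤ f k
    · rw [if_pos h, if_pos ⟨h, h'⟩, (top_split (hf k hk) (hg k hk)).2, if_pos h', max_eq_left h']
      omega
    · have hn : ¬ (p k ∧ g k ≤ f k) := fun e => h' e.2
      rw [if_neg hn, Nat.and_zero, Nat.add_zero, max_eq_right (by omega)]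
  · have hn : ¬ (p k ∧ g k ≤ f k) := fun e => h e.1
    rw [if_neg hn, Nat.and_zero, Nat.add_zero, zf k hk h, zg k hk h, max_self]

/-! ### moduli -/

/-- the digits of `pmV` -/
def dd (g : ℕ → ℕ) (k : ℕ) : ℕ :=
  if k < 270 ∧ p0 k then max (g k + g (k + 1) / 2) (g (k + 1) + g k / 2) else 0

theorem p0_us {k : ℕ} (h : p0 k) : us k := ⟨h.1, by rw [h.2]; norm_num⟩
theorem p0_lt {k : ℕ} (hk : k < 270) (h : p0 k) : k + 1 < 270 := by
  have := h.1
  omega

theorem half {g : ℕ → ℕ} (hg : ∀ k < 270, g k < 2 ^ 125) :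
    (pk (2 ^ 128) 270 (fun k => if p0 k then g k else 0) >>> 1) &&& MV0c =
      pk (2 ^ 128) 270 (fun k => if p0 k then g k / 2 else 0) := by
  have l3 : (2 : ℕ) ^ 127 = 4 * 2 ^ 125 := by norm_num
  have l2 : (2 : ℕ) ^ 128 = 2 * 2 ^ 127 := by norm_num
  rw [shr1, MV0c_eq]
  rw [land_sel 270 _ p0 (fun k hk => by
    show (if p0 k then g k else 0) / 2 + 2 ^ 127 *
      (if k + 1 < 270 then (if p0 (k + 1) then g (k + 1) else 0) % 2 else 0) < 2 ^ 128
    have a1 : (if p0 k then g k else 0) / 2 < 2 ^ 127 := by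
      split_ifs with h
      · have := hg k hk
        omega
      · positivity
    have a2 : (if k + 1 < 270 then (if p0 (k + 1) then g (k + 1) else 0) % 2 else 0) ≤ 1 := by
      split_ifs
      · omega
      · omega
      · omega
    have a3 := Nat.mul_le_mul_left (2 ^ 127) a2
    omega)]
  refine pk_congr _ _ _ _ fun k hk => ?_
  by_cases h : p0 k
  · have h' : ¬ p0 (k + 1) := fun e => by
      have e1 := h.2
      have e2 := e.2
      omega
    simp only [h, h', if_true, if_false, Nat.zero_mod, ite_self, Nat.mul_zero, Nat.add_zero]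
  · rw [if_neg h, if_neg h]

theorem pmV_eq {g : ℕ → ℕ} (hg : DvB g) {x : ℕ} (hx : x = pk (2 ^ 128) 270 g) :
    pmV x = pk (2 ^ 128) 270 (dd g) := by
  have l0 : 10368 * 2 ^ 110 < (2 : ℕ) ^ 125 := by norm_num
  have l1 : (2 : ℕ) ^ 125 < 2 ^ 128 := by norm_num
  have hf : ∀ k < 270, g k < 2 ^ 125 := fun k hk => lt_of_le_of_lt (hg.b k hk) l0
  have ea : x &&& MV0c = pk (2 ^ 128) 270 (fun k => if p0 k then g k else 0) := by
    rw [hx, MV0c_eq]
    exact land_sel 270 g p0 (fun k hk => (hf k hk).trans l1)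
  set f : ℕ → ℕ := fun k => if k < 269 then g (k + 1) else 0 with hfd
  have hf' : ∀ k < 270, f k < 2 ^ 125 := fun k hk => by
    show (if k < 269 then g (k + 1) else 0) < 2 ^ 125
    split_ifs with h
    · exact hf _ (by omega)
    · positivity
  have eb : (x >>> 128) &&& MV0c = pk (2 ^ 128) 270 (fun k => if p0 k then f k else 0) := by
    rw [hx, MV0c_eq, show 270 = 269 + 1 from rfl, shr128 269 g ((hf 0 (by norm_num)).trans l1)]
    exact land_sel (269 + 1) f p0 (fun k hk => (hf' k hk).trans l1)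
  show mxV ((x &&& MV0c) + ((((x >>> 128) &&& MV0c) >>> 1) &&& MV0c))
    (((x >>> 128) &&& MV0c) + (((x &&& MV0c) >>> 1) &&& MV0c)) = _
  rw [ea, eb, half hf, half hf', pk_add, pk_add]
  have b1 : ∀ k < 270, (if p0 k then g k else 0) + (if p0 k then f k / 2 else 0) < 2 ^ 127 := by
    intro k hk
    have h1 := hf k hk
    have h2 := hf' k hk
    split_ifs <;> omega
  have b2 : ∀ k < 270, (if p0 k then f k else 0) + (if p0 k then g k / 2 else 0) < 2 ^ 127 := by
    intro k hk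
    have h1 := hf k hk
    have h2 := hf' k hk
    split_ifs <;> omega
  have e5 := max_sel (p := us) b1 b2 (fun k _ h => by
      rw [if_neg fun e => h (p0_us e), if_neg fun e => h (p0_us e)])
    (fun k _ h => by
      rw [if_neg fun e => h (p0_us e), if_neg fun e => h (p0_us e)]) rfl rfl HVc_eq rfl rfl rfl
  refine e5.trans (pk_congr _ _ _ _ fun k hk => ?_)
  unfold dd
  by_cases h : p0 k
  · have e1 : f k = g (k + 1) := if_pos (by have := p0_lt hk h; omega)
    rw [if_pos h, if_pos h, if_pos h, if_pos h, if_pos ⟨hk, h⟩, e1]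
  · rw [if_neg h, if_neg h, if_neg h, if_neg h, if_neg fun e => h e.2]
    rfl

theorem dd_le {g : ℕ → ℕ} (hg : DvB g) (k : ℕ) : dd g k ≤ 15552 * 2 ^ 110 := by
  unfold dd
  split_ifs with h
  · have h1 := hg.b k h.1
    have h2 := hg.b (k + 1) (p0_lt h.1 h.2)
    refine max_le ?_ ?_ <;> omega
  · exact Nat.zero_le _

/-! ### products by nine ones -/

theorem pk_shl (b s n : ℕ) (f : ℕ → ℕ) :
    b ^ s * pk b n f = pk b (s + n) (fun k => if s ≤ k then f (k - s) else 0) := by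
  rw [pk_split, pk_zeros' b s _ (fun i hi => if_neg (by omega)), Nat.zero_add]
  congr 1
  refine pk_congr _ _ _ _ fun i _ => ?_
  rw [if_pos (by omega), Nat.add_sub_cancel_left]

/-- the sums of nine digits -/
def s9 (D : ℕ → ℕ) (k : ℕ) : ℕ := ∑ j ∈ range 9, if 3 * j ≤ k then D (k - 3 * j) else 0

theorem pk_sumj (b n : ℕ) (f : ℕ → ℕ → ℕ) (J : ℕ) : ∑ j ∈ range J, pk b n (f j) =
    pk b n (fun k => ∑ j ∈ range J, f j k) := by
  induction J with
  | zero =>
    rw [Finset.sum_range_zero]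
    exact (pk_zeros' b n _ fun i _ => Finset.sum_range_zero _).symm
  | succ J ih =>
    rw [Finset.sum_range_succ, ih, pk_add]
    exact pk_congr _ _ _ _ fun k _ => (Finset.sum_range_succ _ _).symm

theorem mul9 {D : ℕ → ℕ} (hD : ∀ k, 270 ≤ k → D k = 0) :
    pk (2 ^ 128) 270 D * C9c = pk (2 ^ 128) 294 (s9 D) := by
  have e1 : C9c = ∑ j ∈ range 9, (2 ^ 128) ^ (3 * j) := by
    rw [C9c_eq, pk_sum]
    refine Finset.sum_congr rfl fun j _ => ?_
    rw [one_mul, pow_mul]
    congr 1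
  rw [e1, Finset.mul_sum]
  have e2 : ∀ j ∈ range 9, pk (2 ^ 128) 270 D * (2 ^ 128) ^ (3 * j) =
      pk (2 ^ 128) 294 (fun k => if 3 * j ≤ k then D (k - 3 * j) else 0) := by
    intro j hj
    rw [Finset.mem_range] at hj
    have e3 : pk (2 ^ 128) (270 + (24 - 3 * j)) D = pk (2 ^ 128) 270 D :=
      pk_extend _ _ _ _ fun k h _ => hD k h
    rw [← e3, Nat.mul_comm, pk_shl]
    congr 1
    omega
  rw [Finset.sum_congr rfl e2, pk_sumj]
  rfl

theorem s9_lt {D : ℕ → ℕ} (hD : ∀ k, D k ≤ 15552 * 2 ^ 110) (k : ℕ) : s9 D k < 2 ^ 128 := by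
  have h : s9 D k ≤ ∑ j ∈ range 9, 15552 * 2 ^ 110 := by
    refine Finset.sum_le_sum fun j _ => ?_
    split_ifs
    · exact hD _
    · exact Nat.zero_le _
  refine lt_of_le_of_lt h ?_
  rw [Finset.sum_const, Finset.card_range]
  norm_num

/-- the sum of a row -/
def rw9 (D : ℕ → ℕ) (K : ℕ) : ℕ := ∑ L ∈ range 9, D (30 * K + 3 * L)

theorem s9_row (D : ℕ → ℕ) (K : ℕ) : s9 D (24 + 30 * K) = rw9 D K := by
  unfold s9 rw9
  rw [← Finset.sum_range_reflect (fun L => D (30 * K + 3 * L)) 9]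
  refine Finset.sum_congr rfl fun j hj => ?_
  rw [Finset.mem_range] at hj
  rw [if_pos (by omega)]
  congr 1
  omega

/-- dropping 24 digits -/
theorem shr24 {f : ℕ → ℕ} (hf : ∀ k < 24, f k < 2 ^ 128) :
    pk (2 ^ 128) 294 f >>> 3072 = pk (2 ^ 128) 270 (fun k => f (24 + k)) := by
  have e : (2 : ℕ) ^ 3072 = (2 ^ 128) ^ 24 := by rw [← pow_mul]
  rw [show 294 = 24 + 270 from rfl, pk_split, Nat.shiftRight_eq_div_pow, e,
    Nat.add_mul_div_left _ _ (by positivity), Nat.div_eq_of_lt (pk_lt (by positivity) _ _ hf),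
    Nat.zero_add]

/-- the rows at the digits `30 K` -/
def r30 (D : ℕ → ℕ) (k : ℕ) : ℕ := if k < 270 ∧ k % 30 = 0 then rw9 D (k / 30) else 0

theorem fst9 {D : ℕ → ℕ} (hD : ∀ k, 270 ≤ k → D k = 0) (bD : ∀ k, D k ≤ 15552 * 2 ^ 110) :
    Nat.land (Nat.shiftRight (Nat.mul (pk (2 ^ 128) 270 D) C9c) (nat_lit 3072)) M30c =
      pk (2 ^ 128) 270 (r30 D) := by
  show ((pk (2 ^ 128) 270 D * C9c) >>> 3072) &&& M30c = _
  rw [mul9 hD, shr24 (fun k _ => s9_lt bD k), M30c_eq,
    land_sel 270 _ (fun k => k % 30 = 0) (fun k _ => s9_lt bD _)]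
  refine pk_congr _ _ _ _ fun k hk => ?_
  unfold r30
  by_cases h : k % 30 = 0
  · have e : k = 30 * (k / 30) := by omega
    rw [if_pos h, if_pos ⟨hk, h⟩]
    conv_lhs => rw [e]
    exact s9_row D (k / 30)
  · rw [if_neg h, if_neg fun e => h e.2]

theorem r30_ne {D : ℕ → ℕ} {k : ℕ} (h : k % 3 ≠ 0) : r30 D k = 0 := by
  unfold r30
  rw [if_neg]
  rintro ⟨_, h'⟩
  omega

theorem s9_ne {D : ℕ → ℕ} {k : ℕ} (h : k % 3 ≠ 0) : s9 (r30 D) k = 0 := by
  refine Finset.sum_eq_zero fun j _ => ?_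
  split_ifs with h'
  · exact r30_ne (by omega)
  · rfl

theorem s9_33 (D : ℕ → ℕ) {K : ℕ} (hK : K < 9) : s9 (r30 D) (33 * K) = rw9 D K := by
  unfold s9
  rw [Finset.sum_eq_single K]
  · rw [if_pos (by omega)]
    unfold r30
    rw [if_pos (by omega)]
    congr 1
    omega
  · intro j hj hne
    rw [Finset.mem_range] at hj
    split_ifs with h
    · unfold r30
      rw [if_neg]
      rintro ⟨_, h'⟩
      omega
    · rfl
  · intro h
    exact absurd (Finset.mem_range.2 hK) h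

theorem r30_le {D : ℕ → ℕ} (bD : ∀ k, D k ≤ 15552 * 2 ^ 110) (k : ℕ) : r30 D k ≤ 139968 * 2 ^ 110 := by
  unfold r30
  split_ifs with h
  · unfold rw9
    refine (Finset.sum_le_sum fun L _ => bD _).trans ?_
    rw [Finset.sum_const, Finset.card_range]
    norm_num
  · exact Nat.zero_le _

/-- at most one of the nine digits is not zero -/
theorem s9r_lt {D : ℕ → ℕ} (bD : ∀ k, D k ≤ 15552 * 2 ^ 110) (k : ℕ) : s9 (r30 D) k < 2 ^ 128 := by
  by_cases h : ∃ j < 9, 3 * j ≤ k ∧ r30 D (k - 3 * j) ≠ 0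
  · obtain ⟨j, hj, h1, h2⟩ := h
    have e : s9 (r30 D) k = r30 D (k - 3 * j) := by
      unfold s9
      rw [Finset.sum_eq_single j]
      · rw [if_pos h1]
      · intro i hi hne
        rw [Finset.mem_range] at hi
        split_ifs with h3
        · by_contra h4
          have a1 : (k - 3 * i) % 30 = 0 := by
            by_contra h5
            exact h4 (by unfold r30; rw [if_neg fun e => h5 e.2])
          have a2 : (k - 3 * j) % 30 = 0 := by
            by_contra h5
            exact h2 (by unfold r30; rw [if_neg fun e => h5 e.2])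
          omega
        · rfl
      · intro h
        exact absurd (Finset.mem_range.2 hj) h
    rw [e]
    exact lt_of_le_of_lt (r30_le bD _) (by norm_num)
  · have e : s9 (r30 D) k = 0 := by
      refine Finset.sum_eq_zero fun j hj => ?_
      rw [Finset.mem_range] at hj
      split_ifs with h1
      · by_contra h2
        exact h ⟨j, hj, h1, h2⟩
      · rfl
    rw [e]
    positivity

theorem snd9 {D : ℕ → ℕ} (bD : ∀ k, D k ≤ 15552 * 2 ^ 110) :
    Nat.land (Nat.shiftRight (Nat.mul (pk (2 ^ 128) 270 (r30 D)) C9c) (nat_lit 2)) M33c =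
      pk (2 ^ 128) 294 (fun k => if k % 33 = 0 then rw9 D (k / 33) / 4 else 0) := by
  show ((pk (2 ^ 128) 270 (r30 D) * C9c) >>> (1 + 1)) &&& M33c = _
  rw [mul9 (D := r30 D) (fun k h => by unfold r30; rw [if_neg fun e => by omega]),
    Nat.shiftRight_add, shr1, shr1, M33c_eq]
  have b0 := s9r_lt bD
  have l2 : (2 : ℕ) ^ 128 = 2 * 2 ^ 127 := by norm_num
  set F := s9 (r30 D) with hF
  set F1 : ℕ → ℕ := fun k => F k / 2 + 2 ^ 127 * (if k + 1 < 294 then F (k + 1) % 2 else 0) with hF1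
  have b1 : ∀ k, F1 k < 2 ^ 128 := fun k => by
    have h1 := b0 k
    have h2 : (if k + 1 < 294 then F (k + 1) % 2 else 0) ≤ 1 := by split_ifs <;> omega
    have h3 := Nat.mul_le_mul_left (2 ^ 127) h2
    show F k / 2 + 2 ^ 127 * (if k + 1 < 294 then F (k + 1) % 2 else 0) < 2 ^ 128
    omega
  have b2 : ∀ k < 294, F1 k / 2 + 2 ^ 127 * (if k + 1 < 294 then F1 (k + 1) % 2 else 0) < 2 ^ 128 :=
    fun k _ => by
    have h1 := b1 k
    have h2 : (if k + 1 < 294 then F1 (k + 1) % 2 else 0) ≤ 1 := by split_ifs <;> omega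
    have h3 := Nat.mul_le_mul_left (2 ^ 127) h2
    omega
  rw [land_sel 294 _ (fun k => k % 33 = 0) b2]
  refine pk_congr _ _ _ _ fun k hk => ?_
  by_cases h : k % 33 = 0
  · rw [if_pos h, if_pos h]
    have z1 : F (k + 1) = 0 := s9_ne (by omega)
    have z2 : F (k + 1 + 1) = 0 := s9_ne (by omega)
    have e1 : F1 k = F k / 2 := by
      show F k / 2 + 2 ^ 127 * (if k + 1 < 294 then F (k + 1) % 2 else 0) = _
      rw [z1]
      simp
    have e2 : F1 (k + 1) = 0 := by
      show F (k + 1) / 2 + 2 ^ 127 * (if k + 1 + 1 < 294 then F (k + 1 + 1) % 2 else 0) = _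
      rw [z1, z2]
      simp
    have e3 : F k = rw9 D (k / 33) := by
      have e4 : k = 33 * (k / 33) := by omega
      have := s9_33 D (K := k / 33) (by omega)
      rw [← e4] at this
      exact this
    rw [e1, e2, e3]
    simp only [Nat.zero_mod, ite_self, Nat.mul_zero, Nat.add_zero]
    omega
  · rw [if_neg h, if_neg h]

theorem in33 (b : ℕ) (m : ℕ → ℕ) (i : ℕ) :
    pk b 33 (fun j => if (33 * i + j) % 33 = 0 then m ((33 * i + j) / 33) else 0) = m i := by
  rw [pk_succ, pk_zeros' b 32 _ (fun j hj => if_neg (by omega)), Nat.mul_zero, Nat.add_zero,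
    if_pos (by omega)]
  congr 1
  omega

theorem sum33 (b : ℕ) (m : ℕ → ℕ) : ∑ K ∈ range 9, m K * b ^ (33 * K) =
    pk b 294 (fun k => if k % 33 = 0 then m (k / 33) else 0) := by
  have e : pk b (294 + 3) (fun k => if k % 33 = 0 then m (k / 33) else 0) =
      pk b 294 (fun k => if k % 33 = 0 then m (k / 33) else 0) :=
    pk_extend _ _ _ _ fun k h1 h2 => if_neg (by omega)
  have e2 : pk b (33 * 9) (fun k => if k % 33 = 0 then m (k / 33) else 0) = pk (b ^ 33) 9 m := by
    rw [pk_nest]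
    exact pk_congr _ _ _ _ fun i _ => in33 b m i
  rw [← e, show 294 + 3 = 33 * 9 from rfl, e2, pk_sum]
  exact Finset.sum_congr rfl fun K _ => by rw [pow_mul]

theorem RdC_pk (m : ℕ → ℕ) :
    RdC m = pk (2 ^ 128) 294 (fun k => if k % 33 = 0 then m (k / 33) else 0) := sum33 _ m

theorem rsV_eq {D : ℕ → ℕ} (hD : ∀ k, 270 ≤ k → D k = 0) (bD : ∀ k, D k ≤ 15552 * 2 ^ 110) :
    rsV (pk (2 ^ 128) 270 D) = RdC (fun K => rw9 D K / 4) := by
  unfold rsV
  rw [fst9 hD bD, snd9 bD, RdC_pk]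

/-- the test of the range -/
theorem hr_lt {m : ℕ → ℕ} (hm : ∀ K < 9, m K < 2 ^ 128)
    (h : Nat.beq (Nat.land (RdC m) HRc) (nat_lit 0) = true) : ∀ K < 9, m K < 2 ^ 112 := by
  have h1 : RdC m &&& HRc = 0 := Nat.eq_of_beq_eq_true h
  rw [RdC_pk, HRc_eq, land0 294 _ _ (fun k hk => by
      split_ifs with h
      · exact hm _ (by omega)
      · positivity) (fun k _ => by split_ifs <;> norm_num)] at h1
  have h2 : pk (2 ^ 128) 294 (fun _ => 0) = 0 := pk_zeros' _ _ _ fun _ _ => rfl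
  have h3 := pk_inj (b := 2 ^ 128) (by positivity) 294 _ _ (fun k hk => lt_of_le_of_lt
    Nat.and_le_left (by
      split_ifs with h
      · exact hm _ (by omega)
      · positivity)) (fun _ _ => by positivity) (h1.trans h2.symm)
  intro K hK
  have h4 := h3 (33 * K) (by omega)
  rw [if_pos (by omega), if_pos (by omega), show 33 * K / 33 = K by omega] at h4
  have e1 := Nat.mod_add_div (m K) (2 ^ 112)
  have h5 := land_split 112 (m K % 2 ^ 112) (m K / 2 ^ 112) 0 (2 ^ 16 - 1)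
    (Nat.mod_lt _ (by positivity)) (by positivity)
  rw [e1, show 0 + 2 ^ 112 * (2 ^ 16 - 1) = (2 : ℕ) ^ 128 - 2 ^ 112 from by norm_num, h4,
    Nat.and_zero, Nat.zero_add] at h5
  have h6 : (m K / 2 ^ 112) &&& (2 ^ 16 - 1) = m K / 2 ^ 112 := mask_full (by
    rw [Nat.div_lt_iff_lt_mul (by positivity), ← pow_add]
    exact hm K hK)
  rw [h6] at h5
  have h7 : m K / 2 ^ 112 = 0 := by
    rcases Nat.mul_eq_zero.1 h5.symm with h | h
    · exact absurd h (by positivity)
    · exact h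
  exact (Nat.div_eq_zero_iff_lt (by positivity)).1 h7

end A2

open A2 in
theorem rsV_ok {g : ℕ → ℕ} (hg : DvB g) {x : ℕ} (hx : x = pk (2 ^ 128) 270 g)
    (h : Nat.beq (Nat.land (rsV (pmV x)) HRc) (nat_lit 0) = true) :
    ∃ m : ℕ → ℕ, rsV (pmV x) = RdC m ∧ (∀ K < 9, m K < 2 ^ 112) ∧
      ∀ K < 9, ∀ w : ℕ → ℂ, (∀ L < 9, |(w L).re| ≤ (g (30 * K + 3 * L) : ℝ) + 1 ∧
        |(w L).im| ≤ (g (30 * K + 3 * L + 1) : ℝ) + 1) →
        ∑ L ∈ range 9, ‖w L‖ ≤ 4 * ((m K : ℝ) + 16) := by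
  have hD : ∀ k, 270 ≤ k → dd g k = 0 := fun k h => by
    unfold dd
    rw [if_neg fun e => by omega]
  have e := pmV_eq hg hx
  have e2 := rsV_eq hD (dd_le hg)
  rw [e, e2] at h ⊢
  have hm : ∀ K < 9, rw9 (dd g) K / 4 < 2 ^ 128 := fun K _ => by
    have h1 : rw9 (dd g) K ≤ ∑ L ∈ range 9, 15552 * 2 ^ 110 :=
      Finset.sum_le_sum fun L _ => dd_le hg _
    rw [Finset.sum_const, Finset.card_range] at h1
    have : 9 • (15552 * 2 ^ 110) < (2 : ℕ) ^ 128 := by norm_num
    omega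
  refine ⟨_, rfl, hr_lt hm h, ?_⟩
  intro K hK w hw
  have h1 : ∀ L ∈ range 9, ‖w L‖ ≤ (dd g (30 * K + 3 * L) : ℝ) + 2 := by
    intro L hL
    rw [Finset.mem_range] at hL
    have h2 := norm_le_mo (hw L hL).1 (hw L hL).2
    have h3 : (⟨(w L).re, (w L).im⟩ : ℂ) = w L := rfl
    rw [h3] at h2
    refine h2.trans (le_of_eq ?_)
    have h4 : dd g (30 * K + 3 * L) = max (g (30 * K + 3 * L) + g (30 * K + 3 * L + 1) / 2)
        (g (30 * K + 3 * L + 1) + g (30 * K + 3 * L) / 2) := by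
      unfold dd p0
      rw [if_pos (by omega)]
    rw [h4]
    unfold moN
    push_cast
    rfl
  refine (Finset.sum_le_sum h1).trans ?_
  rw [Finset.sum_add_distrib, Finset.sum_const, Finset.card_range]
  have h5 : ∑ L ∈ range 9, (dd g (30 * K + 3 * L) : ℝ) = (rw9 (dd g) K : ℕ) := by
    unfold rw9
    push_cast
    rfl
  rw [h5]
  have h6 : rw9 (dd g) K ≤ 4 * (rw9 (dd g) K / 4) + 3 := by omega
  have h7 : (rw9 (dd g) K : ℝ) ≤ 4 * ((rw9 (dd g) K / 4 : ℕ) : ℝ) + 3 := by exact_mod_cast h6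
  norm_num
  linarith

end Pool.Agent.Helper45.N9S
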