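import Pool.Agent.Helper45.N9S.SE
import Pool.Agent.Helper17.N9.N9P
import Pool.Agent.Helper17.N9.N9J

/-!
Row K9 of MP_c75db0 (plan W), kernel S, row H: the matrices at the nodes are hermitian.
-/

set_option autoImplicit false
set_option exponentiation.threshold 60000
noncomputable section
namespace Pool.Agent.Helper45.N9S

open Pool.Agent.Helper90.C75 (Vt)
open Pool.Agent.Helper17.N9
open Pool.Agent.Helper6.MONO.W2 (Mt J1)
open Finset Matrix

/-! ### closure -/

theorem HmC_iff (N : VC) : HmC N ↔ ∀ K < 9, ∀ L < 9, fv L K N = star (fv K L N) := by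
  have e : ∀ K L : ℕ, fv L K N = star (fv K L N) ↔
      (reC N L K = reC N K L ∧ imC N L K = -imC N K L) := by
    intro K L
    rw [fv_apply, fv_apply, Complex.ext_iff]
    show (((N L K 0 - N L K 2 : ℤ) : ℝ) = ((N K L 0 - N K L 2 : ℤ) : ℝ) ∧
      ((N L K 1 : ℤ) : ℝ) = -((N K L 1 : ℤ) : ℝ)) ↔ _
    rw [Int.cast_inj, ← Int.cast_neg, Int.cast_inj]
    rfl
  constructor
  · intro h K hK L hL
    exact (e K L).2 (h K hK L hL)
  · intro h K hK L hL
    exact (e K L).1 (h K hK L hL)

/-- the defect of the real parts, of the imaginary parts -/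
def dfR (K L : ℕ) : VC →+ ℤ where
  toFun N := reC N L K - reC N K L
  map_zero' := by
    show ((0 : ℤ) - 0) - ((0 : ℤ) - 0) = 0
    ring
  map_add' M N := by
    show ((M L K 0 + N L K 0) - (M L K 2 + N L K 2)) - ((M K L 0 + N K L 0) - (M K L 2 + N K L 2)) =
      ((M L K 0 - M L K 2) - (M K L 0 - M K L 2)) + ((N L K 0 - N L K 2) - (N K L 0 - N K L 2))
    ring
def dfI (K L : ℕ) : VC →+ ℤ where
  toFun N := imC N L K + imC N K L
  map_zero' := by
    show ((0 : ℤ) + 0) = 0
    ring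
  map_add' M N := by
    show (M L K 1 + N L K 1) + (M K L 1 + N K L 1) =
      (M L K 1 + M K L 1) + (N L K 1 + N K L 1)
    ring

theorem cnI_z (D : ℕ) (u : Vt D) : cnI D (fun _ => (0 : ℤ)) u = 0 := by
  induction D with
  | zero => rfl
  | succ D ih =>
    obtain ⟨v, i⟩ := u
    have h := ih v
    fin_cases i
    · show (2 : ℤ) • cnI D (fun _ => (0 : ℤ)) v = 0
      rw [h, smul_zero]
    · show (4 : ℤ) • cnI D (fun _ => (0 : ℤ)) v -
        (cnI D (fun _ => (0 : ℤ)) v + cnI D (fun _ => (0 : ℤ)) v) = 0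
      rw [h, smul_zero]
      ring
    · show (2 : ℤ) • cnI D (fun _ => (0 : ℤ)) v = 0
      rw [h, smul_zero]

theorem HmC_cnI {D : ℕ} {F : Vt D → VC} (h : ∀ u, HmC (F u)) : ∀ u, HmC (cnI D F u) := by
  intro u K hK L hL
  have h1 : dfR K L (cnI D F u) = 0 := by
    rw [cnI_map (dfR K L) D F u]
    have e : (fun w => dfR K L (F w)) = fun _ => (0 : ℤ) := by
      funext w
      exact sub_eq_zero.2 (h w K hK L hL).1
    rw [e, cnI_z]
  have h2 : dfI K L (cnI D F u) = 0 := by
    rw [cnI_map (dfI K L) D F u]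
    have e : (fun w => dfI K L (F w)) = fun _ => (0 : ℤ) := by
      funext w
      show imC (F w) L K + imC (F w) K L = 0
      rw [(h w K hK L hL).2]
      ring
    rw [e, cnI_z]
  have h1' : reC (cnI D F u) L K - reC (cnI D F u) K L = 0 := h1
  have h2' : imC (cnI D F u) L K + imC (cnI D F u) K L = 0 := h2
  exact ⟨by linarith, by linarith⟩

theorem HmC.add {M N : VC} (hM : HmC M) (hN : HmC N) : HmC (M + N) := by
  rw [HmC_iff] at *
  intro K hK L hL
  rw [map_add, map_add, star_add, hM K hK L hL, hN K hK L hL]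

theorem HmC.sub {M N : VC} (hM : HmC M) (hN : HmC N) : HmC (M - N) := by
  rw [HmC_iff] at *
  intro K hK L hL
  rw [map_sub, map_sub, star_sub, hM K hK L hL, hN K hK L hL]

theorem HmC.smul {N : VC} (c : ℤ) (hN : HmC N) : HmC (c • N) := by
  rw [HmC_iff] at *
  intro K hK L hL
  rw [fv_smul, fv_smul, star_mul', hN K hK L hL]
  have : star ((c : ℤ) : ℂ) = ((c : ℤ) : ℂ) := by simp
  rw [this]

theorem HmC_mw (I J : VA) : HmC (mw I J) := by
  rw [HmC_iff]
  intro K _ L _
  have e : ∀ K L : ℕ, fv K L (mw I J) = star (ev K I) * ev L J + ev L I * star (ev K J) := by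
    intro K L
    rw [fv_mw, Fin.sum_univ_two]
    rfl
  rw [e, e, star_add, star_mul', star_mul', star_star, star_star]
  ring

/-! ### forms of order 3 -/

/-- hermitian digits -/
def HmF (X : VF) : Prop := ∀ i < 3, ∀ j < 3, ef j i X = star (ef i j X)

theorem HmC_mk2 {X Y : VF} (hX : HmF X) (hY : HmF Y) : HmC (mk2 X Y) := by
  rw [HmC_iff]
  intro K hK L hL
  rw [fv_mk2, fv_mk2, star_mul', ← hX (K / 3) (by omega) (L / 3) (by omega),
    ← hY (K % 3) (by omega) (L % 3) (by omega)]

theorem HmF_of {X : VF} (h : (mI X).IsHermitian) : HmF X := by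
  have key : ∀ i j : Fin 3, ef j i X = star (ef i j X) := by
    intro i j
    have h1 := h.apply j i
    exact h1.symm
  intro i hi j hj
  have h1 := key ⟨i, hi⟩ ⟨j, hj⟩
  exact h1

theorem HmF_tD (T : ℕ) : HmF (tD T) := by
  intro i hi j hj
  unfold tD
  interval_cases i <;> interval_cases j <;>
    simp [ef_apply, dF, Complex.ext_iff]

theorem tabM_hm (T : ℕ) : (tabM T).IsHermitian := by
  ext i j
  fin_cases i <;> fin_cases j <;> simp [tabM, Matrix.conjTranspose_apply, Complex.ext_iff]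

theorem kap_hm (T : ℕ) : (kap T).IsHermitian := by
  unfold kap
  ext i j
  have h := (tabM_hm T).apply i j
  rw [Matrix.conjTranspose_apply]
  show star ((2 ^ 23 : ℂ) * tabM T j i) = (2 ^ 23 : ℂ) * tabM T i j
  rw [star_mul', h]
  have : star ((2 : ℂ) ^ 23) = 2 ^ 23 := by simp
  rw [this]

theorem J1_hm : J1.IsHermitian := by
  ext i j
  fin_cases i <;> fin_cases j <;> simp [J1, Matrix.conjTranspose_apply]

theorem cg_hm {K U : Mt} (h : K.IsHermitian) : (U.conjTranspose * K * U).IsHermitian := by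
  show (U.conjTranspose * K * U).conjTranspose = _
  rw [Matrix.conjTranspose_mul, Matrix.conjTranspose_mul, Matrix.conjTranspose_conjTranspose,
    h.eq, Matrix.mul_assoc]

theorem cv_hm {K : Mt} (h : K.IsHermitian) : (cvM K).IsHermitian := by
  unfold cvM
  show (J1 * K.transpose * J1).conjTranspose = _
  have e : K.transpose.conjTranspose = K.transpose := by
    ext i j
    exact h.apply j i
  rw [Matrix.conjTranspose_mul, Matrix.conjTranspose_mul, J1_hm.eq, e, Matrix.mul_assoc]

theorem HmC_N {j pq cs : ℕ} {QM QX : VA} {A B Ju Jw : VF} {U W : Mt} {T1 T2 : ℕ}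
    (hA : mI A = U.conjTranspose * kap T1 * U) (hB : mI B = W.conjTranspose * cvM (kap T2) * W)
    (hu : mI Ju = U.conjTranspose * J1 * U) (hw : mI Jw = W.conjTranspose * J1 * W) :
    HmC ((2 ^ j : ℤ) • mw QM QX - sV pq cs A B Ju Jw) := by
  have fA : HmF A := HmF_of (by rw [hA]; exact cg_hm (kap_hm T1))
  have fB : HmF B := HmF_of (by rw [hB]; exact cg_hm (cv_hm (kap_hm T2)))
  have fu : HmF Ju := HmF_of (by rw [hu]; exact cg_hm J1_hm)
  have fw : HmF Jw := HmF_of (by rw [hw]; exact cg_hm J1_hm)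
  refine HmC.sub (HmC.smul _ (HmC_mw _ _)) ?_
  unfold sV
  exact (((HmC_mk2 (HmF_tD _) fA).smul _).add ((HmC_mk2 fB (HmF_tD _)).smul _)).add
    (((HmC_mk2 fw (HmF_tD _)).smul _).add ((HmC_mk2 (HmF_tD _) fu).smul _))

end Pool.Agent.Helper45.N9S
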