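import Pool.Agent.Helper45.N9S.SD

/-!
Row K9 of MP_c75db0 (plan W), kernel S, row K: functions equal to functions of version 2.
-/

set_option autoImplicit false
noncomputable section
namespace Pool.Agent.Helper45.N9S

open Pool.Agent.Helper86.C75 (Z)
open Pool.Agent.Helper17.N9
open Pool.Agent.Helper90.C9

/-! ### the forms -/

theorem kF_eq (L : Lc) (B : Bs) (T : ℕ) :
    kF B.a B.b B.c B.d B.e B.f B.g B.h B.i B.k L.OG T = kE L B (mkUt T) := rfl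

theorem kFB_eq (L : Lc) (B : Bs) (K : Kf) : kFB L B K = kNd (kE L B) K := by
  cases K with
  | c k => rfl
  | q k => rfl

/-! ### the test of a leaf -/

theorem eS1_eq (N : ℕ) : eS1 N = lst N := rfl

theorem eV2_eq (X : ℕ) : eV2 X = fin c2 X lst := by
  unfold eV2 fin sel eS1
  rfl
theorem eU2_eq (N U : ℕ) : eU2 N U = upd c2 N U lst := by
  unfold eU2 upd
  rw [eV2_eq]
theorem eP2_eq (N r p : ℕ) : eP2 N r p = piv c2 N r p lst := by
  unfold eP2 piv prd sel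
  rw [eU2_eq]
theorem eS2_eq (N : ℕ) : eS2 N = step c2 lst N := by
  unfold eS2 step
  rw [eP2_eq]

theorem eV3_eq (X : ℕ) : eV3 X = fin c3 X eS2 := by
  unfold eV3 fin sel
  rfl
theorem eU3_eq (N U : ℕ) : eU3 N U = upd c3 N U eS2 := by
  unfold eU3 upd
  rw [eV3_eq]
theorem eP3_eq (N r p : ℕ) : eP3 N r p = piv c3 N r p eS2 := by
  unfold eP3 piv prd sel
  rw [eU3_eq]
theorem eS3_eq (N : ℕ) : eS3 N = step c3 eS2 N := by
  unfold eS3 step
  rw [eP3_eq]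

theorem eV4_eq (X : ℕ) : eV4 X = fin c4 X eS3 := by
  unfold eV4 fin sel
  rfl
theorem eU4_eq (N U : ℕ) : eU4 N U = upd c4 N U eS3 := by
  unfold eU4 upd
  rw [eV4_eq]
theorem eP4_eq (N r p : ℕ) : eP4 N r p = piv c4 N r p eS3 := by
  unfold eP4 piv prd sel
  rw [eU4_eq]
theorem eS4_eq (N : ℕ) : eS4 N = step c4 eS3 N := by
  unfold eS4 step
  rw [eP4_eq]

theorem eV5_eq (X : ℕ) : eV5 X = fin c5 X eS4 := by
  unfold eV5 fin sel
  rfl
theorem eU5_eq (N U : ℕ) : eU5 N U = upd c5 N U eS4 := by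
  unfold eU5 upd
  rw [eV5_eq]
theorem eP5_eq (N r p : ℕ) : eP5 N r p = piv c5 N r p eS4 := by
  unfold eP5 piv prd sel
  rw [eU5_eq]
theorem eS5_eq (N : ℕ) : eS5 N = step c5 eS4 N := by
  unfold eS5 step
  rw [eP5_eq]

theorem eV6_eq (X : ℕ) : eV6 X = fin c6 X eS5 := by
  unfold eV6 fin sel
  rfl
theorem eU6_eq (N U : ℕ) : eU6 N U = upd c6 N U eS5 := by
  unfold eU6 upd
  rw [eV6_eq]
theorem eP6_eq (N r p : ℕ) : eP6 N r p = piv c6 N r p eS5 := by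
  unfold eP6 piv prd sel
  rw [eU6_eq]
theorem eS6_eq (N : ℕ) : eS6 N = step c6 eS5 N := by
  unfold eS6 step
  rw [eP6_eq]

theorem eV7_eq (X : ℕ) : eV7 X = fin c7 X eS6 := by
  unfold eV7 fin sel
  rfl
theorem eU7_eq (N U : ℕ) : eU7 N U = upd c7 N U eS6 := by
  unfold eU7 upd
  rw [eV7_eq]
theorem eP7_eq (N r p : ℕ) : eP7 N r p = piv c7 N r p eS6 := by
  unfold eP7 piv prd sel
  rw [eU7_eq]
theorem eS7_eq (N : ℕ) : eS7 N = step c7 eS6 N := by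
  unfold eS7 step
  rw [eP7_eq]

theorem eV8_eq (X : ℕ) : eV8 X = fin c8 X eS7 := by
  unfold eV8 fin sel
  rfl
theorem eU8_eq (N U : ℕ) : eU8 N U = upd c8 N U eS7 := by
  unfold eU8 upd
  rw [eV8_eq]
theorem eP8_eq (N r p : ℕ) : eP8 N r p = piv c8 N r p eS7 := by
  unfold eP8 piv prd sel
  rw [eU8_eq]
theorem eS8_eq (N : ℕ) : eS8 N = step c8 eS7 N := by
  unfold eS8 step
  rw [eP8_eq]

theorem eV9_eq (X : ℕ) : eV9 X = fin c9 X eS8 := by
  unfold eV9 fin sel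
  rfl
theorem eU9_eq (N U : ℕ) : eU9 N U = upd c9 N U eS8 := by
  unfold eU9 upd
  rw [eV9_eq]
theorem eP9_eq (N r p : ℕ) : eP9 N r p = piv c9 N r p eS8 := by
  unfold eP9 piv prd sel
  rw [eU9_eq]
theorem eS9_eq (N : ℕ) : eS9 N = step c9 eS8 N := by
  unfold eS9 step
  rw [eP9_eq]

theorem eS2_fun : eS2 = step c2 lst := funext eS2_eq
theorem eS3_fun : eS3 = step c3 eS2 := funext eS3_eq
theorem eS4_fun : eS4 = step c4 eS3 := funext eS4_eq
theorem eS5_fun : eS5 = step c5 eS4 := funext eS5_eq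
theorem eS6_fun : eS6 = step c6 eS5 := funext eS6_eq
theorem eS7_fun : eS7 = step c7 eS6 := funext eS7_eq
theorem eS8_fun : eS8 = step c8 eS7 := funext eS8_eq
theorem eS9_fun : eS9 = step c9 eS8 := funext eS9_eq

theorem eS9_pdx (N : ℕ) : eS9 N = pdx N := by
  rw [eS9_fun, eS8_fun, eS7_fun, eS6_fun, eS5_fun, eS4_fun, eS3_fun, eS2_fun]
  unfold pdx
  rfl

theorem tX1_eq (N : ℕ) : tX1 N = tfC2 N := by
  unfold tX1 tfC2 sel
  rw [eS9_pdx]

theorem tfX_eq (R Y : ℕ) : tfX R Y = tfY R Y := by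
  unfold tfX tfY tNY
  rw [tX1_eq]

/-! ### maximum and absolute difference -/

theorem mxV_eq (x y : ℕ) : mxV x y = pmax HVc x y := rfl

theorem abV_eq (x y : ℕ) : abV x y = absd HVc LVc x y := rfl

/-! ### the constant forms -/

theorem HP3_eq : HP3 = hcp 3 := by decide +kernel
theorem HN3_eq : HN3 = hcn 3 := by decide +kernel
theorem HP1_eq : HP1 = hcp 1 := by decide +kernel
theorem HN1_eq : HN1 = hcn 1 := by decide +kernel

theorem m3_1 : Nat.mul 3 4224 = 12672 := rfl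
theorem m3_2 : Nat.mul 3 8448 = 25344 := rfl
theorem m3_3 : Nat.mul 3 384 = 1152 := rfl
theorem m3_4 : Nat.mul 3 3840 = 11520 := rfl
theorem m3_5 : Nat.mul 3 768 = 2304 := rfl
theorem m3_6 : Nat.mul 3 7680 = 23040 := rfl
theorem m3_7 : Nat.mul 3 4608 = 13824 := rfl
theorem m3_8 : Nat.mul 3 8064 = 24192 := rfl
theorem a3_1 : Nat.add 1152 128 = 1280 := rfl
theorem a3_2 : Nat.add 2304 128 = 2432 := rfl
theorem a3_3 : Nat.add 13824 128 = 13952 := rfl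
theorem a3_4 : Nat.add 11520 128 = 11648 := rfl
theorem a3_5 : Nat.add 23040 128 = 23168 := rfl
theorem a3_6 : Nat.add 24192 128 = 24320 := rfl

theorem m1_1 : Nat.mul 1 4224 = 4224 := rfl
theorem m1_2 : Nat.mul 1 8448 = 8448 := rfl
theorem m1_3 : Nat.mul 1 384 = 384 := rfl
theorem m1_4 : Nat.mul 1 3840 = 3840 := rfl
theorem m1_5 : Nat.mul 1 768 = 768 := rfl
theorem m1_6 : Nat.mul 1 7680 = 7680 := rfl
theorem m1_7 : Nat.mul 1 4608 = 4608 := rfl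
theorem m1_8 : Nat.mul 1 8064 = 8064 := rfl
theorem a1_1 : Nat.add 384 128 = 512 := rfl
theorem a1_2 : Nat.add 768 128 = 896 := rfl
theorem a1_3 : Nat.add 4608 128 = 4736 := rfl
theorem a1_4 : Nat.add 3840 128 = 3968 := rfl
theorem a1_5 : Nat.add 7680 128 = 7808 := rfl
theorem a1_6 : Nat.add 8064 128 = 8192 := rfl

theorem hat3_eq (T : ℕ) : hat3 T = hat 3 T := by
  unfold hat3 hat hat1 hpos hneg Pool.Agent.Helper17.N9.sl sl' u16
  rw [← HP3_eq, ← HN3_eq, m3_1, m3_2, m3_3, m3_4, m3_5, m3_6, m3_7, m3_8, a3_1, a3_2, a3_3, a3_4, a3_5, a3_6]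

theorem hat1F_eq (T : ℕ) : hat1F T = hat 1 T := by
  unfold hat1F hat hat1 hpos hneg Pool.Agent.Helper17.N9.sl sl' u16
  rw [← HP1_eq, ← HN1_eq, m1_1, m1_2, m1_3, m1_4, m1_5, m1_6, m1_7, m1_8, a1_1, a1_2, a1_3, a1_4, a1_5, a1_6]

theorem mkScF_eq (pq cs : ℕ) (Ju Jw : Z) : mkScF pq cs Ju Jw = mkSc pq cs Ju Jw := by
  unfold mkScF scF mkSc
  rw [hat3_eq, hat3_eq, hat1F_eq, hat1F_eq]

end Pool.Agent.Helper45.N9S
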