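import Pool.Agent.Helper45.N9S.SE
import Pool.Agent.Helper45.N9S.SK
import Pool.Agent.Helper45.N9S.RA1
import Pool.Agent.Helper45.N9S.RA2
import Pool.Agent.Helper45.N9S.RH
import Pool.Agent.Helper17.N9.N9N
import Pool.Agent.Helper90.CX.K9O

/-!
Row K9 of MP_c75db0 (plan W), kernel S, part A: laws of the tests of the leaves, the test of the
tree of matrices.
-/

set_option autoImplicit false
set_option exponentiation.threshold 60000
noncomputable section
namespace Pool.Agent.Helper45.N9S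

open Pool.Agent.Helper86.C75 (Z)
open Pool.Agent.Helper86.CX (Cx andB)
open Pool.Agent.Helper90.C75 (Vt avg wtT bt Wts sum_Vt_succ)
open Pool.Agent.Helper90.KMT (PT)
open Pool.Agent.Helper90.K9 (G G_congr pk pz pz_congr)
open Pool.Agent.Helper90.K9N (G_diagR)
open Pool.Agent.Helper90.C9 (RdC tfY)
open Pool.Agent.Helper17.N9
open Finset

/-! ### charges -/

theorem RdC_add (a b : ℕ → ℕ) : RdC a + RdC b = RdC (fun K => a K + b K) := by
  unfold RdC
  rw [← sum_add_distrib]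
  exact sum_congr rfl fun K _ => (Nat.add_mul _ _ _).symm

theorem K33_eq : K33 = RdC (fun _ => 16) := by decide +kernel

theorem RdC_zero : RdC (fun _ => 0) = 0 := by
  unfold RdC
  exact sum_eq_zero fun K _ => Nat.zero_mul _

/-- a diagonal matrix -/
def Dg (a : ℕ → ℕ) : VC := fun K L e => if K = L ∧ e = 0 then (a K : ℤ) else 0

theorem PC_Dg (a : ℕ → ℕ) : PC (Dg a) = (RdC a : ℤ) := by
  unfold PC RdC
  push_cast
  refine sum_congr rfl fun K hK => ?_
  rw [sum_eq_single K]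
  · have h0 : Dg a K K 0 = a K := if_pos ⟨rfl, rfl⟩
    have h1 : Dg a K K 1 = 0 := if_neg (by simp)
    have h2 : Dg a K K 2 = 0 := if_neg (by simp)
    rw [h0, h1, h2, zero_mul, zero_mul, add_zero, add_zero, ← pow_mul, ← pow_mul, ← pow_add]
    have e : 30 * K + 3 * K = 33 * K := by ring
    rw [e]
    rfl
  · intro L _ hL
    have h : ∀ e, Dg a K L e = 0 := fun e => if_neg (fun h => hL h.1.symm)
    rw [h, h, h, zero_mul, zero_mul, add_zero, add_zero, zero_mul]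
  · intro h
    exact absurd hK h

theorem fv_Dg (a : ℕ → ℕ) (K L : ℕ) : fv K L (Dg a) = if K = L then (a K : ℂ) else 0 := by
  rw [fv_apply]
  have h1 : Dg a K L 1 = 0 := if_neg (by simp)
  have h2 : Dg a K L 2 = 0 := if_neg (by simp)
  rw [h1, h2]
  by_cases h : K = L
  · rw [if_pos h]
    have h0 : Dg a K L 0 = a K := if_pos ⟨h, rfl⟩
    rw [h0]
    apply Complex.ext
    · simp
    · simp
  · rw [if_neg h]
    have h0 : Dg a K L 0 = 0 := if_neg (fun h' => h h'.1)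
    rw [h0]
    apply Complex.ext
    · simp
    · simp

theorem Ph_Dg (a : ℕ → ℕ) (v : ℕ → ℂ) : Ph v (Dg a) = ∑ K ∈ range 9, (a K : ℝ) * ‖v K‖ ^ 2 := by
  rw [Ph_apply]
  refine G_diagR 9 _ (fun K => (a K : ℝ)) v (fun i _ => ?_) (fun i _ j _ hij => ?_)
  · show fv i i (Dg a) = _
    rw [fv_Dg, if_pos rfl]
    push_cast
    rfl
  · show fv i j (Dg a) = 0
    rw [fv_Dg, if_neg hij.ne]

/-! ### a leaf -/

theorem dg_sub (M N : VC) (k : ℕ) : dg (M - N) k = dg M k - dg N k := map_sub (dgH k) M N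

theorem leafA {N : VC} {Y : ℕ} (hY : DgA N Y) (hb : Bc cA N) {R a : ℕ → ℕ}
    (hR : ∀ K < 9, R K ≤ 2 ^ 36) (ha : ∀ K < 9, a K ≤ 2 ^ 116)
    (ht : tfY (RdC R) (Y - RdC a) = true) (v : ℕ → ℂ) :
    ∑ K ∈ range 9, ((R K : ℝ) - 1238) * ‖v K‖ ^ 2 ≤
      (Ph v N - ∑ K ∈ range 9, (a K : ℝ) * ‖v K‖ ^ 2) / 2 ^ 76 := by
  have bD : ∀ K L, K < 9 → L < 9 → ∀ e, |Dg a K L e| ≤ 2 ^ 116 := by
    intro K L hK _ e
    show |if K = L ∧ e = 0 then (a K : ℤ) else 0| ≤ 2 ^ 116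
    split_ifs
    · rw [abs_of_nonneg (Int.natCast_nonneg _)]
      exact_mod_cast ha K hK
    · rw [abs_zero]
      positivity
  have bN : ∀ K L, K < 9 → L < 9 → ∀ e, |(N - Dg a) K L e| ≤ 2 ^ 121 := by
    intro K L hK hL e
    have h1 : |N K L e - Dg a K L e| ≤ |N K L e| + |Dg a K L e| := abs_sub _ _
    have h2 := hb K L hK hL e
    have h3 := bD K L hK hL e
    have h4 : cA + 2 ^ 116 ≤ 2 ^ 121 := by unfold cA; norm_num
    show |N K L e - Dg a K L e| ≤ _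
    linarith
  have e1 : (RdC a : ℤ) = pz BB 270 (dg (Dg a)) := by rw [← PC_Dg, PC_pz]
  have e2 : (Y : ℤ) - (RdC a : ℤ) = pz BB 270 (fun k => 2 ^ 122 + dg (N - Dg a) k) := by
    have h : (Y : ℤ) = pz BB 270 (fun k => 2 ^ 122 + dg N k) := hY
    rw [h, e1, pz_sum, pz_sum, pz_sum, ← sum_sub_distrib]
    refine sum_congr rfl fun k _ => ?_
    rw [dg_sub]
    ring
  have e3 : 0 ≤ (Y : ℤ) - (RdC a : ℤ) := by
    rw [e2]
    refine pz_nonneg' _ _ fun k hk => ?_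
    have h := abs_le.1 (dg_bd (by positivity) bN hk)
    have h2 : (2 : ℤ) ^ 121 ≤ 2 ^ 122 := by norm_num
    linarith [h.1]
  have e4 : RdC a ≤ Y := by
    have : (RdC a : ℤ) ≤ (Y : ℤ) := by linarith
    exact_mod_cast this
  have hY' : ((Y - RdC a : ℕ) : ℤ) = pz BB 270 (fun k => 2 ^ 122 + dg (N - Dg a) k) := by
    rw [Nat.cast_sub e4]
    exact e2
  have h := leaf_ok hY' bN hR ht v
  rwa [map_sub, Ph_Dg] at h

/-! ### the deviation of an affine direction -/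

/-- the form of a hermitian matrix is bounded by the rows -/
theorem Ph_row {E : VC} (hh : HmC E) (v : ℕ → ℂ) {r : ℕ → ℝ}
    (hr : ∀ K < 9, ∑ L ∈ range 9, ‖fv K L E‖ ≤ r K) :
    -∑ K ∈ range 9, r K * ‖v K‖ ^ 2 ≤ Ph v E := by
  have hn : ∀ K < 9, ∀ L < 9, ‖fv L K E‖ = ‖fv K L E‖ := by
    intro K hK L hL
    obtain ⟨h1, h2⟩ := hh K hK L hL
    have h1' : E L K 0 - E L K 2 = E K L 0 - E K L 2 := h1
    have h2' : E L K 1 = -E K L 1 := h2
    have e : fv L K E = star (fv K L E) := by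
      rw [fv_apply, fv_apply, h1', h2']
      apply Complex.ext
      · rfl
      · show ((-E K L 1 : ℤ) : ℝ) = -((E K L 1 : ℤ) : ℝ)
        push_cast
        rfl
    rw [e, norm_star]
  have g := G_rho 9 (fun K L => fv K L E)
    (fun K L => if K < 9 ∧ L < 9 then ‖fv K L E‖ else 0) v
    (fun i hi j hj _ => by
      show _ ≤ if i < 9 ∧ j < 9 then ‖fv i j E‖ else 0
      rw [if_pos ⟨hi, hj⟩])
    (fun i j => by
      show (if i < 9 ∧ j < 9 then ‖fv i j E‖ else 0) = if j < 9 ∧ i < 9 then ‖fv j i E‖ else 0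
      by_cases h : i < 9 ∧ j < 9
      · rw [if_pos h, if_pos ⟨h.2, h.1⟩, hn i h.1 j h.2]
      · rw [if_neg h, if_neg (fun h' => h ⟨h'.2, h'.1⟩)])
  rw [Ph_apply]
  refine le_trans (neg_le_neg (sum_le_sum fun K hK => ?_)) g
  refine mul_le_mul_of_nonneg_right ?_ (by positivity)
  refine le_trans (le_of_eq ?_) (hr K (mem_range.1 hK))
  exact sum_congr rfl fun L hL => if_pos ⟨mem_range.1 hK, mem_range.1 hL⟩

/-- `2 C - (A + B)` -/
def Ev (A C B : VC) : VC := (2 : ℤ) • C - (A + B)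

theorem Ev_Ph (A C B : VC) (v : ℕ → ℂ) : Ph v (Ev A C B) = 2 * Ph v C - (Ph v A + Ph v B) := by
  unfold Ev
  rw [map_sub, map_zsmul, map_add, zsmul_eq_mul]
  push_cast
  rfl

theorem Ev_re (A C B : VC) (K L : ℕ) : reC (Ev A C B) K L = 2 * reC C K L - (reC A K L + reC B K L) := by
  show (2 * C K L 0 - (A K L 0 + B K L 0)) - (2 * C K L 2 - (A K L 2 + B K L 2)) =
    2 * (C K L 0 - C K L 2) - ((A K L 0 - A K L 2) + (B K L 0 - B K L 2))
  ring

theorem Ev_im (A C B : VC) (K L : ℕ) : imC (Ev A C B) K L = 2 * imC C K L - (imC A K L + imC B K L) :=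
  rfl

theorem Ev_Hm {A C B : VC} (hA : HmC A) (hC : HmC C) (hB : HmC B) : HmC (Ev A C B) := by
  intro K hK L hL
  obtain ⟨a1, a2⟩ := hA K hK L hL
  obtain ⟨b1, b2⟩ := hB K hK L hL
  obtain ⟨c1, c2⟩ := hC K hK L hL
  constructor
  · rw [Ev_re, Ev_re, a1, b1, c1]
  · rw [Ev_im, Ev_im, a2, b2, c2]
    ring

/-- the form of the deviation -/
theorem Ev_ok {A C B : VC} (hA : HmC A) (hC : HmC C) (hB : HmC B) {g m : ℕ → ℕ}
    (hg : DvL g A C B) (hm : ∀ K < 9, ∀ w : ℕ → ℂ, (∀ L < 9, |(w L).re| ≤ (g (30 * K + 3 * L) : ℝ) + 1 ∧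
        |(w L).im| ≤ (g (30 * K + 3 * L + 1) : ℝ) + 1) →
        ∑ L ∈ range 9, ‖w L‖ ≤ 4 * ((m K : ℝ) + 16)) (v : ℕ → ℂ) :
    -(4 * ∑ K ∈ range 9, ((m K : ℝ) + 16) * ‖v K‖ ^ 2) ≤ 2 * Ph v C - (Ph v A + Ph v B) := by
  have h := Ph_row (Ev_Hm hA hC hB) v (r := fun K => 4 * ((m K : ℝ) + 16)) fun K hK => by
    refine hm K hK (fun L => fv K L (Ev A C B)) fun L hL => ?_
    obtain ⟨h1, h2⟩ := hg K hK L hL
    constructor
    · show |((reC (Ev A C B) K L : ℤ) : ℝ)| ≤ _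
      rw [Ev_re]
      exact_mod_cast h1
    · show |((imC (Ev A C B) K L : ℤ) : ℝ)| ≤ _
      rw [Ev_im]
      exact_mod_cast h2
  rw [Ev_Ph] at h
  refine le_trans (le_of_eq ?_) h
  rw [mul_sum]
  congr 1
  exact sum_congr rfl fun K _ => by ring

/-! ### the laws -/

theorem AfL0 : AfL 0 lv0 Af0 where
  dv a c b Ca Cc Cb ha hc hb ba bc bb := by
    obtain ⟨g, h1, h2, h3⟩ := dv0_ok (ha ()) (hc ()) (hb ()) (ba ()) (bc ()) (bb ())
    exact ⟨g, h1, h2, fun _ => h3⟩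
  al R a x C f hR ha hx hb _ ht t _ v := by
    have ht' : tfY (RdC R) (x - RdC a) = true := by
      rw [← tfX_eq]
      exact ht
    have h := leafA (hx ()) (hb ()) hR (fun K hK => by have := ha K hK; omega) ht' v
    refine h.trans (le_of_eq ?_)
    congr 2
    show _ = ∑ u : Unit, (1 : ℝ) * Ph v (C u)
    simp

theorem PT.dn {D : ℕ} {t : ℕ → ℝ} (h : PT (D + 1) t) : PT D t :=
  ⟨fun j hj => h.h0 j (by omega), fun j hj => h.h1 j (by omega), by have := h.hD; omega⟩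

/-- the sum over the controls, last direction -/
theorem sumT {D : ℕ} (t : ℕ → ℝ) (F : Vt (D + 1) → ℝ) : ∑ u, wtT (D + 1) t u * F u =
    (1 - t D) ^ 2 * ∑ u, wtT D t u * F (u, 0) + 2 * t D * (1 - t D) * ∑ u, wtT D t u * F (u, 1) +
      t D ^ 2 * ∑ u, wtT D t u * F (u, 2) := by
  rw [sum_Vt_succ, mul_sum, mul_sum, mul_sum, ← sum_add_distrib, ← sum_add_distrib]
  refine sum_congr rfl fun u _ => ?_
  rw [Fin.sum_univ_three]
  show wtT D t u * (1 - t D) ^ 2 * F (u, 0) + wtT D t u * (2 * t D * (1 - t D)) * F (u, 1) +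
    wtT D t u * t D ^ 2 * F (u, 2) = _
  ring

theorem tt4 (s : ℝ) : s * (1 - s) ≤ 1 / 4 := by nlinarith [sq_nonneg (2 * s - 1)]

theorem AfL_nx {ν : Type} {D : ℕ} {lv : ν → Vt D → ℕ} {A : Af ν} (H : AfL D lv A) :
    AfL (D + 1) (tlf lv) (nxAf A) where
  dv a c b Ca Cc Cb ha hc hb ba bc bb := by
    obtain ⟨g0, p0, q0, r0⟩ := H.dv a.a c.a b.a (fun u => Ca (u, 0)) (fun u => Cc (u, 0))
      (fun u => Cb (u, 0)) (fun u => ha (u, 0)) (fun u => hc (u, 0)) (fun u => hb (u, 0))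
      (fun u => ba (u, 0)) (fun u => bc (u, 0)) (fun u => bb (u, 0))
    obtain ⟨g1, p1, q1, r1⟩ := H.dv a.c c.c b.c (fun u => Ca (u, 1)) (fun u => Cc (u, 1))
      (fun u => Cb (u, 1)) (fun u => ha (u, 1)) (fun u => hc (u, 1)) (fun u => hb (u, 1))
      (fun u => ba (u, 1)) (fun u => bc (u, 1)) (fun u => bb (u, 1))
    obtain ⟨g2, p2, q2, r2⟩ := H.dv a.b c.b b.b (fun u => Ca (u, 2)) (fun u => Cc (u, 2))
      (fun u => Cb (u, 2)) (fun u => ha (u, 2)) (fun u => hc (u, 2)) (fun u => hb (u, 2))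
      (fun u => ba (u, 2)) (fun u => bc (u, 2)) (fun u => bb (u, 2))
    obtain ⟨e1, e2⟩ := mxV_ok q1 q2 p1 p2
    obtain ⟨e3, e4⟩ := mxV_ok q0 e2 p0 e1
    have mono : ∀ {g g' : ℕ → ℕ} {X Y W : VC}, DvL g X Y W → (∀ k, g k ≤ g' k) → DvL g' X Y W :=
      fun {g g' X Y W} h hl K hK L hL => by
        obtain ⟨h1, h2⟩ := h K hK L hL
        have l1 : (g (30 * K + 3 * L) : ℤ) ≤ g' (30 * K + 3 * L) := by exact_mod_cast hl _
        have l2 : (g (30 * K + 3 * L + 1) : ℤ) ≤ g' (30 * K + 3 * L + 1) := by exact_mod_cast hl _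
        exact ⟨by linarith, by linarith⟩
    refine ⟨_, e3, e4, ?_⟩
    rintro ⟨u, i⟩
    fin_cases i
    · exact mono (r0 u) fun k => le_max_left _ _
    · exact mono (r1 u) fun k => (le_max_left _ _).trans (le_max_right _ _)
    · exact mono (r2 u) fun k => (le_max_right _ _).trans (le_max_right _ _)
  al R a x C f hR ha hx hb hh ht t hP v := by
    have hP' := PT.dn hP
    have t0 : 0 ≤ t D := hP.h0 D (by omega)
    have t1 : t D ≤ 1 := hP.h1 D (by omega)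
    have hcast : (D + 1) * 2 ^ 113 = D * 2 ^ 113 + 2 ^ 113 := by ring
    have ha' : ∀ K < 9, a K + D * 2 ^ 113 + 2 ^ 113 ≤ 2 ^ 116 := fun K hK => by
      have := ha K hK
      rwa [hcast, ← Nat.add_assoc] at this
    rw [sumT t (fun u => Ph v (C u))]
    set S0 := ∑ u, wtT D t u * Ph v (C (u, 0)) with hS0
    set S1 := ∑ u, wtT D t u * Ph v (C (u, 1)) with hS1
    set S2 := ∑ u, wtT D t u * Ph v (C (u, 2)) with hS2
    set X := ∑ K ∈ range 9, (a K : ℝ) * ‖v K‖ ^ 2 with hX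
    set Q := ∑ K ∈ range 9, ((R K : ℝ) - 1238) * ‖v K‖ ^ 2 with hQ
    have d1 : 0 ≤ 1 - t D := by linarith
    cases hf : Nat.beq (Nat.land f 1) 1 with
    | false =>
      have ht' : andB (A.al (tfX (RdC R)) (Nat.shiftRight f 1) (RdC a) x.a)
          (andB (A.al (tfX (RdC R)) (Nat.shiftRight f 1) (RdC a) x.c)
            (A.al (tfX (RdC R)) (Nat.shiftRight f 1) (RdC a) x.b)) = true := by
        have e : (nxAf A).al (tfX (RdC R)) f (RdC a) x = Bool.rec (motive := fun _ => Bool)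
          (andB (A.al (tfX (RdC R)) (Nat.shiftRight f 1) (RdC a) x.a)
          (andB (A.al (tfX (RdC R)) (Nat.shiftRight f 1) (RdC a) x.c)
            (A.al (tfX (RdC R)) (Nat.shiftRight f 1) (RdC a) x.b)))
          (af1 A (tfX (RdC R)) (Nat.shiftRight f 1) x.a x.b (RdC a) (rsV (pmV (A.dv x.a x.c x.b))))
          (Nat.beq (Nat.land f 1) 1) := rfl
        rw [e, hf] at ht
        exact ht
      obtain ⟨h0, h12⟩ := andB2 ht'
      obtain ⟨h1, h2⟩ := andB2 h12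
      have aa : ∀ K < 9, a K + D * 2 ^ 113 ≤ 2 ^ 116 := fun K hK => by
        have := ha' K hK
        omega
      have i0 : Q ≤ (S0 - X) / 2 ^ 76 := H.al R a x.a (fun u => C (u, 0)) _ hR aa (fun u => hx (u, 0))
        (fun u => hb (u, 0)) (fun u => hh (u, 0)) h0 t hP' v
      have i1 : Q ≤ (S1 - X) / 2 ^ 76 := H.al R a x.c (fun u => C (u, 1)) _ hR aa (fun u => hx (u, 1))
        (fun u => hb (u, 1)) (fun u => hh (u, 1)) h1 t hP' v
      have i2 : Q ≤ (S2 - X) / 2 ^ 76 := H.al R a x.b (fun u => C (u, 2)) _ hR aa (fun u => hx (u, 2))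
        (fun u => hb (u, 2)) (fun u => hh (u, 2)) h2 t hP' v
      have w0 : 0 ≤ (1 - t D) ^ 2 := by positivity
      have w1 : 0 ≤ 2 * t D * (1 - t D) := by positivity
      have w2 : 0 ≤ t D ^ 2 := by positivity
      have j0 := mul_le_mul_of_nonneg_left i0 w0
      have j1 := mul_le_mul_of_nonneg_left i1 w1
      have j2 := mul_le_mul_of_nonneg_left i2 w2
      have e : Q = (1 - t D) ^ 2 * Q + 2 * t D * (1 - t D) * Q + t D ^ 2 * Q := by ring
      have e' : ((1 - t D) ^ 2 * S0 + 2 * t D * (1 - t D) * S1 + t D ^ 2 * S2 - X) / 2 ^ 76 =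
          (1 - t D) ^ 2 * ((S0 - X) / 2 ^ 76) + 2 * t D * (1 - t D) * ((S1 - X) / 2 ^ 76) +
            t D ^ 2 * ((S2 - X) / 2 ^ 76) := by ring
      rw [e', e]
      linarith
    | true =>
      have ht' : andB (Nat.beq (Nat.land (rsV (pmV (A.dv x.a x.c x.b))) HRc) 0)
          (andB (A.al (tfX (RdC R)) (Nat.shiftRight f 1)
              (RdC a + rsV (pmV (A.dv x.a x.c x.b)) + K33) x.a)
            (A.al (tfX (RdC R)) (Nat.shiftRight f 1)
              (RdC a + rsV (pmV (A.dv x.a x.c x.b)) + K33) x.b)) = true := by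
        have e : (nxAf A).al (tfX (RdC R)) f (RdC a) x = Bool.rec (motive := fun _ => Bool)
          (andB (A.al (tfX (RdC R)) (Nat.shiftRight f 1) (RdC a) x.a)
          (andB (A.al (tfX (RdC R)) (Nat.shiftRight f 1) (RdC a) x.c)
            (A.al (tfX (RdC R)) (Nat.shiftRight f 1) (RdC a) x.b)))
          (af1 A (tfX (RdC R)) (Nat.shiftRight f 1) x.a x.b (RdC a) (rsV (pmV (A.dv x.a x.c x.b))))
          (Nat.beq (Nat.land f 1) 1) := rfl
        rw [e, hf] at ht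
        exact ht
      obtain ⟨hm, h12⟩ := andB2 ht'
      obtain ⟨h0, h2⟩ := andB2 h12
      obtain ⟨g, hg1, hg2, hg3⟩ := H.dv x.a x.c x.b (fun u => C (u, 0)) (fun u => C (u, 1))
        (fun u => C (u, 2)) (fun u => hx (u, 0)) (fun u => hx (u, 1)) (fun u => hx (u, 2))
        (fun u => hb (u, 0)) (fun u => hb (u, 1)) (fun u => hb (u, 2))
      obtain ⟨m, m1, m2, m3⟩ := rsV_ok hg2 hg1 hm
      have eA : RdC a + rsV (pmV (A.dv x.a x.c x.b)) + K33 = RdC (fun K => a K + m K + 16) := by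
        rw [m1, K33_eq, RdC_add, RdC_add]
      rw [eA] at h0 h2
      have aa : ∀ K < 9, a K + m K + 16 + D * 2 ^ 113 ≤ 2 ^ 116 := fun K hK => by
        have h1 := ha' K hK
        have h3 := m2 K hK
        have h4 : (2 : ℕ) ^ 112 + 16 ≤ 2 ^ 113 := by norm_num
        omega
      set M := ∑ K ∈ range 9, ((m K : ℝ) + 16) * ‖v K‖ ^ 2 with hM
      have eX : ∑ K ∈ range 9, ((a K + m K + 16 : ℕ) : ℝ) * ‖v K‖ ^ 2 = X + M := by
        rw [hX, hM, ← sum_add_distrib]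
        refine sum_congr rfl fun K _ => ?_
        push_cast
        ring
      have i0 := H.al R (fun K => a K + m K + 16) x.a (fun u => C (u, 0)) _ hR aa
        (fun u => hx (u, 0)) (fun u => hb (u, 0)) (fun u => hh (u, 0)) h0 t hP' v
      have i2 := H.al R (fun K => a K + m K + 16) x.b (fun u => C (u, 2)) _ hR aa
        (fun u => hx (u, 2)) (fun u => hb (u, 2)) (fun u => hh (u, 2)) h2 t hP' v
      rw [eX] at i0 i2
      have i0' : Q ≤ (S0 - (X + M)) / 2 ^ 76 := i0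
      have i2' : Q ≤ (S2 - (X + M)) / 2 ^ 76 := i2
      have w := hP'.w
      have dv : -(4 * M) ≤ 2 * S1 - (S0 + S2) := by
        have e : 2 * S1 - (S0 + S2) = ∑ u, wtT D t u *
            (2 * Ph v (C (u, 1)) - (Ph v (C (u, 0)) + Ph v (C (u, 2)))) := by
          rw [hS0, hS1, hS2, mul_sum, ← sum_add_distrib, ← sum_sub_distrib]
          exact sum_congr rfl fun u _ => by ring
        have e2 : -(4 * M) = ∑ u, wtT D t u * -(4 * M) := by rw [← sum_mul, w.sum, one_mul]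
        rw [e, e2]
        exact sum_le_sum fun u _ => mul_le_mul_of_nonneg_left
          (Ev_ok (hh (u, 0)) (hh (u, 1)) (hh (u, 2)) (hg3 u) m3 v) (w.nonneg u)
      have M0 : 0 ≤ M := sum_nonneg fun K _ =>
        mul_nonneg (add_nonneg (Nat.cast_nonneg _) (by norm_num)) (sq_nonneg _)
      have tt : t D * (1 - t D) ≤ 1 / 4 := tt4 (t D)
      have tt0 : 0 ≤ t D * (1 - t D) := mul_nonneg t0 d1
      have k1 : -M ≤ t D * (1 - t D) * (2 * S1 - (S0 + S2)) := by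
        have h3 := mul_le_mul_of_nonneg_left dv tt0
        have h4 := mul_le_mul_of_nonneg_right tt M0
        linarith
      have j0 := mul_le_mul_of_nonneg_left i0' d1
      have j2 := mul_le_mul_of_nonneg_left i2' t0
      have e : Q = (1 - t D) * Q + t D * Q := by ring
      have e' : ((1 - t D) ^ 2 * S0 + 2 * t D * (1 - t D) * S1 + t D ^ 2 * S2 - X) / 2 ^ 76 =
          (1 - t D) * ((S0 - (X + M)) / 2 ^ 76) + t D * ((S2 - (X + M)) / 2 ^ 76) +
            (M + t D * (1 - t D) * (2 * S1 - (S0 + S2))) / 2 ^ 76 := by ring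
      have k2 : 0 ≤ (M + t D * (1 - t D) * (2 * S1 - (S0 + S2))) / 2 ^ 76 :=
        div_nonneg (by linarith) (by positivity)
      rw [e', e]
      linarith

theorem AfL_3 : AfL 3 Pool.Agent.Helper17.N9.lv3 Af3 := AfL_nx (AfL_nx (AfL_nx AfL0))
theorem AfL_4 : AfL 4 lv4 Af4 := AfL_nx AfL_3

/-! ### THE TREE -/

theorem s5_ok {ν ζ κ : Type} {D : ℕ} {lv : ν → Vt D → ℕ} {lz : ζ → Vt D → Z} {lk : κ → Vt D → ℕ}
    {T : Tl ν ζ κ} (H : TlL D lv lz lk T) {A : Af ν} (HA : AfL D lv A) (hD : D ≤ 4) {N : ζ}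
    {F : Vt D → VC} (hN : ∀ u, RC (lz N u) (F u)) (hb : ∀ u, Bc (2 ^ 126) (F u))
    (hh : ∀ u, HmC (F u)) {R : ℕ → ℕ} (hR : ∀ K < 9, R K ≤ 2 ^ 36) {fl : ℕ}
    (h : s5 T A fl (Nat.shiftRight OFN D) (tfX (RdC R)) N = true) {t : ℕ → ℝ} (hP : PT D t)
    (v : ℕ → ℂ) : ∑ K ∈ range 9, ((R K : ℝ) - 1238) * ‖v K‖ ^ 2 ≤
      2 ^ D / 2 ^ 76 * G 9 (fun K L => avg (ndw D t) (fun u => fv K L (F u))) v := by
  have h' : andB (T.az (rz ONEN 110) N) (A.al (tfX (RdC R)) fl 0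
      (T.cn (T.mz (zoff (Nat.shiftRight OFN D)) N))) = true := h
  obtain ⟨h1, h2⟩ := andB2 h'
  have d1 : ∀ u, ∀ k < 270, |dg (F u) k| ≤ 2 ^ 110 := fun u =>
    rz_ok (by norm_num) (hN u) (hb u) (H.az _ _ h1 u)
  have d2 : ∀ u, (lv (T.mz (zoff (Nat.shiftRight OFN D)) N) u : ℤ) =
      pz BB 270 (fun k => 2 ^ (122 - D) + dg (F u) k) := fun u => by
    rw [H.mz]
    exact off_node hD (hN u) (d1 u)
  have d3 : ∀ u, DgA (cnI D F u) (lv (T.cn (T.mz (zoff (Nat.shiftRight OFN D)) N)) u) := fun u => by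
    show ((lv (T.cn (T.mz (zoff (Nat.shiftRight OFN D)) N)) u : ℕ) : ℤ) =
      pz BB 270 (fun k => 2 ^ 122 + dg (cnI D F u) k)
    rw [H.cn _ 270 (fun _ => 2 ^ (122 - D)) (fun u k => dg (F u) k) d2 (fun u k hk => ?_) u]
    · refine pz_congr _ _ _ _ fun k _ => ?_
      show 2 ^ D * 2 ^ (122 - D) + cnI D (fun w => dg (F w) k) u = _
      rw [cnI_dg, ← pow_add]
      congr 2
      omega
    · have a1 := d1 u k hk
      have a2 : (3 : ℤ) ^ D ≤ 3 ^ 4 := pow_le_pow_right₀ (by norm_num) hD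
      have a3 : (2 : ℤ) ^ 118 ≤ 2 ^ (122 - D) := pow_le_pow_right₀ (by norm_num) (by omega)
      have a4 : (3 : ℤ) ^ D * |dg (F u) k| ≤ 3 ^ 4 * 2 ^ 110 :=
        mul_le_mul a2 a1 (abs_nonneg _) (by norm_num)
      have a5 : (3 : ℤ) ^ 4 * 2 ^ 110 ≤ 2 ^ 118 := by norm_num
      exact (a4.trans a5).trans a3
  have d4 : ∀ u, Bc cA (cnI D F u) := by
    intro u K L hK hL e
    have e1 : cnI D F u K L e = cnI D (fun w => F w K L e) u := cnI_map (eH K L e) D F u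
    rw [e1]
    have e2 : ∀ w, |F w K L e| ≤ 2 ^ 110 := fun w => by
      have a := d1 w (30 * K + (3 * L + e)) (by have := e.2; omega)
      rwa [dg_at _ hL] at a
    refine (cnI_le D _ _ e2 u).trans ?_
    have a2 : (6 : ℤ) ^ D ≤ 6 ^ 4 := pow_le_pow_right₀ (by norm_num) hD
    have a3 : (6 : ℤ) ^ D * 2 ^ 110 ≤ 6 ^ 4 * 2 ^ 110 := mul_le_mul_of_nonneg_right a2 (by positivity)
    exact a3.trans (by unfold cA; norm_num)
  have z0 : (0 : ℕ) = RdC (fun _ => 0) := RdC_zero.symm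
  rw [z0] at h2
  have d6 := HA.al R (fun _ => 0) _ (cnI D F) fl hR (fun K _ => by
    have : D * 2 ^ 113 ≤ 4 * 2 ^ 113 := Nat.mul_le_mul_right _ hD
    have : 4 * 2 ^ 113 ≤ 2 ^ 116 := by norm_num
    omega) d3 d4 (HmC_cnI hh) h2 t hP v
  have e0 : ∑ K ∈ range 9, (((fun _ => 0 : ℕ → ℕ) K : ℕ) : ℝ) * ‖v K‖ ^ 2 = 0 :=
    sum_eq_zero fun K _ => by simp
  rw [e0, sub_zero] at d6
  refine d6.trans (le_of_eq ?_)
  have e3 : ∀ u, Ph v (cnI D F u) = cnI D (fun w => Ph v (F w)) u := fun u => cnI_map (Ph v) D F u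
  calc (∑ u, wtT D t u * Ph v (cnI D F u)) / 2 ^ 76
      = (∑ u, wtT D t u * cnI D (fun w => Ph v (F w)) u) / 2 ^ 76 := by
        congr 1
        exact sum_congr rfl fun u _ => by rw [e3]
    _ = 2 ^ D * (∑ u, ndw D t u * Ph v (F u)) / 2 ^ 76 := by rw [cn_avgR]
    _ = _ := by rw [Ph_avg]; ring

end Pool.Agent.Helper45.N9S
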