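import Pool.Agent.Helper45.N9S.SD
import Pool.Agent.Helper17.N9.N9B

/-!
Row K9 of MP_c75db0 (plan W), kernel S: definitions for the proof (digits of a control, hermitian
matrices, bounds of deviations, laws of the tests of the leaves).
-/

set_option autoImplicit false
set_option exponentiation.threshold 60000
noncomputable section
namespace Pool.Agent.Helper45.N9S

open Pool.Agent.Helper90.C75 (Vt wtT)
open Pool.Agent.Helper90.KMT (PT)
open Pool.Agent.Helper90.K9 (pk pz)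
open Pool.Agent.Helper90.C9 (RdC)
open Pool.Agent.Helper17.N9
open Finset

/-- real part, imaginary part of an entry -/
def reC (N : VC) (K L : ℕ) : ℤ := N K L 0 - N K L 2
def imC (N : VC) (K L : ℕ) : ℤ := N K L 1

/-- a hermitian matrix -/
def HmC (N : VC) : Prop :=
  ∀ K < 9, ∀ L < 9, reC N L K = reC N K L ∧ imC N L K = -imC N K L

/-- `Y`: the packed matrix `N`, offset `2 ^ 122` in all digits -/
def DgA (N : VC) (Y : ℕ) : Prop := (Y : ℤ) = pz BB 270 (fun k => 2 ^ 122 + dg N k)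

/-- the bound of the controls -/
def cA : ℤ := 1296 * 2 ^ 110

/-- the digits in use: `30 K + 3 L + e`, `e = 0, 1` -/
def us (k : ℕ) : Prop := k % 30 < 27 ∧ k % 3 < 2
instance (k : ℕ) : Decidable (us k) := by unfold us; infer_instance

/-- digits of a packed bound of deviations -/
structure DvB (g : ℕ → ℕ) : Prop where
  z : ∀ k < 270, ¬ us k → g k = 0
  b : ∀ k < 270, g k ≤ 10368 * 2 ^ 110

/-- the digits `g` bound the deviation `2 C - (A + B)` (up to `1`) -/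
def DvL (g : ℕ → ℕ) (A C B : VC) : Prop := ∀ K < 9, ∀ L < 9,
  |2 * reC C K L - (reC A K L + reC B K L)| ≤ (g (30 * K + 3 * L) : ℤ) + 1 ∧
  |2 * imC C K L - (imC A K L + imC B K L)| ≤ (g (30 * K + 3 * L + 1) : ℤ) + 1

/-- LAWS OF THE TESTS OF THE LEAVES -/
structure AfL {ν : Type} (D : ℕ) (lv : ν → Vt D → ℕ) (A : Af ν) : Prop where
  dv : ∀ (a c b : ν) (Ca Cc Cb : Vt D → VC), (∀ u, DgA (Ca u) (lv a u)) →
    (∀ u, DgA (Cc u) (lv c u)) → (∀ u, DgA (Cb u) (lv b u)) → (∀ u, Bc cA (Ca u)) →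
    (∀ u, Bc cA (Cc u)) → (∀ u, Bc cA (Cb u)) → ∃ g : ℕ → ℕ,
      A.dv a c b = pk (2 ^ 128) 270 g ∧ DvB g ∧ ∀ u, DvL g (Ca u) (Cc u) (Cb u)
  al : ∀ (R a : ℕ → ℕ) (x : ν) (C : Vt D → VC) (f : ℕ), (∀ K < 9, R K ≤ 2 ^ 36) →
    (∀ K < 9, a K + D * 2 ^ 113 ≤ 2 ^ 116) → (∀ u, DgA (C u) (lv x u)) → (∀ u, Bc cA (C u)) →
    (∀ u, HmC (C u)) → A.al (tfX (RdC R)) f (RdC a) x = true → ∀ t : ℕ → ℝ, PT D t →
    ∀ v : ℕ → ℂ, ∑ K ∈ range 9, ((R K : ℝ) - 1238) * ‖v K‖ ^ 2 ≤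
      (∑ u, wtT D t u * Ph v (C u) - ∑ K ∈ range 9, (a K : ℝ) * ‖v K‖ ^ 2) / 2 ^ 76

end Pool.Agent.Helper45.N9S
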