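import Pool.Agent.Helper45.N9S.SD
import Pool.Agent.Helper91.FU.D

/-!
Row K9 of MP_c75db0 (plan W): kernel S, the tests as a record for the fused machine.
-/

set_option autoImplicit false
noncomputable section
namespace Pool.Agent.Helper45.N9S

open Pool.Agent.Helper86.CX (andB)
open Pool.Agent.Helper17.N9 (Kf Te u8)
open Pool.Agent.Helper91.FU (W9 TF)

def u3S (k1 k2 : Kf) (g : Te) (k : Nat) (M X : W9) : Bool :=
  andB (Nat.ble k (nat_lit 20)) (tS Ms3 (nw3 M k) (nw3 X k) k1 k2 g)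
def u4S (k1 k2 : Kf) (g : Te) (k : Nat) (M0 M1 M2 X0 X1 X2 : W9) : Bool :=
  andB (Nat.ble k (nat_lit 20)) (tS Ms4 (nw4 M0 M1 M2 k) (nw4 X0 X1 X2 k) k1 k2 g)
/-- THE TESTS -/
def TrS : TF Kf Te :=
  ⟨fun k1 k2 g M X => u3S k1 k2 g (u8 g.cs (nat_lit 32)) M X,
    fun k1 k2 g M0 M1 M2 X0 X1 X2 => u4S k1 k2 g (u8 g.cs (nat_lit 32)) M0 M1 M2 X0 X1 X2⟩

end Pool.Agent.Helper45.N9S
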